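import Pool.Agent.Lib_MP_820dd4_an.Corr
import Pool.Agent.Lib_MP_820dd4_an.NilHull
import Pool.Agent.Lib_MP_820dd4_hk.ZD

/-! ### Part `Final` -/

section

/-! # MP_820dd4_an: the decomposition for sequences indexed by the natural numbers -/

open scoped ComplexConjugate Topology ENNReal
open MeasureTheory

namespace Pool.Agent.Nil820

/-- A basic `s`-step nilsequence `n ↦ F (g ^ n • x)`, `n ∈ ℕ`: `G` is a real finite dimensional
(Hausdorff, second countable) Lie group, nilpotent of class at most `s`, `Γ` is a discrete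
cocompact subgroup, `g ∈ G`, `x ∈ G ⧸ Γ`, `F : G ⧸ Γ → ℂ` continuous. -/
def IsBasicNilsequence (s : ℕ) (ψ : ℕ → ℂ) : Prop :=
  ∃ (V : Type) (_ : NormedAddCommGroup V) (_ : NormedSpace ℝ V) (_ : FiniteDimensional ℝ V)
    (G : Type) (_ : Group G) (_ : TopologicalSpace G) (_ : T2Space G)
    (_ : SecondCountableTopology G) (_ : ChartedSpace V G)
    (_ : LieGroup (modelWithCornersSelf ℝ V) (⊤ : ℕ∞) G)
    (Γ : Subgroup G) (g : G) (x : G ⧸ Γ) (F : C(G ⧸ Γ, ℂ)),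
    (⊤ : Subgroup G).lowerCentralSeries s = ⊥ ∧ DiscreteTopology Γ ∧ CompactSpace (G ⧸ Γ) ∧
    ∀ n : ℕ, ψ n = F (g ^ n • x)

/-- An `s`-step nilsequence: a uniform limit of basic `s`-step nilsequences. -/
def IsNilsequence (s : ℕ) (ψ : ℕ → ℂ) : Prop :=
  ∀ ε > 0, ∃ φ, IsBasicNilsequence s φ ∧ ∀ n, ‖ψ n - φ n‖ ≤ ε

theorem isBasic_of_basicNil {s : ℕ} {φ : ℤ → ℂ} (h : BasicNil s φ) :
    IsBasicNilsequence s (fun n : ℕ => φ n) := by
  obtain ⟨V, i1, i2, i3, G, i4, i5, i6, i7, i8, i9, Γ, g, x, F, h1, h2, h3, h4⟩ := h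
  exact ⟨V, i1, i2, i3, G, i4, i5, i6, i7, i8, i9, Γ, g, x, F, h1, h2, h3,
    fun n => by simp only [h4, zpow_natCast]⟩

theorem basicNil_of_isBasic {s : ℕ} {φ : ℕ → ℂ} (h : IsBasicNilsequence s φ) :
    ∃ φ' : ℤ → ℂ, BasicNil s φ' ∧ ∀ n : ℕ, φ' n = φ n := by
  obtain ⟨V, i1, i2, i3, G, i4, i5, i6, i7, i8, i9, Γ, g, x, F, h1, h2, h3, h4⟩ := h
  exact ⟨fun m => F (g ^ m • x),
    ⟨V, i1, i2, i3, G, i4, i5, i6, i7, i8, i9, Γ, g, x, F, h1, h2, h3, fun _ => rfl⟩,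
    fun n => by simp only [h4, zpow_natCast]⟩

theorem isNil_of_nilseq {s : ℕ} {ψ : ℤ → ℂ} (h : Nilseq s ψ) :
    IsNilsequence s (fun n : ℕ => ψ n) := by
  intro ε hε
  obtain ⟨φ, hφ, hc⟩ := h ε hε
  exact ⟨_, isBasic_of_basicNil hφ, fun n => hc n⟩

theorem nilseq_of_basicNil {s : ℕ} {φ : ℤ → ℂ} (h : BasicNil s φ) : Nilseq s φ :=
  fun ε hε => ⟨φ, h, fun m => by simpa using hε.le⟩

/-- orthogonality for sequences indexed by `ℕ` -/
theorem orth_nat {s : ℕ} {e : ℤ → ℂ} (heb : Bdd e) (he : Orth {ψ | Nilseq s ψ} e) {ψ : ℕ → ℂ}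
    (hψ : IsNilsequence s ψ) {ε : ℝ} (hε : 0 < ε) :
    ∃ L : ℕ, ∀ n ≥ L, ∀ M : ℕ, ‖∑ i ∈ Finset.range n, ψ (M + i) * e ((M + i : ℕ) : ℤ)‖ ≤
      ε * n := by
  obtain ⟨C, hC0, hC⟩ := heb.nonneg
  obtain ⟨φ, hφ, hc⟩ := hψ (ε / (2 * (C + 1))) (by positivity)
  obtain ⟨φ', hφ', hn⟩ := basicNil_of_isBasic hφ
  obtain ⟨L, hL⟩ := he φ' (nilseq_of_basicNil hφ') (ε / 2) (by positivity)
  refine ⟨L, fun n hn' M => ?_⟩
  have h1 := hL n hn' (M : ℤ)
  have h2 : ∑ i ∈ Finset.range n, ψ (M + i) * e ((M + i : ℕ) : ℤ) =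
      ∑ i ∈ Finset.range n, (ψ (M + i) - φ (M + i)) * e ((M + i : ℕ) : ℤ) +
      ∑ i ∈ Finset.range n, φ' ((M : ℤ) + i) * e ((M : ℤ) + i) := by
    rw [← Finset.sum_add_distrib]
    refine Finset.sum_congr rfl fun i _ => ?_
    have h3 := hn (M + i)
    push_cast at h3 ⊢
    rw [h3]
    ring
  rw [h2]
  calc ‖∑ i ∈ Finset.range n, (ψ (M + i) - φ (M + i)) * e ((M + i : ℕ) : ℤ) +
      ∑ i ∈ Finset.range n, φ' ((M : ℤ) + i) * e ((M : ℤ) + i)‖
      ≤ ‖∑ i ∈ Finset.range n, (ψ (M + i) - φ (M + i)) * e ((M + i : ℕ) : ℤ)‖ +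
        ‖∑ i ∈ Finset.range n, φ' ((M : ℤ) + i) * e ((M : ℤ) + i)‖ := norm_add_le _ _
    _ ≤ ∑ _i ∈ Finset.range n, ε / (2 * (C + 1)) * C + ε / 2 * n := by
        refine add_le_add ((norm_sum_le _ _).trans (Finset.sum_le_sum fun i _ => ?_)) h1
        rw [norm_mul]
        exact mul_le_mul (hc _) (hC _) (norm_nonneg _) (by positivity)
    _ = (C / (C + 1)) * (ε / 2 * n) + ε / 2 * n := by
        rw [Finset.sum_const, Finset.card_range, nsmul_eq_mul]
        field_simp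
    _ ≤ 1 * (ε / 2 * n) + ε / 2 * n := by
        gcongr
        rw [div_le_one (by positivity)]
        linarith
    _ = ε * n := by ring

/-- a uniform limit of restrictions of basic two-sided nilsequences -/
theorem isNil_iff {s : ℕ} {ψ : ℕ → ℂ} : IsNilsequence s ψ ↔
    ∀ ε > 0, ∃ φ : ℤ → ℂ, BasicNil s φ ∧ ∀ n : ℕ, ‖ψ n - φ n‖ ≤ ε := by
  constructor
  · intro h ε hε
    obtain ⟨φ, hφ, hc⟩ := h ε hε
    obtain ⟨φ', hφ', hn⟩ := basicNil_of_isBasic hφ
    exact ⟨φ', hφ', fun n => by rw [hn]; exact hc n⟩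
  · intro h ε hε
    obtain ⟨φ, hφ, hc⟩ := h ε hε
    exact ⟨_, isBasic_of_basicNil hφ, hc⟩

theorem IsNilsequence.cj {s : ℕ} {ψ : ℕ → ℂ} (h : IsNilsequence s ψ) :
    IsNilsequence s (fun n => conj (ψ n)) := by
  rw [isNil_iff] at h ⊢
  intro ε hε
  obtain ⟨φ, hφ, hc⟩ := h ε hε
  obtain ⟨W, hW, hφW⟩ := (basicNil_iff s φ).1 hφ
  obtain ⟨U, hU, hφU⟩ := hW.comp ⟨fun z => conj z, Complex.continuous_conj⟩
  refine ⟨fun m => conj (φ m), (basicNil_iff s _).2 ⟨U, hU, hφU φ hφW⟩, fun n => ?_⟩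
  rw [← map_sub, RCLike.norm_conj]
  exact hc n

theorem IsNilsequence.sub {s : ℕ} {ψ ψ' : ℕ → ℂ} (h : IsNilsequence s ψ)
    (h' : IsNilsequence s ψ') : IsNilsequence s (fun n => ψ n - ψ' n) := by
  rw [isNil_iff] at h h' ⊢
  intro ε hε
  obtain ⟨φ, hφ, hc⟩ := h (ε / 2) (by positivity)
  obtain ⟨φ', hφ', hc'⟩ := h' (ε / 2) (by positivity)
  obtain ⟨W, hW, hφW⟩ := (basicNil_iff s φ).1 hφ
  obtain ⟨W', hW', hφW'⟩ := (basicNil_iff s φ').1 hφ'
  obtain ⟨U, hU, hφU⟩ := hW.prod hW' ⟨fun z => z.1 - z.2, by fun_prop⟩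
  refine ⟨fun m => φ m - φ' m, (basicNil_iff s _).2 ⟨U, hU, hφU φ hφW φ' hφW'⟩, fun n => ?_⟩
  calc ‖ψ n - ψ' n - (φ n - φ' n)‖ = ‖(ψ n - φ n) - (ψ' n - φ' n)‖ := by ring_nf
    _ ≤ ‖ψ n - φ n‖ + ‖ψ' n - φ' n‖ := norm_sub_le _ _
    _ ≤ ε / 2 + ε / 2 := add_le_add (hc n) (hc' n)
    _ = ε := by ring

theorem IsNilsequence.bdd {s : ℕ} {ψ : ℕ → ℂ} (h : IsNilsequence s ψ) :
    ∃ C : ℝ, 0 ≤ C ∧ ∀ n, ‖ψ n‖ ≤ C := by
  rw [isNil_iff] at h
  obtain ⟨φ, hφ, hc⟩ := h 1 one_pos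
  obtain ⟨W, hW, hφW⟩ := (basicNil_iff s φ).1 hφ
  obtain ⟨C, hC⟩ := hW.bdd
  have h1 : ∀ n : ℕ, ‖ψ n‖ ≤ 1 + C := fun n => by
    calc ‖ψ n‖ = ‖(ψ n - φ n) + φ n‖ := by ring_nf
      _ ≤ ‖ψ n - φ n‖ + ‖φ n‖ := norm_add_le _ _
      _ ≤ 1 + C := add_le_add (hc n) (hC φ hφW n)
  exact ⟨1 + C, (norm_nonneg _).trans (h1 0), h1⟩

/-- the uniform orthogonality to nilsequences, on `ℕ` -/
def OrthNat (s : ℕ) (e : ℕ → ℂ) : Prop :=
  ∀ ψ, IsNilsequence s ψ → ∀ ε > 0, ∃ L : ℕ, ∀ n ≥ L, ∀ M : ℕ,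
    ‖∑ i ∈ Finset.range n, ψ (M + i) * e (M + i)‖ ≤ ε * n

/-- A nilsequence which is uniformly orthogonal to nilsequences vanishes. -/
theorem IsNilsequence.eq_zero {s : ℕ} {D : ℕ → ℂ} (hD : IsNilsequence s D) (ho : OrthNat s D)
    (n₀ : ℕ) : D n₀ = 0 := by
  by_contra hne
  set δ : ℝ := ‖D n₀‖ with hδdef
  have hδ : 0 < δ := norm_pos_iff.2 hne
  have hD' := hD
  rw [isNil_iff] at hD'
  obtain ⟨φ, hφ, hc⟩ := hD' (δ / 8) (by positivity)
  obtain ⟨ψ, hψ, c, hc0, L, hψ1, hψ2, hψ3⟩ := basic_recur hφ (n₀ : ℤ) (ε := δ / 8) (by positivity)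
  obtain ⟨W, hW, hψW⟩ := (basicNil_iff s ψ).1 hψ
  obtain ⟨Cψ, hCψ⟩ := hW.bdd
  -- the sequence `ψ * conj D` is a nilsequence
  have hnil : IsNilsequence s (fun n : ℕ => ψ n * conj (D n)) := by
    rw [isNil_iff]
    intro ε hε
    have hDc := hD.cj
    rw [isNil_iff] at hDc
    have hC0 : 0 ≤ Cψ := (norm_nonneg _).trans (hCψ ψ hψW 0)
    obtain ⟨θ, hθ, hθc⟩ := hDc (ε / (Cψ + 1)) (by positivity)
    obtain ⟨W', hW', hθW'⟩ := (basicNil_iff s θ).1 hθ
    obtain ⟨U, hU, hU'⟩ := hW.prod hW' ⟨fun z => z.1 * z.2, by fun_prop⟩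
    refine ⟨fun m => ψ m * θ m, (basicNil_iff s _).2 ⟨U, hU, hU' ψ hψW θ hθW'⟩, fun n => ?_⟩
    rw [← mul_sub, norm_mul]
    calc ‖ψ n‖ * ‖conj (D n) - θ n‖ ≤ Cψ * (ε / (Cψ + 1)) :=
          mul_le_mul (hCψ ψ hψW _) (hθc n) (norm_nonneg _) hC0
      _ = (Cψ / (Cψ + 1)) * ε := by ring
      _ ≤ 1 * ε := by
          apply mul_le_mul_of_nonneg_right _ hε.le
          rw [div_le_one (by positivity)]
          linarith
      _ = ε := one_mul _
  obtain ⟨L', hL'⟩ := ho _ hnil (c * (δ / 2) ^ 2 / 2) (by positivity)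
  set n := max (max L L') 1 with hn
  have h1 := hL' n ((le_max_right _ _).trans (le_max_left _ _)) 0
  have h2 := hψ3 n ((le_max_left _ _).trans (le_max_left _ _)) 0
  have hn1 : (1 : ℝ) ≤ n := by exact_mod_cast le_max_right _ _
  -- pointwise: `ψ m * |D m|² ≥ ψ m * (δ/2)²`
  have hpt : ∀ i : ℕ, ‖ψ i‖ * (δ / 2) ^ 2 ≤ ‖ψ i‖ * ‖D i‖ ^ 2 := by
    intro i
    by_cases h0 : ψ i = 0
    · simp [h0]
    · have h3 := hψ2 i h0
      refine mul_le_mul_of_nonneg_left ?_ (norm_nonneg _)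
      have h4 : δ / 2 ≤ ‖D i‖ := by
        have h5 : ‖D n₀ - D i‖ ≤ δ / 8 + δ / 8 + δ / 8 := by
          calc ‖D n₀ - D i‖ = ‖(D n₀ - φ n₀) - (φ i - φ n₀) - (D i - φ i)‖ := by ring_nf
            _ ≤ ‖(D n₀ - φ n₀) - (φ i - φ n₀)‖ + ‖D i - φ i‖ := norm_sub_le _ _
            _ ≤ ‖D n₀ - φ n₀‖ + ‖φ i - φ n₀‖ + ‖D i - φ i‖ :=
                add_le_add (norm_sub_le _ _) le_rfl
            _ ≤ _ := add_le_add (add_le_add (hc n₀) h3) (hc i)
        have h6 : ‖D n₀‖ ≤ ‖D n₀ - D i‖ + ‖D i‖ := by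
          calc ‖D n₀‖ = ‖(D n₀ - D i) + D i‖ := by ring_nf
            _ ≤ _ := norm_add_le _ _
        rw [← hδdef] at h6
        linarith
      exact pow_le_pow_left₀ (by positivity) h4 2
  have hsum : ∑ i ∈ Finset.range n, (ψ ((0 + i : ℕ) : ℤ) * conj (D (0 + i))) * D (0 + i) =
      ((∑ i ∈ Finset.range n, ‖ψ i‖ * ‖D i‖ ^ 2 : ℝ) : ℂ) := by
    push_cast
    refine Finset.sum_congr rfl fun i _ => ?_
    obtain ⟨t, ht0, ht⟩ := hψ1 i
    simp only [zero_add]
    rw [ht, Complex.norm_real, Real.norm_of_nonneg ht0, mul_assoc]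
    congr 1
    rw [mul_comm, Complex.mul_conj, Complex.normSq_eq_norm_sq]
    push_cast
    ring
  rw [hsum, Complex.norm_real, Real.norm_of_nonneg
    (Finset.sum_nonneg fun i _ => by positivity)] at h1
  have h3 : c * n * (δ / 2) ^ 2 ≤ ∑ i ∈ Finset.range n, ‖ψ i‖ * ‖D i‖ ^ 2 := by
    calc c * n * (δ / 2) ^ 2 ≤ (∑ i ∈ Finset.range n, ‖ψ i‖) * (δ / 2) ^ 2 := by
          refine mul_le_mul_of_nonneg_right ?_ (by positivity)
          simpa using h2
      _ = ∑ i ∈ Finset.range n, ‖ψ i‖ * (δ / 2) ^ 2 := by rw [Finset.sum_mul]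
      _ ≤ _ := Finset.sum_le_sum fun i _ => hpt i
  have h4 : 0 < c * (δ / 2) ^ 2 * n := by positivity
  nlinarith [h1, h3, h4]

theorem sum_Icc_one {β : Type} [AddCommMonoid β] (f : ℕ → β) (M : ℕ) :
    ∑ n ∈ Finset.Icc 1 M, f n = ∑ i ∈ Finset.range M, f (1 + i) := by
  induction M with
  | zero => simp
  | succ M ih => rw [Finset.sum_Icc_succ_top (by omega), ih, Finset.sum_range_succ, add_comm 1 M]

/-- If `a = N + e` is approximated by nilsequences in density, then `e` is a null sequence. -/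
theorem null_of_approx {s : ℕ} {a N e : ℕ → ℂ} (hN : IsNilsequence s N)
    (heb : ∃ C : ℝ, 0 ≤ C ∧ ∀ n, ‖e n‖ ≤ C) (he : OrthNat s e) (ha : ∀ n, a n = N n + e n)
    (h : ∀ ε > 0, ∃ ψ, IsNilsequence s ψ ∧ ∃ M₀ : ℕ, ∀ M ≥ M₀,
      ∑ n ∈ Finset.Icc 1 M, ‖a n - ψ n‖ ≤ ε * M) {ε : ℝ} (hε : 0 < ε) :
    ∃ M₀ : ℕ, ∀ M ≥ M₀, ∑ n ∈ Finset.Icc 1 M, ‖e n‖ ≤ ε * M := by
  obtain ⟨C, hC0, hC⟩ := heb
  obtain ⟨ψ, hψ, M₁, hM₁⟩ := h (ε ^ 2 / (2 * (C + 1))) (by positivity)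
  obtain ⟨M₂, hM₂⟩ := he _ (hψ.sub hN).cj (ε ^ 2 / 2) (by positivity)
  refine ⟨max M₁ M₂, fun M hM => ?_⟩
  have h1 := hM₁ M ((le_max_left _ _).trans hM)
  have h2 := hM₂ M ((le_max_right _ _).trans hM) 1
  rw [← sum_Icc_one (fun n => conj (ψ n - N n) * e n)] at h2
  have h3 : ((∑ n ∈ Finset.Icc 1 M, ‖e n‖ ^ 2 : ℝ) : ℂ) =
      ∑ n ∈ Finset.Icc 1 M, conj (a n - ψ n) * e n +
        ∑ n ∈ Finset.Icc 1 M, conj (ψ n - N n) * e n := by
    rw [← Finset.sum_add_distrib]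
    push_cast
    refine Finset.sum_congr rfl fun n _ => ?_
    rw [← add_mul, ← map_add]
    have h4 : a n - ψ n + (ψ n - N n) = e n := by rw [ha n]; ring
    rw [h4, mul_comm, Complex.mul_conj, Complex.normSq_eq_norm_sq]
    push_cast
    ring
  have h5 : ∑ n ∈ Finset.Icc 1 M, ‖e n‖ ^ 2 ≤ ε ^ 2 * M := by
    calc ∑ n ∈ Finset.Icc 1 M, ‖e n‖ ^ 2
        = ‖((∑ n ∈ Finset.Icc 1 M, ‖e n‖ ^ 2 : ℝ) : ℂ)‖ := by
          rw [Complex.norm_real, Real.norm_of_nonneg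
            (Finset.sum_nonneg fun i _ => by positivity)]
      _ = ‖∑ n ∈ Finset.Icc 1 M, conj (a n - ψ n) * e n +
            ∑ n ∈ Finset.Icc 1 M, conj (ψ n - N n) * e n‖ := by rw [h3]
      _ ≤ ‖∑ n ∈ Finset.Icc 1 M, conj (a n - ψ n) * e n‖ +
            ‖∑ n ∈ Finset.Icc 1 M, conj (ψ n - N n) * e n‖ := norm_add_le _ _
      _ ≤ (∑ n ∈ Finset.Icc 1 M, ‖a n - ψ n‖ * C) + ε ^ 2 / 2 * M := by
          refine add_le_add ((norm_sum_le _ _).trans (Finset.sum_le_sum fun n _ => ?_)) h2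
          rw [norm_mul, RCLike.norm_conj]
          exact mul_le_mul_of_nonneg_left (hC n) (norm_nonneg _)
      _ = (∑ n ∈ Finset.Icc 1 M, ‖a n - ψ n‖) * C + ε ^ 2 / 2 * M := by
          rw [Finset.sum_mul]
      _ ≤ (ε ^ 2 / (2 * (C + 1)) * M) * C + ε ^ 2 / 2 * M := by
          have := mul_le_mul_of_nonneg_right h1 hC0
          linarith
      _ = (C / (C + 1)) * (ε ^ 2 / 2 * M) + ε ^ 2 / 2 * M := by field_simp
      _ ≤ 1 * (ε ^ 2 / 2 * M) + ε ^ 2 / 2 * M := by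
          gcongr
          rw [div_le_one (by positivity)]
          linarith
      _ = ε ^ 2 * M := by ring
  have h6 : (∑ n ∈ Finset.Icc 1 M, ‖e n‖) ^ 2 ≤ (ε * M) ^ 2 := by
    calc (∑ n ∈ Finset.Icc 1 M, ‖e n‖) ^ 2
        ≤ (Finset.Icc 1 M).card * ∑ n ∈ Finset.Icc 1 M, ‖e n‖ ^ 2 := sq_sum_le_card_mul_sum_sq
      _ = M * ∑ n ∈ Finset.Icc 1 M, ‖e n‖ ^ 2 := by rw [Nat.card_Icc]; simp
      _ ≤ M * (ε ^ 2 * M) := mul_le_mul_of_nonneg_left h5 (by positivity)
      _ = (ε * M) ^ 2 := by ring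
  exact (pow_le_pow_iff_left₀ (Finset.sum_nonneg fun _ _ => norm_nonneg _) (by positivity)
    two_ne_zero).1 h6

theorem mp_zpow {X : Type} [MeasurableSpace X] {μ : Measure X} (T : X ≃ᵐ X)
    (hT : MeasurePreserving T μ μ) (m : ℤ) :
    MeasurePreserving (fun x => ((T.toEquiv : Equiv.Perm X) ^ m) x) μ μ := by
  cases m with
  | ofNat n =>
    have h : (fun x => ((T.toEquiv : Equiv.Perm X) ^ (Int.ofNat n)) x) = T^[n] := by
      funext x
      rw [Int.ofNat_eq_natCast, zpow_natCast, ← Equiv.Perm.iterate_eq_pow]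
      rfl
    rw [h]
    exact hT.iterate n
  | negSucc n =>
    have h : (fun x => ((T.toEquiv : Equiv.Perm X) ^ (Int.negSucc n)) x) = T.symm^[n + 1] := by
      funext x
      rw [zpow_negSucc, ← inv_pow, ← Equiv.Perm.iterate_eq_pow]
      rfl
    rw [h]
    exact (hT.symm T).iterate (n + 1)

theorem corr_bdd {X : Type} [MeasurableSpace X] (μ : Measure X)
    [IsProbabilityMeasure μ] {l : ℕ} (T : Fin l → X ≃ᵐ X)
    (hT : ∀ i, MeasurePreserving (T i) μ μ)
    {f₀ : X → ℂ} (hf₀ : MemLp f₀ ∞ μ) {f : Fin l → X → ℂ} (hf : ∀ i, MemLp (f i) ∞ μ) :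
    ∃ C : ℝ, ∀ m : ℤ,
      ‖∫ x, f₀ x * ∏ i, f i ((((T i).toEquiv : Equiv.Perm X) ^ m) x) ∂μ‖ ≤ C := by
  have key : ∀ {g : X → ℂ}, MemLp g ∞ μ → ∃ C : ℝ, 0 ≤ C ∧ ∀ᵐ x ∂μ, ‖g x‖ ≤ C := by
    intro g hg
    refine ⟨(eLpNormEssSup g μ).toReal, ENNReal.toReal_nonneg, ?_⟩
    have h1 : eLpNormEssSup g μ ≠ ⊤ := by
      have := hg.2
      rw [eLpNorm_exponent_top] at this
      exact this.ne
    filter_upwards [ae_le_eLpNormEssSup (f := g) (μ := μ)] with x hx
    rw [← toReal_enorm]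
    exact ENNReal.toReal_mono h1 hx
  obtain ⟨C₀, hC₀0, hC₀⟩ := key hf₀
  choose C hC0 hC using fun i => key (hf i)
  refine ⟨C₀ * ∏ i, C i, fun m => ?_⟩
  have h1 : ∀ᵐ x ∂μ, ‖f₀ x * ∏ i, f i ((((T i).toEquiv : Equiv.Perm X) ^ m) x)‖ ≤
      C₀ * ∏ i, C i := by
    have h2 : ∀ i, ∀ᵐ x ∂μ, ‖f i ((((T i).toEquiv : Equiv.Perm X) ^ m) x)‖ ≤ C i := fun i =>
      (mp_zpow (T i) (hT i) m).quasiMeasurePreserving.ae (hC i)
    rw [← ae_all_iff] at h2
    filter_upwards [hC₀, h2] with x hx1 hx2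
    rw [norm_mul, norm_prod]
    exact mul_le_mul hx1 (Finset.prod_le_prod (fun i _ => norm_nonneg _) fun i _ => hx2 i)
      (Finset.prod_nonneg fun i _ => norm_nonneg _) hC₀0
  have h3 := norm_integral_le_of_norm_le_const h1
  simpa using h3

/-- **Main theorem.** -/
theorem main_decomposition (s l : ℕ) {X : Type} [MeasurableSpace X] (μ : Measure X)
    [IsProbabilityMeasure μ] (T : Fin l → X ≃ᵐ X) (hT : ∀ i, MeasurePreserving (T i) μ μ)
    (hc : ∀ i j x, T i (T j x) = T j (T i x)) (f₀ : X → ℂ) (hf₀ : MemLp f₀ ∞ μ)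
    (f : Fin l → X → ℂ) (hf : ∀ i, MemLp (f i) ∞ μ) (a : ℕ → ℂ)
    (ha : ∀ n, a n = ∫ x, f₀ x * ∏ i, f i ((T i)^[n] x) ∂μ) :
    ∃ N e : ℕ → ℂ, IsNilsequence s N ∧ (∀ n, a n = N n + e n) ∧ OrthNat s e ∧
      (∀ N' e' : ℕ → ℂ, IsNilsequence s N' → (∀ n, a n = N' n + e' n) → OrthNat s e' → N' = N) ∧
      ((∀ ε > 0, ∃ ψ, IsNilsequence s ψ ∧ ∃ M₀ : ℕ, ∀ M ≥ M₀,
          ∑ n ∈ Finset.Icc 1 M, ‖a n - ψ n‖ ≤ ε * M) ↔
        Filter.Tendsto (fun M : ℕ => (∑ n ∈ Finset.Icc 1 M, ‖e n‖) / M) Filter.atTop (𝓝 0)) := by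
  obtain ⟨N, hN, he⟩ := corr_meas (nilseq_seqAlg s) (nil_weightSys s) μ T hT hc hf₀ hf
  have hN' : IsNilsequence s (fun n : ℕ => N n) := isNil_of_nilseq hN
  have hiter : ∀ (n : ℕ) (i : Fin l) (x : X),
      (((T i).toEquiv : Equiv.Perm X) ^ (n : ℤ)) x = (T i)^[n] x := by
    intro n i x
    rw [zpow_natCast, ← Equiv.Perm.iterate_eq_pow]
    rfl
  have hab : ∃ C : ℝ, ∀ m : ℤ, ‖∫ x, f₀ x * ∏ i, f i ((((T i).toEquiv : Equiv.Perm X) ^ m) x) ∂μ‖
      ≤ C := corr_bdd μ T hT hf₀ hf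
  set b : ℤ → ℂ := fun m => ∫ x, f₀ x * ∏ i, f i ((((T i).toEquiv : Equiv.Perm X) ^ m) x) ∂μ
    with hb
  have hba : ∀ n : ℕ, b n = a n := by
    intro n
    rw [ha, hb]
    simp only [hiter]
  have heb : Bdd (fun m => b m - N m) := Bdd.sub hab ((nilseq_seqAlg s).bdd N hN)
  set e : ℕ → ℂ := fun n => b n - N n with hedef
  have heN : OrthNat s e := by
    intro ψ hψ ε hε
    exact orth_nat heb he hψ hε
  have hae : ∀ n, a n = N n + e n := fun n => by simp only [hedef, hba]; ring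
  refine ⟨fun n => N n, e, hN', hae, heN, ?_, ?_⟩
  · intro N' e' hN'' hae' he'
    funext n₀
    have h1 : (fun n : ℕ => N' n - N n) = fun n => e n - e' n := by
      funext n
      have h2 := hae n
      have h3 := hae' n
      rw [h2] at h3
      linear_combination (-1 : ℂ) * h3
    have h2 : OrthNat s (fun n : ℕ => N' n - N n) := by
      rw [h1]
      intro ψ hψ ε hε
      obtain ⟨L, hL⟩ := heN ψ hψ (ε / 2) (by positivity)
      obtain ⟨L', hL'⟩ := he' ψ hψ (ε / 2) (by positivity)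
      refine ⟨max L L', fun n hn M => ?_⟩
      simp only [mul_sub, Finset.sum_sub_distrib]
      calc _ ≤ _ := norm_sub_le _ _
        _ ≤ ε / 2 * n + ε / 2 * n := add_le_add (hL n ((le_max_left _ _).trans hn) M)
            (hL' n ((le_max_right _ _).trans hn) M)
        _ = ε * n := by ring
    have h3 := (hN''.sub hN').eq_zero h2 n₀
    simpa [sub_eq_zero] using h3
  · constructor
    · intro h
      obtain ⟨C, hC0, hC⟩ := heb.nonneg
      rw [Metric.tendsto_atTop]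
      intro ε hε
      obtain ⟨M₀, hM₀⟩ := null_of_approx hN' ⟨C, hC0, fun n => hC n⟩ heN hae h
        (ε := ε / 2) (by positivity)
      refine ⟨max M₀ 1, fun M hM => ?_⟩
      have h1 := hM₀ M ((le_max_left _ _).trans hM)
      have h2 : (0 : ℝ) < M := by
        exact_mod_cast lt_of_lt_of_le Nat.one_pos ((le_max_right _ _).trans hM)
      rw [Real.dist_eq, sub_zero, abs_of_nonneg
        (div_nonneg (Finset.sum_nonneg fun _ _ => norm_nonneg _) h2.le), div_lt_iff₀ h2]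
      nlinarith
    · intro h ε hε
      refine ⟨fun n => N n, hN', ?_⟩
      rw [Metric.tendsto_atTop] at h
      obtain ⟨M₀, hM₀⟩ := h ε hε
      refine ⟨max M₀ 1, fun M hM => ?_⟩
      have h1 := hM₀ M ((le_max_left _ _).trans hM)
      have h2 : (0 : ℝ) < M := by
        exact_mod_cast lt_of_lt_of_le Nat.one_pos ((le_max_right _ _).trans hM)
      rw [Real.dist_eq, sub_zero, abs_of_nonneg
        (div_nonneg (Finset.sum_nonneg fun _ _ => norm_nonneg _) h2.le), div_lt_iff₀ h2] at h1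
      calc ∑ n ∈ Finset.Icc 1 M, ‖a n - N n‖ = ∑ n ∈ Finset.Icc 1 M, ‖e n‖ := by
            refine Finset.sum_congr rfl fun n _ => ?_
            rw [hae]
            congr 1
            ring
        _ ≤ ε * M := h1.le

end Pool.Agent.Nil820

end

/-! ### Part `TrDefs` -/

section

/-!
# Part 0 (transfer): definitions

* `KSp = ℤ → closed unit disc` is the compact phase space, `shK` the shift, `orb e n` the shift of
  `e` by `n`, `crd x = x 0`.
* `dF T h f = (f ∘ T^h) * conj f`.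
* `hkq μ T s f`: for ergodic `T` this is the Host-Kra seminorm `|||f|||_{s+1} ^ (2^(s+1))`, as an
  iterated `limsup` of averages.
* `StrThm s`: the structure theorem for `s` (Parts I and II).
* `InvMean.q`: the quantities of van der Corput's inequality for an invariant mean.
* `InvMean.Extreme`: extreme points of the set of invariant means.
* `InvMean.Rep`: `ν` is the measure on `KSp` which represents the mean along the orbit of `e`.
-/

open scoped ComplexConjugate Topology ENNReal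
open MeasureTheory Filter

namespace Pool.Agent.Nil820

/-! ### Systems -/

/-- multiplicative derivative of a function along an iterate -/
def dF {X : Type} (T : X → X) (h : ℕ) (f : X → ℂ) : X → ℂ := fun x => f (T^[h] x) * conj (f x)

/-- For ergodic `T` this is the Host-Kra seminorm `|||f|||_{s+1} ^ (2^(s+1))`. -/
noncomputable def hkq {X : Type} [MeasurableSpace X] (μ : Measure X) (T : X → X) :
    ℕ → (X → ℂ) → ℝ
  | 0, f => ‖∫ x, f x ∂μ‖ ^ 2
  | s + 1, f => limsup (fun H : ℕ => (∑ h ∈ Finset.range H, hkq μ T s (dF T h f)) / H) atTop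

/-- **The structure theorem** for `s`: for an ergodic system `(X, μ, T)` and a function `f` with positive
seminorm of order `s + 1` there are an ergodic extension `(Q, ν, S)`, `p : Q → X`, and a factor map
`π : Q → G ⧸ Γ` onto an `s`-step nilsystem such that `f ∘ p` correlates with a function on the
nilsystem. -/
def StrThm (s : ℕ) : Prop :=
  ∀ (X : Type) [MeasurableSpace X] [StandardBorelSpace X] (μ : Measure X) [IsProbabilityMeasure μ]
    (T : X ≃ᵐ X), Ergodic T μ → ∀ f : X → ℂ, Measurable f → (∀ x, ‖f x‖ ≤ 1) →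
    0 < hkq μ T s f →
    ∃ (Q : Type) (_ : MeasurableSpace Q) (ν : Measure Q) (_ : IsProbabilityMeasure ν)
      (S : Q ≃ᵐ Q) (p : Q → X), Ergodic S ν ∧ MeasurePreserving p ν μ ∧
      (∀ᵐ q ∂ν, p (S q) = T (p q)) ∧
    ∃ (V : Type) (_ : NormedAddCommGroup V) (_ : NormedSpace ℝ V) (_ : FiniteDimensional ℝ V)
      (G : Type) (_ : Group G) (_ : TopologicalSpace G) (_ : T2Space G)
      (_ : SecondCountableTopology G) (_ : ChartedSpace V G)
      (_ : LieGroup (modelWithCornersSelf ℝ V) (⊤ : ℕ∞) G)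
      (Γ : Subgroup G) (g : G) (π : Q → G ⧸ Γ) (F : C(G ⧸ Γ, ℂ)),
      (⊤ : Subgroup G).lowerCentralSeries s = ⊥ ∧ DiscreteTopology Γ ∧ CompactSpace (G ⧸ Γ) ∧
      (∀ F' : C(G ⧸ Γ, ℂ), Measurable fun q => F' (π q)) ∧ (∀ᵐ q ∂ν, π (S q) = g • π q) ∧
      ∫ q, f (p q) * F (π q) ∂ν ≠ 0

/-! ### The shift space -/

/-- the closed unit disc -/
abbrev Disc : Type := Metric.closedBall (0 : ℂ) 1

/-- two-sided sequences with values in the closed unit disc -/
abbrev KSp : Type := ℤ → Disc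

/-- the shift -/
noncomputable def shH : KSp ≃ₜ KSp where
  toFun x := fun n => x (n + 1)
  invFun x := fun n => x (n - 1)
  left_inv x := by
    funext n
    simp
  right_inv x := by
    funext n
    simp
  continuous_toFun := continuous_pi fun n => continuous_apply (n + 1)
  continuous_invFun := continuous_pi fun n => continuous_apply (n - 1)

/-- the shift as a measurable equivalence -/
noncomputable def shK : KSp ≃ᵐ KSp := shH.toMeasurableEquiv

/-- the shift of `e` by `n` -/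
def orb (e : KSp) (n : ℤ) : KSp := fun m => e (n + m)

/-- the coordinate at `0` -/
def crd (x : KSp) : ℂ := (x 0 : ℂ)

theorem shK_apply (x : KSp) (n : ℤ) : shK x n = x (n + 1) := rfl

theorem continuous_shK : Continuous (shK : KSp → KSp) := shH.continuous

theorem orb_apply (e : KSp) (n m : ℤ) : orb e n m = e (n + m) := rfl

theorem shK_orb (e : KSp) (n : ℤ) : shK (orb e n) = orb e (n + 1) := by
  funext m
  rw [shK_apply, orb_apply, orb_apply]
  congr 1
  ring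

theorem iterate_shK (h : ℕ) (x : KSp) (n : ℤ) : (shK^[h] x) n = x (n + h) := by
  induction h generalizing x with
  | zero => simp
  | succ h ih =>
    rw [Function.iterate_succ_apply, ih, shK_apply]
    congr 1
    push_cast
    ring

theorem iterate_shK_orb (e : KSp) (h : ℕ) (n : ℤ) : shK^[h] (orb e n) = orb e (n + h) := by
  funext m
  rw [iterate_shK, orb_apply, orb_apply]
  congr 1
  ring

theorem continuous_crd : Continuous crd := continuous_subtype_val.comp (continuous_apply 0)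

theorem norm_crd_le (x : KSp) : ‖crd x‖ ≤ 1 := by
  have := (x 0).2
  rwa [mem_closedBall_zero_iff] at this

theorem crd_orb (e : KSp) (n : ℤ) : crd (orb e n) = (e n : ℂ) := by
  rw [crd, orb_apply, add_zero]

/-! ### Invariant means -/

/-- the quantities of van der Corput's inequality -/
noncomputable def InvMean.q (𝔪 : InvMean) : ℕ → (ℤ → ℂ) → ℝ
  | 0, e => ‖𝔪.toFun e‖
  | s + 1, e => ⨅ H : ℕ, (∑ h ∈ Finset.range (H + 1), ∑ k ∈ Finset.range (H + 1),
      𝔪.q s (fun n : ℤ => e (n + h) * conj (e (n + k)))) / ((H : ℝ) + 1) ^ 2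

/-- `𝔪` is an extreme point of the set of invariant means -/
def InvMean.Extreme (𝔪 : InvMean) : Prop :=
  ∀ (𝔪₁ 𝔪₂ : InvMean) (t : ℝ), 0 < t → t < 1 →
    (∀ f, Bdd f → 𝔪.toFun f = t * 𝔪₁.toFun f + (1 - t) * 𝔪₂.toFun f) →
    ∀ f, Bdd f → 𝔪₁.toFun f = 𝔪.toFun f

/-- `ν` represents the mean `𝔪` along the orbit of `e` -/
structure InvMean.Rep (𝔪 : InvMean) (e : KSp) (ν : Measure KSp) : Prop where
  prob : IsProbabilityMeasure ν
  pres : MeasurePreserving shK ν ν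
  int : ∀ F : C(KSp, ℂ), ∫ x, F x ∂ν = 𝔪.toFun fun n => F (orb e n)


end Pool.Agent.Nil820

end

/-! ### Part `TrKM` -/

section

/-! # Piece TR-KM: extreme invariant means (Krein-Milman) -/

open scoped ComplexConjugate Topology ENNReal
open MeasureTheory Filter

namespace Pool.Agent.Nil820

/-- The set of invariant means, as functions on all sequences which vanish on unbounded ones. -/
def meanSet : Set ((ℤ → ℂ) → ℂ) :=
  {m | ∃ 𝔪 : InvMean, (∀ f, Bdd f → m f = 𝔪.toFun f) ∧ ∀ f, ¬ Bdd f → m f = 0}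

/-- the extension by zero of an invariant mean -/
theorem trkm_mem_of (𝔪 : InvMean) (m : (ℤ → ℂ) → ℂ) (h1 : ∀ f, Bdd f → m f = 𝔪.toFun f)
    (h2 : ∀ f, ¬ Bdd f → m f = 0) : m ∈ meanSet := ⟨𝔪, h1, h2⟩

theorem trkm_bdd_add {f g : ℤ → ℂ} (hf : Bdd f) (hg : Bdd g) : Bdd fun m => f m + g m := by
  obtain ⟨C, hC⟩ := hf
  obtain ⟨D, hD⟩ := hg
  exact ⟨C + D, fun m => (norm_add_le _ _).trans (add_le_add (hC m) (hD m))⟩

theorem trkm_bdd_smul (c : ℂ) {f : ℤ → ℂ} (hf : Bdd f) : Bdd fun m => c * f m := by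
  obtain ⟨C, hC⟩ := hf
  refine ⟨‖c‖ * C, fun m => ?_⟩
  rw [norm_mul]
  exact mul_le_mul_of_nonneg_left (hC m) (norm_nonneg c)

theorem trkm_bdd_conj {f : ℤ → ℂ} (hf : Bdd f) : Bdd fun m => conj (f m) := by
  obtain ⟨C, hC⟩ := hf
  refine ⟨C, fun m => ?_⟩
  rw [RCLike.norm_conj]
  exact hC m

theorem trkm_bdd_const (c : ℂ) : Bdd fun _ => c := ⟨‖c‖, fun _ => le_rfl⟩

theorem trkm_bdd_shift {f : ℤ → ℂ} (hf : Bdd f) (r : ℤ) : Bdd fun m => f (m + r) := by
  obtain ⟨C, hC⟩ := hf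
  exact ⟨C, fun m => hC _⟩

/-- the closed conditions -/
structure trkm_Cond (m : (ℤ → ℂ) → ℂ) : Prop where
  zero : ∀ f, ¬ Bdd f → m f = 0
  add : ∀ f g, Bdd f → Bdd g → m (fun x => f x + g x) = m f + m g
  smul : ∀ (c : ℂ) f, Bdd f → m (fun x => c * f x) = c * m f
  const : ∀ c : ℂ, m (fun _ => c) = c
  cj : ∀ f, Bdd f → m (fun x => conj (f x)) = conj (m f)
  bound : ∀ f (C : ℝ), (∀ x, ‖f x‖ ≤ C) → ‖m f‖ ≤ C
  shift : ∀ f (r : ℤ), Bdd f → m (fun x => f (x + r)) = m f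

theorem trkm_mem_iff (m : (ℤ → ℂ) → ℂ) : m ∈ meanSet ↔ trkm_Cond m := by
  constructor
  · rintro ⟨𝔪, h1, h2⟩
    refine ⟨h2, fun f g hf hg => ?_, fun c f hf => ?_, fun c => ?_, fun f hf => ?_,
      fun f C hC => ?_, fun f r hf => ?_⟩
    · rw [h1 _ (trkm_bdd_add hf hg), h1 f hf, h1 g hg, 𝔪.add f g hf hg]
    · rw [h1 _ (trkm_bdd_smul c hf), h1 f hf, 𝔪.smul c f hf]
    · rw [h1 _ (trkm_bdd_const c), 𝔪.const c]
    · rw [h1 _ (trkm_bdd_conj hf), h1 f hf, 𝔪.cj f hf]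
    · rw [h1 f ⟨C, hC⟩]
      exact 𝔪.bound f C hC
    · rw [h1 _ (trkm_bdd_shift hf r), h1 f hf, 𝔪.shift f r hf]
  · intro h
    exact ⟨⟨m, h.add, h.smul, h.const, h.cj, h.bound, h.shift⟩, fun f _ => rfl, h.zero⟩

theorem trkm_isClosed : IsClosed {m : (ℤ → ℂ) → ℂ | trkm_Cond m} := by
  have ev : ∀ f : ℤ → ℂ, Continuous fun m : (ℤ → ℂ) → ℂ => m f := fun f => continuous_apply f
  have c1 : IsClosed {m : (ℤ → ℂ) → ℂ | ∀ f, ¬ Bdd f → m f = 0} := by
    have : {m : (ℤ → ℂ) → ℂ | ∀ f, ¬ Bdd f → m f = 0} =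
        ⋂ (f : ℤ → ℂ) (_ : ¬ Bdd f), {m | m f = 0} := by
      ext m; simp
    rw [this]
    exact isClosed_iInter fun f => isClosed_iInter fun _ => isClosed_eq (ev f) continuous_const
  have c2 : IsClosed {m : (ℤ → ℂ) → ℂ | ∀ f g, Bdd f → Bdd g →
      m (fun x => f x + g x) = m f + m g} := by
    have : {m : (ℤ → ℂ) → ℂ | ∀ f g, Bdd f → Bdd g → m (fun x => f x + g x) = m f + m g} =
        ⋂ (f : ℤ → ℂ) (g : ℤ → ℂ) (_ : Bdd f) (_ : Bdd g),
          {m | m (fun x => f x + g x) = m f + m g} := by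
      ext m; simp
    rw [this]
    exact isClosed_iInter fun f => isClosed_iInter fun g => isClosed_iInter fun _ =>
      isClosed_iInter fun _ => isClosed_eq (ev _) ((ev f).add (ev g))
  have c3 : IsClosed {m : (ℤ → ℂ) → ℂ | ∀ (c : ℂ) f, Bdd f → m (fun x => c * f x) = c * m f} := by
    have : {m : (ℤ → ℂ) → ℂ | ∀ (c : ℂ) f, Bdd f → m (fun x => c * f x) = c * m f} =
        ⋂ (c : ℂ) (f : ℤ → ℂ) (_ : Bdd f), {m | m (fun x => c * f x) = c * m f} := by
      ext m; simp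
    rw [this]
    exact isClosed_iInter fun c => isClosed_iInter fun f => isClosed_iInter fun _ =>
      isClosed_eq (ev _) (continuous_const.mul (ev f))
  have c4 : IsClosed {m : (ℤ → ℂ) → ℂ | ∀ c : ℂ, m (fun _ => c) = c} := by
    have : {m : (ℤ → ℂ) → ℂ | ∀ c : ℂ, m (fun _ => c) = c} =
        ⋂ (c : ℂ), {m | m (fun _ => c) = c} := by
      ext m; simp
    rw [this]
    exact isClosed_iInter fun c => isClosed_eq (ev _) continuous_const
  have c5 : IsClosed {m : (ℤ → ℂ) → ℂ | ∀ f, Bdd f → m (fun x => conj (f x)) = conj (m f)} := by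
    have : {m : (ℤ → ℂ) → ℂ | ∀ f, Bdd f → m (fun x => conj (f x)) = conj (m f)} =
        ⋂ (f : ℤ → ℂ) (_ : Bdd f), {m | m (fun x => conj (f x)) = conj (m f)} := by
      ext m; simp
    rw [this]
    exact isClosed_iInter fun f => isClosed_iInter fun _ =>
      isClosed_eq (ev _) (Complex.continuous_conj.comp (ev f))
  have c6 : IsClosed {m : (ℤ → ℂ) → ℂ | ∀ f (C : ℝ), (∀ x, ‖f x‖ ≤ C) → ‖m f‖ ≤ C} := by
    have : {m : (ℤ → ℂ) → ℂ | ∀ f (C : ℝ), (∀ x, ‖f x‖ ≤ C) → ‖m f‖ ≤ C} =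
        ⋂ (f : ℤ → ℂ) (C : ℝ) (_ : ∀ x, ‖f x‖ ≤ C), {m | ‖m f‖ ≤ C} := by
      ext m; simp
    rw [this]
    exact isClosed_iInter fun f => isClosed_iInter fun C => isClosed_iInter fun _ =>
      isClosed_le (ev f).norm continuous_const
  have c7 : IsClosed {m : (ℤ → ℂ) → ℂ | ∀ f (r : ℤ), Bdd f → m (fun x => f (x + r)) = m f} := by
    have : {m : (ℤ → ℂ) → ℂ | ∀ f (r : ℤ), Bdd f → m (fun x => f (x + r)) = m f} =
        ⋂ (f : ℤ → ℂ) (r : ℤ) (_ : Bdd f), {m | m (fun x => f (x + r)) = m f} := by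
      ext m; simp
    rw [this]
    exact isClosed_iInter fun f => isClosed_iInter fun r => isClosed_iInter fun _ =>
      isClosed_eq (ev _) (ev f)
  have hset : {m : (ℤ → ℂ) → ℂ | trkm_Cond m} =
      {m : (ℤ → ℂ) → ℂ | ∀ f, ¬ Bdd f → m f = 0} ∩
      ({m : (ℤ → ℂ) → ℂ | ∀ f g, Bdd f → Bdd g → m (fun x => f x + g x) = m f + m g} ∩
      ({m : (ℤ → ℂ) → ℂ | ∀ (c : ℂ) f, Bdd f → m (fun x => c * f x) = c * m f} ∩
      ({m : (ℤ → ℂ) → ℂ | ∀ c : ℂ, m (fun _ => c) = c} ∩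
      ({m : (ℤ → ℂ) → ℂ | ∀ f, Bdd f → m (fun x => conj (f x)) = conj (m f)} ∩
      ({m : (ℤ → ℂ) → ℂ | ∀ f (C : ℝ), (∀ x, ‖f x‖ ≤ C) → ‖m f‖ ≤ C} ∩
      {m : (ℤ → ℂ) → ℂ | ∀ f (r : ℤ), Bdd f → m (fun x => f (x + r)) = m f}))))) := by
    ext m
    constructor
    · intro h
      exact ⟨h.zero, h.add, h.smul, h.const, h.cj, h.bound, h.shift⟩
    · rintro ⟨h1, h2, h3, h4, h5, h6, h7⟩
      exact ⟨h1, h2, h3, h4, h5, h6, h7⟩
  rw [hset]
  exact c1.inter (c2.inter (c3.inter (c4.inter (c5.inter (c6.inter c7)))))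

/-- **KM1.** Proof. `meanSet` is the set of all `m : (ℤ → ℂ) → ℂ` such that `m f = 0` for unbounded
`f` and the (closed) conditions `add, smul, const, cj, bound, shift` of `InvMean` hold (given such an
`m` it is itself the `toFun` of an `InvMean`, because the conditions of `InvMean` only concern bounded
`f`; for `bound` note that its hypothesis implies `Bdd f`). All conditions are closed in the product
topology (each involves finitely many evaluations: `isClosed_eq`, `isClosed_le`), and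
`meanSet ⊆ Set.pi univ (fun f => closedBall 0 (C f))` with `C f` any bound of `‖f‖` for bounded `f`
and `C f = 0` otherwise; the product of the balls is compact (`isCompact_univ_pi`,
`isCompact_closedBall`). -/
theorem isCompact_meanSet : IsCompact meanSet := by
  classical
  let C : (ℤ → ℂ) → ℝ := fun f => if h : Bdd f then h.choose else 0
  have hK : IsCompact (Set.pi Set.univ fun f : ℤ → ℂ => Metric.closedBall (0 : ℂ) (C f)) :=
    isCompact_univ_pi fun f => isCompact_closedBall 0 (C f)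
  have hset : meanSet = {m : (ℤ → ℂ) → ℂ | trkm_Cond m} := by
    ext m
    exact trkm_mem_iff m
  rw [hset]
  refine hK.of_isClosed_subset trkm_isClosed ?_
  intro m hm f _
  rw [mem_closedBall_zero_iff]
  have hm' : trkm_Cond m := hm
  by_cases hf : Bdd f
  · have : C f = hf.choose := dif_pos hf
    rw [this]
    exact hm'.bound f _ hf.choose_spec
  · have : C f = 0 := dif_neg hf
    rw [this, hm'.zero f hf, norm_zero]

/-- **KM2.** Proof. Let `ev m = (m g).re` (continuous). `meanSet` is compact and nonempty (it contains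
`𝔪`), so `ev` attains its maximum `M > 0` on it; `Fc = {m ∈ meanSet | ev m = M}` is compact and nonempty.
`(ℤ → ℂ) → ℂ` is a Hausdorff locally convex real topological vector space (product), so `Fc` has an
extreme point `m` (`IsCompact.extremePoints_nonempty`). Let `𝔪'` be the corresponding invariant
mean (as in KM1, with `𝔪'.toFun = m`). It is extreme: if `𝔪'.toFun f = t 𝔪₁ f + (1 - t) 𝔪₂ f` for all bounded
`f`, let `m₁, m₂ ∈ meanSet` be the functions which agree with `𝔪₁, 𝔪₂` on bounded sequences and vanish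
on the others; then `m = t m₁ + (1 - t) m₂`, and `ev m = M` is the maximum, so `ev m₁ = ev m₂ = M`,
`m₁, m₂ ∈ Fc`, hence `m₁ = m` (definition of `Set.extremePoints`, `openSegment`). -/
theorem exists_extreme {g : ℤ → ℂ} (hg : Bdd g) (𝔪 : InvMean) (h : 0 < (𝔪.toFun g).re) :
    ∃ 𝔪' : InvMean, 𝔪'.Extreme ∧ 0 < (𝔪'.toFun g).re := by
  classical
  -- extension by zero
  let ex : InvMean → (ℤ → ℂ) → ℂ := fun 𝔫 f => if Bdd f then 𝔫.toFun f else 0
  have hex1 : ∀ (𝔫 : InvMean) f, Bdd f → ex 𝔫 f = 𝔫.toFun f := fun 𝔫 f hf => if_pos hf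
  have hex2 : ∀ (𝔫 : InvMean) f, ¬ Bdd f → ex 𝔫 f = 0 := fun 𝔫 f hf => if_neg hf
  have hexm : ∀ 𝔫 : InvMean, ex 𝔫 ∈ meanSet := fun 𝔫 => ⟨𝔫, hex1 𝔫, hex2 𝔫⟩
  have hcont : Continuous fun m : (ℤ → ℂ) → ℂ => (m g).re :=
    Complex.continuous_re.comp (continuous_apply g)
  obtain ⟨m₀, hm₀, hmax⟩ := isCompact_meanSet.exists_isMaxOn ⟨ex 𝔪, hexm 𝔪⟩ hcont.continuousOn
  have hM : 0 < (m₀ g).re := by
    have h1 : ((ex 𝔪) g).re ≤ (m₀ g).re := hmax (hexm 𝔪)
    rw [hex1 𝔪 g hg] at h1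
    exact h.trans_le h1
  have hFc : IsCompact (meanSet ∩ (fun m : (ℤ → ℂ) → ℂ => (m g).re) ⁻¹' {(m₀ g).re}) :=
    isCompact_meanSet.inter_right (isClosed_singleton.preimage hcont)
  obtain ⟨m, hm⟩ := hFc.extremePoints_nonempty ⟨m₀, hm₀, rfl⟩
  have hmF := hm.1
  obtain ⟨𝔪', h1, h2⟩ := hmF.1
  have hmg : (m g).re = (m₀ g).re := hmF.2
  refine ⟨𝔪', ?_, ?_⟩
  · intro 𝔪₁ 𝔪₂ t ht0 ht1 ht f hf
    have e : m = t • ex 𝔪₁ + (1 - t) • ex 𝔪₂ := by
      funext f
      rw [Pi.add_apply, Pi.smul_apply, Pi.smul_apply, Complex.real_smul, Complex.real_smul]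
      by_cases hf : Bdd f
      · rw [h1 f hf, hex1 𝔪₁ f hf, hex1 𝔪₂ f hf, ht f hf]
        push_cast
        ring
      · rw [h2 f hf, hex2 𝔪₁ f hf, hex2 𝔪₂ f hf]
        simp
    have l1 : ((ex 𝔪₁) g).re ≤ (m₀ g).re := hmax (hexm 𝔪₁)
    have l2 : ((ex 𝔪₂) g).re ≤ (m₀ g).re := hmax (hexm 𝔪₂)
    have l3 : (m g).re = t * ((ex 𝔪₁) g).re + (1 - t) * ((ex 𝔪₂) g).re := by
      rw [e, Pi.add_apply, Pi.smul_apply, Pi.smul_apply, Complex.real_smul, Complex.real_smul,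
        Complex.add_re, Complex.re_ofReal_mul, Complex.re_ofReal_mul]
    rw [hmg] at l3
    have l4 : ((ex 𝔪₁) g).re = (m₀ g).re := by
      refine le_antisymm l1 ?_
      by_contra hlt
      rw [not_le] at hlt
      have a1 : t * ((ex 𝔪₁) g).re < t * (m₀ g).re := mul_lt_mul_of_pos_left hlt ht0
      have a2 : (1 - t) * ((ex 𝔪₂) g).re ≤ (1 - t) * (m₀ g).re :=
        mul_le_mul_of_nonneg_left l2 (by linarith)
      linarith
    have l5 : ((ex 𝔪₂) g).re = (m₀ g).re := by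
      refine le_antisymm l2 ?_
      by_contra hlt
      rw [not_le] at hlt
      have a1 : (1 - t) * ((ex 𝔪₂) g).re < (1 - t) * (m₀ g).re :=
        mul_lt_mul_of_pos_left hlt (by linarith)
      have a2 : t * ((ex 𝔪₁) g).re ≤ t * (m₀ g).re :=
        mul_le_mul_of_nonneg_left l1 ht0.le
      linarith
    have hseg : m ∈ openSegment ℝ (ex 𝔪₁) (ex 𝔪₂) :=
      ⟨t, 1 - t, ht0, by linarith, by ring, e.symm⟩
    have hres : ex 𝔪₁ = m := hm.2 ⟨hexm 𝔪₁, l4⟩ ⟨hexm 𝔪₂, l5⟩ hseg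
    rw [← hex1 𝔪₁ f hf, hres, h1 f hf]
  · rw [← h1 g hg, hmg]
    exact hM

end Pool.Agent.Nil820

end

/-! ### Part `TrRiesz` -/

section

/-! # Piece TR-RIESZ: the measure on the shift space which represents an invariant mean -/

open scoped ComplexConjugate Topology ENNReal
open MeasureTheory Filter

namespace Pool.Agent.Nil820

private theorem trRiesz_bdd (e : KSp) (F : C(KSp, ℂ)) : Bdd fun n => F (orb e n) :=
  ⟨‖F‖, fun n => F.norm_coe_le_norm (orb e n)⟩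

private theorem trRiesz_bddR (e : KSp) (F : C(KSp, ℝ)) : Bdd fun n => ((F (orb e n) : ℝ) : ℂ) :=
  ⟨‖F‖, fun n => by
    rw [Complex.norm_real]
    exact F.norm_coe_le_norm (orb e n)⟩

/-- **RIESZ1.** Proof. `Λ F = (𝔪.toFun fun n => (F (orb e n) : ℂ)).re`, `F : C(KSp, ℝ)`, is a positive linear
functional (continuous functions on the compact space `KSp` are bounded, so all sequences are
`Bdd`; `InvMean.add, smul, re_nonneg`; the value is real by `InvMean.cj`). The Riesz-Markov-Kakutani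
theorem (Mathlib, `RealRMK.rieszMeasure`, `RealRMK.integral_rieszMeasure`, for `C_c(KSp, ℝ)`; `KSp` is
compact, so every continuous function has compact support) gives a regular measure `ν` with
`∫ F dν = Λ F`; `F = 1` shows that `ν` is a probability measure. -/
theorem exists_riesz_real (𝔪 : InvMean) (e : KSp) : ∃ ν : Measure KSp, IsProbabilityMeasure ν ∧
    ∀ F : C(KSp, ℝ), ∫ x, F x ∂ν = (𝔪.toFun fun n => ((F (orb e n) : ℝ) : ℂ)).re := by
  let Φ : C(KSp, ℝ) →ₗ[ℝ] ℝ :=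
    { toFun := fun F => (𝔪.toFun fun n => ((F (orb e n) : ℝ) : ℂ)).re
      map_add' := fun F G => by
        have h1 : (fun n : ℤ => (((F + G) (orb e n) : ℝ) : ℂ)) =
            fun n => ((F (orb e n) : ℝ) : ℂ) + ((G (orb e n) : ℝ) : ℂ) := by
          funext n
          rw [ContinuousMap.add_apply, Complex.ofReal_add]
        rw [h1, 𝔪.add _ _ (trRiesz_bddR e F) (trRiesz_bddR e G), Complex.add_re]
      map_smul' := fun c F => by
        have h1 : (fun n : ℤ => (((c • F) (orb e n) : ℝ) : ℂ)) =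
            fun n => (c : ℂ) * ((F (orb e n) : ℝ) : ℂ) := by
          funext n
          rw [ContinuousMap.smul_apply, smul_eq_mul, Complex.ofReal_mul]
        rw [h1, 𝔪.smul _ _ (trRiesz_bddR e F), Complex.re_ofReal_mul]
        rfl }
  have hpos : ∀ F : C(KSp, ℝ), (∀ q, 0 ≤ F q) → 0 ≤ Φ F := fun F hF =>
    𝔪.re_nonneg (trRiesz_bddR e F) fun n => by
      rw [Complex.ofReal_re]
      exact hF _
  have h1 : Φ 1 = 1 := by
    change (𝔪.toFun fun n => (((1 : C(KSp, ℝ)) (orb e n) : ℝ) : ℂ)).re = 1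
    have h2 : (fun n : ℤ => (((1 : C(KSp, ℝ)) (orb e n) : ℝ) : ℂ)) = fun _ => (1 : ℂ) := by
      funext n
      simp
    rw [h2, 𝔪.const, Complex.one_re]
  obtain ⟨ν, hν, h⟩ := exists_measure_of_functional Φ hpos h1
  exact ⟨ν, hν, h⟩

/-- **RIESZ2.** Proof. Real and imaginary parts in RIESZ1 (`integral_re_add_im`, linearity of `𝔪` on
bounded sequences). Invariance: `ν.map shK` and `ν` are finite measures on a compact metrizable space
with the same integrals of continuous functions: `∫ F ∘ shK dν = 𝔪 (n ↦ F (orb e (n + 1))) = 𝔪 (n ↦ F (orb e n))`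
(`shK_orb`, `InvMean.shift`), so they are equal (`ext_of_forall_integral_eq_of_IsFiniteMeasure`, which
takes bounded continuous functions). -/
theorem exists_rep (𝔪 : InvMean) (e : KSp) : ∃ ν : Measure KSp, 𝔪.Rep e ν := by
  obtain ⟨ν, hν, h⟩ := exists_riesz_real 𝔪 e
  have := hν
  have him : ∀ F : C(KSp, ℝ), (𝔪.toFun fun n => ((F (orb e n) : ℝ) : ℂ)).im = 0 := by
    intro F
    have h1 := 𝔪.cj _ (trRiesz_bddR e F)
    simp only [Complex.conj_ofReal] at h1
    exact Complex.conj_eq_iff_im.1 h1.symm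
  have hC : ∀ F : C(KSp, ℝ), ((∫ x, F x ∂ν : ℝ) : ℂ) =
      𝔪.toFun fun n => ((F (orb e n) : ℝ) : ℂ) := by
    intro F
    rw [h F]
    apply Complex.ext
    · rw [Complex.ofReal_re]
    · rw [Complex.ofReal_im, him F]
  refine ⟨ν, hν, ?_, ?_⟩
  · refine ⟨shK.measurable, ?_⟩
    apply ext_of_forall_integral_eq_of_IsFiniteMeasure
    intro f
    rw [integral_map shK.measurable.aemeasurable f.continuous.aestronglyMeasurable]
    have e1 := h ⟨fun x => f (shK x), f.continuous.comp continuous_shK⟩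
    have e2 := h ⟨fun x => f x, f.continuous⟩
    simp only [ContinuousMap.coe_mk] at e1 e2
    rw [e1, e2]
    simp only [shK_orb]
    have e3 := 𝔪.shift (fun n => ((f (orb e n) : ℝ) : ℂ)) 1
      (trRiesz_bddR e ⟨fun x => f x, f.continuous⟩)
    rw [e3]
  · intro F
    have hint : Integrable (fun x => F x) ν := by
      refine Integrable.of_bound F.continuous.aestronglyMeasurable ‖F‖ ?_
      exact Eventually.of_forall fun x => F.norm_coe_le_norm x
    rw [← integral_re_add_im hint]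
    have hre := hC ⟨fun x => (F x).re, Complex.continuous_re.comp F.continuous⟩
    have him' := hC ⟨fun x => (F x).im, Complex.continuous_im.comp F.continuous⟩
    simp only [ContinuousMap.coe_mk] at hre him'
    have h1 : ((∫ x, RCLike.re (F x) ∂ν : ℝ) : ℂ) = 𝔪.toFun fun n => (((F (orb e n)).re : ℝ) : ℂ) := hre
    have h2 : ((∫ x, RCLike.im (F x) ∂ν : ℝ) : ℂ) = 𝔪.toFun fun n => (((F (orb e n)).im : ℝ) : ℂ) := him'
    have b1 : Bdd fun n => (((F (orb e n)).re : ℝ) : ℂ) :=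
      trRiesz_bddR e ⟨fun x => (F x).re, Complex.continuous_re.comp F.continuous⟩
    have b2 : Bdd fun n => (((F (orb e n)).im : ℝ) : ℂ) :=
      trRiesz_bddR e ⟨fun x => (F x).im, Complex.continuous_im.comp F.continuous⟩
    have h3 : (fun n => F (orb e n)) = fun n : ℤ => (((F (orb e n)).re : ℝ) : ℂ) +
        Complex.I * (((F (orb e n)).im : ℝ) : ℂ) := by
      funext n
      rw [mul_comm]
      exact (Complex.re_add_im _).symm
    rw [h3, 𝔪.add _ _ b1 (b2.cmul _), 𝔪.smul _ _ b2, ← h1, ← h2, mul_comm]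
    rfl

end Pool.Agent.Nil820

end

/-! ### Part `TrLink` -/

section

/-! # Piece TR-LINK: `InvMean.q` and the seminorms of the representing system -/

open scoped ComplexConjugate Topology ENNReal
open MeasureTheory Filter

namespace Pool.Agent.Nil820

/-- **LINK1.** Elementary properties of `InvMean.q`: it is nonnegative, bounded by `1` for sequences bounded by `1`,
invariant under shifts and conjugation. Proof: induction on `s` (`InvMean.shift`, `InvMean.cj`, `ciInf_le`, the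
sequences `n ↦ e (n + h) conj (e (n + k))` are bounded; conjugation exchanges `h` and `k` up to `mul_comm`). -/
theorem InvMean.q_props (𝔪 : InvMean) (s : ℕ) {e : ℤ → ℂ} (he : ∀ n, ‖e n‖ ≤ 1) :
    0 ≤ 𝔪.q s e ∧ 𝔪.q s e ≤ 1 ∧ (∀ r : ℤ, 𝔪.q s (fun n => e (n + r)) = 𝔪.q s e) ∧
      𝔪.q s (fun n => conj (e n)) = 𝔪.q s e := by
  induction s generalizing e with
  | zero =>
    have hb : Bdd e := ⟨1, he⟩
    have h0 : ∀ f : ℤ → ℂ, 𝔪.q 0 f = ‖𝔪.toFun f‖ := fun _ => rfl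
    refine ⟨?_, ?_, ?_, ?_⟩
    · rw [h0]
      exact norm_nonneg _
    · rw [h0]
      exact 𝔪.bound e 1 he
    · intro r
      rw [h0, h0, 𝔪.shift e r hb]
    · rw [h0, h0, 𝔪.cj e hb, RCLike.norm_conj]
  | succ s ih =>
    have h0 : ∀ f : ℤ → ℂ, 𝔪.q (s + 1) f = ⨅ H : ℕ, (∑ h ∈ Finset.range (H + 1),
      ∑ k ∈ Finset.range (H + 1), 𝔪.q s (fun n : ℤ => f (n + h) * conj (f (n + k)))) /
        ((H : ℝ) + 1) ^ 2 := fun _ => rfl
    have hb : ∀ h k : ℕ, ∀ n : ℤ, ‖e (n + h) * conj (e (n + k))‖ ≤ 1 := fun h k n => by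
      rw [norm_mul, RCLike.norm_conj]
      exact mul_le_one₀ (he _) (norm_nonneg _) (he _)
    have hnn : ∀ H : ℕ, 0 ≤ (∑ h ∈ Finset.range (H + 1),
      ∑ k ∈ Finset.range (H + 1), 𝔪.q s (fun n : ℤ => e (n + h) * conj (e (n + k)))) /
        ((H : ℝ) + 1) ^ 2 := fun H =>
      div_nonneg (Finset.sum_nonneg fun h _ => Finset.sum_nonneg fun k _ => (ih (hb h k)).1)
        (by positivity)
    refine ⟨?_, ?_, ?_, ?_⟩
    · rw [h0]
      exact Real.iInf_nonneg hnn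
    · rw [h0]
      refine (ciInf_le ⟨0, by rintro _ ⟨H, rfl⟩; exact hnn H⟩ 0).trans ?_
      simp only [zero_add, Finset.range_one, Finset.sum_singleton, Nat.cast_zero, one_pow, div_one]
      have := (ih (hb 0 0)).2.1
      simpa using this
    · intro r
      rw [h0, h0]
      congr 1
      funext H
      congr 1
      refine Finset.sum_congr rfl fun h _ => Finset.sum_congr rfl fun k _ => ?_
      rw [← (ih (hb h k)).2.2.1 r]
      congr 1
      funext n
      have e1 : n + (h : ℤ) + r = n + r + h := by ring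
      have e2 : n + (k : ℤ) + r = n + r + k := by ring
      simp only [e1, e2]
    · rw [h0, h0]
      congr 1
      funext H
      congr 1
      refine Finset.sum_congr rfl fun h _ => Finset.sum_congr rfl fun k _ => ?_
      rw [← (ih (hb h k)).2.2.2]
      congr 1
      funext n
      simp only [map_mul]

/-- **LINK2.** Proof. Let `φ h = 𝔪.q s (n ↦ e (n + h) conj (e n))` for integers `h`. By LINK1 (shift by `- k`)
the `(h, k)` term is `φ (h - k)`, and `φ (-h) = φ h` (shift by `h` and conjugate). Hence for every `H`, `N = H + 1`,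
`𝔪.q (s + 1) e ≤ (1 / N²) ∑ h k, φ (h - k) ≤ (2 / N) ∑_{0 ≤ j < N} φ j` (every `j ≥ 0` is the value of `|h - k|` for at
most `2 N` pairs). -/
theorem InvMean.q_succ_le (𝔪 : InvMean) (s : ℕ) {e : ℤ → ℂ} (he : ∀ n, ‖e n‖ ≤ 1) (H : ℕ) :
    𝔪.q (s + 1) e ≤ 2 * ((∑ h ∈ Finset.range (H + 1),
      𝔪.q s (fun n : ℤ => e (n + h) * conj (e n))) / ((H : ℝ) + 1)) := by
  have hb : ∀ h k : ℕ, ∀ n : ℤ, ‖e (n + h) * conj (e (n + k))‖ ≤ 1 := fun h k n => by
    rw [norm_mul, RCLike.norm_conj]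
    exact mul_le_one₀ (he _) (norm_nonneg _) (he _)
  have hb0 : ∀ h : ℕ, ∀ n : ℤ, ‖e (n + h) * conj (e n)‖ ≤ 1 := fun h n => by
    rw [norm_mul, RCLike.norm_conj]
    exact mul_le_one₀ (he _) (norm_nonneg _) (he _)
  set φ : ℕ → ℝ := fun h => 𝔪.q s (fun n : ℤ => e (n + h) * conj (e n)) with hφ
  have hφ0 : ∀ h, 0 ≤ φ h := fun h => (𝔪.q_props s (hb0 h)).1
  have hge : ∀ h k : ℕ, k ≤ h → 𝔪.q s (fun n : ℤ => e (n + h) * conj (e (n + k))) = φ (h - k) := by
    intro h k hk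
    rw [← (𝔪.q_props s (hb h k)).2.2.1 (-(k : ℤ))]
    simp only [hφ]
    congr 1
    funext n
    have e1 : n + -(k : ℤ) + h = n + ((h - k : ℕ) : ℤ) := by
      push_cast [hk]
      ring
    have e2 : n + -(k : ℤ) + k = n := by ring
    simp only [e1, e2]
  have hlt : ∀ h k : ℕ, h < k → 𝔪.q s (fun n : ℤ => e (n + h) * conj (e (n + k))) = φ (k - h) := by
    intro h k hk
    rw [← hge k h hk.le, ← (𝔪.q_props s (hb h k)).2.2.2]
    congr 1
    funext n
    simp only [map_mul, Complex.conj_conj]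
    rw [mul_comm]
  set sφ : ℝ := ∑ j ∈ Finset.range (H + 1), φ j with hsφ
  have hA : ∀ h ∈ Finset.range (H + 1),
      ∑ k ∈ (Finset.range (H + 1)).filter (fun k => k ≤ h), φ (h - k) ≤ sφ := by
    intro h hh
    rw [Finset.mem_range] at hh
    have h1 : ∑ k ∈ (Finset.range (H + 1)).filter (fun k => k ≤ h), φ (h - k) =
        ∑ j ∈ ((Finset.range (H + 1)).filter (fun k => k ≤ h)).image (fun k => h - k), φ j := by
      rw [Finset.sum_image]
      intro a ha b hb' hab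
      rw [Finset.mem_coe, Finset.mem_filter] at ha hb'
      simp only at hab
      omega
    rw [h1]
    refine Finset.sum_le_sum_of_subset_of_nonneg ?_ fun _ _ _ => hφ0 _
    intro j hj
    obtain ⟨k, _, rfl⟩ := Finset.mem_image.1 hj
    rw [Finset.mem_range]
    omega
  have hB : ∀ h ∈ Finset.range (H + 1),
      ∑ k ∈ (Finset.range (H + 1)).filter (fun k => ¬ k ≤ h), φ (k - h) ≤ sφ := by
    intro h hh
    have h1 : ∑ k ∈ (Finset.range (H + 1)).filter (fun k => ¬ k ≤ h), φ (k - h) =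
        ∑ j ∈ ((Finset.range (H + 1)).filter (fun k => ¬ k ≤ h)).image (fun k => k - h), φ j := by
      rw [Finset.sum_image]
      intro a ha b hb' hab
      rw [Finset.mem_coe, Finset.mem_filter] at ha hb'
      simp only at hab
      omega
    rw [h1]
    refine Finset.sum_le_sum_of_subset_of_nonneg ?_ fun _ _ _ => hφ0 _
    intro j hj
    obtain ⟨k, hk, rfl⟩ := Finset.mem_image.1 hj
    rw [Finset.mem_filter, Finset.mem_range] at hk
    rw [Finset.mem_range]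
    omega
  have hsum : ∑ h ∈ Finset.range (H + 1), ∑ k ∈ Finset.range (H + 1),
      𝔪.q s (fun n : ℤ => e (n + h) * conj (e (n + k))) ≤ ((H : ℝ) + 1) * (2 * sφ) := by
    have h1 : ∀ h ∈ Finset.range (H + 1), ∑ k ∈ Finset.range (H + 1),
        𝔪.q s (fun n : ℤ => e (n + h) * conj (e (n + k))) ≤ 2 * sφ := by
      intro h hh
      rw [← Finset.sum_filter_add_sum_filter_not (Finset.range (H + 1)) (fun k => k ≤ h)]
      have h2 : ∑ k ∈ (Finset.range (H + 1)).filter (fun k => k ≤ h),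
          𝔪.q s (fun n : ℤ => e (n + h) * conj (e (n + k))) =
          ∑ k ∈ (Finset.range (H + 1)).filter (fun k => k ≤ h), φ (h - k) :=
        Finset.sum_congr rfl fun k hk => hge h k (Finset.mem_filter.1 hk).2
      have h3 : ∑ k ∈ (Finset.range (H + 1)).filter (fun k => ¬ k ≤ h),
          𝔪.q s (fun n : ℤ => e (n + h) * conj (e (n + k))) =
          ∑ k ∈ (Finset.range (H + 1)).filter (fun k => ¬ k ≤ h), φ (k - h) :=
        Finset.sum_congr rfl fun k hk => hlt h k (not_le.1 (Finset.mem_filter.1 hk).2)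
      rw [h2, h3]
      linarith [hA h hh, hB h hh]
    refine (Finset.sum_le_sum h1).trans (le_of_eq ?_)
    rw [Finset.sum_const, Finset.card_range, nsmul_eq_mul]
    push_cast
    ring
  have h0 : 𝔪.q (s + 1) e = ⨅ H : ℕ, (∑ h ∈ Finset.range (H + 1),
      ∑ k ∈ Finset.range (H + 1), 𝔪.q s (fun n : ℤ => e (n + h) * conj (e (n + k)))) /
        ((H : ℝ) + 1) ^ 2 := rfl
  have hnn : ∀ H : ℕ, 0 ≤ (∑ h ∈ Finset.range (H + 1),
      ∑ k ∈ Finset.range (H + 1), 𝔪.q s (fun n : ℤ => e (n + h) * conj (e (n + k)))) /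
        ((H : ℝ) + 1) ^ 2 := fun H =>
      div_nonneg (Finset.sum_nonneg fun h _ => Finset.sum_nonneg fun k _ => (𝔪.q_props s (hb h k)).1)
        (by positivity)
  rw [h0]
  refine (ciInf_le ⟨0, by rintro _ ⟨H, rfl⟩; exact hnn H⟩ H).trans ?_
  have hN : (0 : ℝ) < (H : ℝ) + 1 := by positivity
  rw [div_le_iff₀ (by positivity)]
  refine hsum.trans (le_of_eq ?_)
  field_simp

theorem link_hkq_bound {X : Type} [MeasurableSpace X] (μ : Measure X) [IsProbabilityMeasure μ]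
    (T : X → X) (s : ℕ) : ∀ f : X → ℂ, (∀ x, ‖f x‖ ≤ 1) → 0 ≤ hkq μ T s f ∧ hkq μ T s f ≤ 1 := by
  induction s with
  | zero =>
    intro f hf
    have h0 : hkq μ T 0 f = ‖∫ x, f x ∂μ‖ ^ 2 := rfl
    rw [h0]
    refine ⟨by positivity, ?_⟩
    have h1 : ‖∫ x, f x ∂μ‖ ≤ 1 * μ.real Set.univ :=
      norm_integral_le_of_norm_le_const (Eventually.of_forall hf)
    rw [probReal_univ, mul_one] at h1
    exact pow_le_one₀ (norm_nonneg _) h1
  | succ s ih =>
    intro f hf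
    have hd : ∀ h x, ‖dF T h f x‖ ≤ 1 := fun h x => by
      simp only [dF, norm_mul, RCLike.norm_conj]
      exact mul_le_one₀ (hf _) (norm_nonneg _) (hf _)
    have h0 : hkq μ T (s + 1) f =
        limsup (fun H : ℕ => (∑ h ∈ Finset.range H, hkq μ T s (dF T h f)) / H) atTop := rfl
    have h1 : ∀ H : ℕ, 0 ≤ (∑ h ∈ Finset.range H, hkq μ T s (dF T h f)) / H := fun H =>
      div_nonneg (Finset.sum_nonneg fun h _ => (ih _ (hd h)).1) (Nat.cast_nonneg _)
    have h2 : ∀ H : ℕ, (∑ h ∈ Finset.range H, hkq μ T s (dF T h f)) / H ≤ 1 := fun H => by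
      refine div_le_one_of_le₀ ?_ (Nat.cast_nonneg _)
      calc ∑ h ∈ Finset.range H, hkq μ T s (dF T h f) ≤ ∑ _h ∈ Finset.range H, (1 : ℝ) :=
            Finset.sum_le_sum fun h _ => (ih _ (hd h)).2
        _ = H := by simp
    have hbu : IsBoundedUnder (· ≤ ·) atTop
        (fun H : ℕ => (∑ h ∈ Finset.range H, hkq μ T s (dF T h f)) / H) :=
      isBoundedUnder_of ⟨1, h2⟩
    have hbl : IsBoundedUnder (· ≥ ·) atTop
        (fun H : ℕ => (∑ h ∈ Finset.range H, hkq μ T s (dF T h f)) / H) :=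
      isBoundedUnder_of ⟨0, h1⟩
    rw [h0]
    exact ⟨le_limsup_of_frequently_le (Frequently.of_forall h1) hbu,
      limsup_le_of_le hbl.isCoboundedUnder_le (Eventually.of_forall h2)⟩

/-- **LINK3.** Proof. Induction on `s` for all continuous `F` with `‖F‖ ≤ 1`. `s = 0`: `𝔪.q 0 = ‖𝔪 (F (orb e n))‖ = ‖∫ F dν‖`
(`Rep.int`) and `hkq 0 = ‖∫ F‖²`. Step: `n ↦ F (orb e (n + h)) conj (F (orb e n))` is `n ↦ (dF shK h F) (orb e n)`
(`iterate_shK_orb`), `dF shK h F` is continuous and bounded by `1`. By LINK2, the induction hypothesis and the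
Cauchy-Schwarz inequality (`(1/N) ∑ √a_h ≤ √((1/N) ∑ a_h)`), for every `H`, `N = H + 1`,
`𝔪.q (s + 1) ≤ 2 * 2 ^ s * √((1 / N) ∑_{h < N} hkq ν shK s (dF shK h F))`. Hence
`(𝔪.q (s + 1) / 2 ^ (s + 1))² ≤ (1 / N) ∑_{h < N} ...` for all `N ≥ 1`, and so it is at most the `limsup`
(`le_limsup_of_frequently_le`, the averages are bounded: `0 ≤ hkq ≤ 1` for functions bounded by one). -/
theorem q_le_hkq {𝔪 : InvMean} {e : KSp} {ν : Measure KSp} (h : 𝔪.Rep e ν) (s : ℕ) (F : C(KSp, ℂ))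
    (hF : ∀ x, ‖F x‖ ≤ 1) :
    𝔪.q s (fun n => F (orb e n)) ≤ 2 ^ s * Real.sqrt (hkq ν shK s F) := by
  have := h.prob
  induction s generalizing F with
  | zero =>
    have h0 : hkq ν shK 0 F = ‖∫ x, F x ∂ν‖ ^ 2 := rfl
    have h1 : 𝔪.q 0 (fun n => F (orb e n)) = ‖𝔪.toFun (fun n => F (orb e n))‖ := rfl
    rw [h0, h1, ← h.int F, pow_zero, one_mul, Real.sqrt_sq (norm_nonneg _)]
  | succ s ih =>
    have hd : ∀ j x, ‖dF shK j F x‖ ≤ 1 := fun j x => by
      simp only [dF, norm_mul, RCLike.norm_conj]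
      exact mul_le_one₀ (hF _) (norm_nonneg _) (hF _)
    set a : ℕ → ℝ := fun j => hkq ν shK s (dF shK j F) with ha
    have ha0 : ∀ j, 0 ≤ a j := fun j => (link_hkq_bound ν shK s _ (hd j)).1
    have ha1 : ∀ j, a j ≤ 1 := fun j => (link_hkq_bound ν shK s _ (hd j)).2
    set Q : ℝ := 𝔪.q (s + 1) (fun n => F (orb e n)) with hQ
    have hQ0 : 0 ≤ Q := (𝔪.q_props (s + 1) (e := fun n => F (orb e n)) fun n => hF _).1
    have hq : ∀ j : ℕ, 𝔪.q s (fun n : ℤ => F (orb e (n + j)) * conj (F (orb e n))) ≤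
        2 ^ s * Real.sqrt (a j) := by
      intro j
      let G : C(KSp, ℂ) := ⟨fun x => dF shK j F x,
        (F.continuous.comp (continuous_shK.iterate j)).mul (Complex.continuous_conj.comp F.continuous)⟩
      have h1 := ih G (hd j)
      have h2 : (fun n => G (orb e n)) = fun n : ℤ => F (orb e (n + j)) * conj (F (orb e n)) := by
        funext n
        change F (shK^[j] (orb e n)) * conj (F (orb e n)) = _
        rw [iterate_shK_orb]
      rw [h2] at h1
      exact h1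
    have hmain : ∀ N : ℕ, 1 ≤ N → (Q / 2 ^ (s + 1)) ^ 2 ≤ (∑ j ∈ Finset.range N, a j) / N := by
      intro N hN
      obtain ⟨H, rfl⟩ : ∃ H, N = H + 1 := ⟨N - 1, by omega⟩
      have hN0 : (0 : ℝ) < (H : ℝ) + 1 := by positivity
      have h1 := 𝔪.q_succ_le s (e := fun n => F (orb e n)) (fun n => hF _) H
      have h2 : ∑ j ∈ Finset.range (H + 1), 𝔪.q s (fun n : ℤ => F (orb e (n + j)) * conj (F (orb e n))) ≤
          2 ^ s * ∑ j ∈ Finset.range (H + 1), Real.sqrt (a j) := by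
        rw [Finset.mul_sum]
        exact Finset.sum_le_sum fun j _ => hq j
      have h3 : Q ≤ 2 ^ (s + 1) * ((∑ j ∈ Finset.range (H + 1), Real.sqrt (a j)) / ((H : ℝ) + 1)) := by
        refine h1.trans ?_
        calc 2 * ((∑ j ∈ Finset.range (H + 1), 𝔪.q s (fun n : ℤ => F (orb e (n + j)) * conj (F (orb e n)))) /
              ((H : ℝ) + 1)) ≤ 2 * ((2 ^ s * ∑ j ∈ Finset.range (H + 1), Real.sqrt (a j)) / ((H : ℝ) + 1)) := by
              gcongr
          _ = _ := by ring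
      have h4 : Q / 2 ^ (s + 1) ≤ (∑ j ∈ Finset.range (H + 1), Real.sqrt (a j)) / ((H : ℝ) + 1) := by
        rw [div_le_iff₀ (by positivity)]
        linarith
      have h5 : (Q / 2 ^ (s + 1)) ^ 2 ≤
          ((∑ j ∈ Finset.range (H + 1), Real.sqrt (a j)) / ((H : ℝ) + 1)) ^ 2 :=
        pow_le_pow_left₀ (by positivity) h4 2
      refine h5.trans ?_
      have h7 : (∑ j ∈ Finset.range (H + 1), Real.sqrt (a j)) ^ 2 ≤
          ((Finset.range (H + 1)).card : ℝ) * ∑ j ∈ Finset.range (H + 1), (Real.sqrt (a j)) ^ 2 :=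
        sq_sum_le_card_mul_sum_sq
      rw [Finset.card_range] at h7
      simp only [Real.sq_sqrt (ha0 _)] at h7
      push_cast at h7 ⊢
      rw [div_pow, div_le_div_iff₀ (by positivity) hN0]
      calc (∑ j ∈ Finset.range (H + 1), Real.sqrt (a j)) ^ 2 * ((H : ℝ) + 1) ≤
            (((H : ℝ) + 1) * ∑ j ∈ Finset.range (H + 1), a j) * ((H : ℝ) + 1) :=
            mul_le_mul_of_nonneg_right h7 hN0.le
        _ = (∑ j ∈ Finset.range (H + 1), a j) * ((H : ℝ) + 1) ^ 2 := by ring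
    have h0 : hkq ν shK (s + 1) F =
        limsup (fun H : ℕ => (∑ j ∈ Finset.range H, a j) / H) atTop := rfl
    have hbu : IsBoundedUnder (· ≤ ·) atTop (fun H : ℕ => (∑ j ∈ Finset.range H, a j) / H) := by
      refine isBoundedUnder_of ⟨1, fun H => ?_⟩
      refine div_le_one_of_le₀ ?_ (Nat.cast_nonneg _)
      calc ∑ h ∈ Finset.range H, a h ≤ ∑ _h ∈ Finset.range H, (1 : ℝ) :=
            Finset.sum_le_sum fun h _ => ha1 h
        _ = H := by simp
    have h8 : (Q / 2 ^ (s + 1)) ^ 2 ≤ hkq ν shK (s + 1) F := by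
      rw [h0]
      refine le_limsup_of_frequently_le ?_ hbu
      refine Eventually.frequently ?_
      filter_upwards [eventually_ge_atTop 1] with N hN
      exact hmain N hN
    have h9 : Q / 2 ^ (s + 1) ≤ Real.sqrt (hkq ν shK (s + 1) F) := by
      rw [← Real.sqrt_sq (by positivity : 0 ≤ Q / 2 ^ (s + 1))]
      exact Real.sqrt_le_sqrt h8
    rw [div_le_iff₀ (by positivity)] at h9
    linarith

end Pool.Agent.Nil820

end

/-! ### Part `HKQ` -/

section

/-!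
# Bridge: the seminorms `hkq` of Part 0 are the seminorms `gn` of Part I
-/

open scoped ComplexConjugate Topology ENNReal
open MeasureTheory Filter

namespace Pool.Agent.Nil820

open Pool.Agent.HK820

theorem hkq_gn_conj {X : Type} [MeasurableSpace X] [StandardBorelSpace X] (μ : Measure X)
    (T : X ≃ᵐ X) (k : ℕ) (f : X → ℂ) :
    gn μ T k (fun a => conj (f a)) = conj (gn μ T k f) := by
  unfold gn
  rw [← integral_conj]
  refine integral_congr_ae (Eventually.of_forall fun x => ?_)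
  exact dd_conj k f x

theorem hkq_gn_dF {X : Type} [MeasurableSpace X] [StandardBorelSpace X] (μ : Measure X)
    (T : X ≃ᵐ X) (k h : ℕ) (f : X → ℂ) :
    (gn μ T k (dF T h f)).re = (gn μ T k (fun x => f x * conj (f (T^[h] x)))).re := by
  have h1 : dF T h f = fun a => conj ((fun x => f x * conj (f (T^[h] x))) a) := by
    funext x
    simp only [dF, map_mul, Complex.conj_conj]
    rw [mul_comm]
  rw [h1, hkq_gn_conj, Complex.conj_re]

theorem hkq_bm_dF {X : Type} [MeasurableSpace X] (T : X ≃ᵐ X) (h : ℕ) {f : X → ℂ} (hf : BM f) :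
    BM (dF T h f) :=
  BMs.mul (BMs.comp hf (T.measurable.iterate h)) (BMs.conj hf)

/-- **HKQ.** For an ergodic system the seminorms of Part 0 are those of Part I. -/
theorem hkq_eq_gn {X : Type} [MeasurableSpace X] [StandardBorelSpace X] (μ : Measure X)
    [IsProbabilityMeasure μ] (T : X ≃ᵐ X) (hT : Ergodic T μ) (s : ℕ) {f : X → ℂ} (hf : BM f) :
    hkq μ T s f = (gn μ T (s + 1) f).re := by
  induction s generalizing f with
  | zero =>
    rw [gn_one μ T hT hf, Complex.ofReal_re]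
    rfl
  | succ s ih =>
    have h1 : hkq μ T (s + 1) f =
        limsup (fun H : ℕ => (∑ h ∈ Finset.range H, hkq μ T s (dF T h f)) / H) atTop := rfl
    rw [h1]
    refine Tendsto.limsup_eq ?_
    have h2 := gn_succ_lim μ T hT.toMeasurePreserving (s + 1) hf
    have h3 := (Complex.continuous_re.tendsto _).comp h2
    refine h3.congr fun N => ?_
    simp only [Function.comp]
    have h4 : ((N : ℂ)⁻¹ * ∑ n ∈ Finset.range N, gn μ T (s + 1)
        (fun x => f x * conj (f (T^[n] x)))).re =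
        (N : ℝ)⁻¹ * ∑ n ∈ Finset.range N, (gn μ T (s + 1)
        (fun x => f x * conj (f (T^[n] x)))).re := by
      rw [← Complex.ofReal_natCast, ← Complex.ofReal_inv, Complex.re_ofReal_mul, Complex.re_sum]
    rw [h4, div_eq_inv_mul]
    congr 1
    refine Finset.sum_congr rfl fun n _ => ?_
    rw [ih (hkq_bm_dF T n hf), hkq_gn_dF]

end Pool.Agent.Nil820

end
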