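import Pool.Agent.Lib_HK.TrLink
import Pool.Agent.Lib_MP_68f671_pr.Birkhoff

/-! # Piece TR-BIRK: Birkhoff's theorem for bounded complex functions; supports -/

open scoped ComplexConjugate Topology ENNReal
open MeasureTheory Filter

namespace Pool.Agent.Nil820

/-- **BIRK.** Proof: `Pool.Agent.RWPP.birkhoff` for the real and imaginary parts. -/
theorem birkhoff_complex {X : Type} [MeasurableSpace X] {μ : Measure X} [IsProbabilityMeasure μ]
    {T : X → X} (hT : Ergodic T μ) {φ : X → ℂ} (hφ : Measurable φ) {C : ℝ} (hC : ∀ x, ‖φ x‖ ≤ C) :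
    ∀ᵐ x ∂μ, Tendsto (fun N : ℕ => (∑ n ∈ Finset.range N, φ (T^[n] x)) / N) atTop
      (𝓝 (∫ x, φ x ∂μ)) := by
  have hint : Integrable φ μ := Integrable.of_bound hφ.aestronglyMeasurable C (Eventually.of_forall hC)
  have h1 := Pool.Agent.RWPP.birkhoff hT hint.re
  have h2 := Pool.Agent.RWPP.birkhoff hT hint.im
  filter_upwards [h1, h2] with x hx1 hx2
  have h3 : ∫ x, φ x ∂μ = ((∫ x, RCLike.re (φ x) ∂μ : ℝ) : ℂ) +
      ((∫ x, RCLike.im (φ x) ∂μ : ℝ) : ℂ) * Complex.I := (integral_re_add_im hint).symm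
  rw [h3]
  have h4 : Tendsto (fun N : ℕ => ((birkhoffSum T (fun x => RCLike.re (φ x)) N x / N : ℝ) : ℂ) +
      ((birkhoffSum T (fun x => RCLike.im (φ x)) N x / N : ℝ) : ℂ) * Complex.I) atTop
      (𝓝 (((∫ x, RCLike.re (φ x) ∂μ : ℝ) : ℂ) + ((∫ x, RCLike.im (φ x) ∂μ : ℝ) : ℂ) * Complex.I)) :=
    ((Complex.continuous_ofReal.tendsto _).comp hx1).add
      (((Complex.continuous_ofReal.tendsto _).comp hx2).mul_const _)
  refine h4.congr fun N => ?_
  have h5 : ∑ n ∈ Finset.range N, φ (T^[n] x) =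
      ((∑ n ∈ Finset.range N, RCLike.re (φ (T^[n] x)) : ℝ) : ℂ) +
      ((∑ n ∈ Finset.range N, RCLike.im (φ (T^[n] x)) : ℝ) : ℂ) * Complex.I := by
    rw [Complex.ofReal_sum, Complex.ofReal_sum, Finset.sum_mul, ← Finset.sum_add_distrib]
    refine Finset.sum_congr rfl fun n _ => ?_
    exact (Complex.re_add_im _).symm
  rw [h5]
  simp only [birkhoffSum]
  push_cast
  rw [add_div]
  ring

/-- **SUPP.** Proof. `Z = closure (range (orb e))` is closed; `KSp` is metrizable
(`TopologicalSpace.metrizableSpaceMetric`), `F x = infDist x Z` is continuous and vanishes exactly on `Z`. By `Rep.int`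
`∫ F dν = 𝔪 (n ↦ F (orb e n)) = 𝔪 0 = 0`, so `F = 0` a.e. -/
theorem ae_mem_closure {𝔪 : InvMean} {e : KSp} {ν : Measure KSp} (h : 𝔪.Rep e ν) :
    ∀ᵐ x ∂ν, x ∈ closure (Set.range (orb e)) := by
  have := h.prob
  let _ : MetricSpace KSp := TopologicalSpace.metrizableSpaceMetric KSp
  let F : C(KSp, ℂ) := ⟨fun x => ((Metric.infDist x (Set.range (orb e)) : ℝ) : ℂ),
    Complex.continuous_ofReal.comp (Metric.continuous_infDist_pt _)⟩
  have h1 := h.int F
  have h2 : (fun n => F (orb e n)) = fun _ : ℤ => (0 : ℂ) := by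
    funext n
    have h3 : Metric.infDist (orb e n) (Set.range (orb e)) = 0 :=
      Metric.infDist_zero_of_mem (Set.mem_range_self n)
    change ((Metric.infDist (orb e n) (Set.range (orb e)) : ℝ) : ℂ) = 0
    rw [h3]
    rfl
  rw [h2, 𝔪.const] at h1
  have h4 : ∫ x, Metric.infDist x (Set.range (orb e)) ∂ν = 0 := by
    have h5 : ∫ x, ((Metric.infDist x (Set.range (orb e)) : ℝ) : ℂ) ∂ν = 0 := h1
    rw [integral_complex_ofReal] at h5
    exact_mod_cast h5
  have hc : Continuous fun x : KSp => Metric.infDist x (Set.range (orb e)) :=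
    Metric.continuous_infDist_pt _
  have hint : Integrable (fun x : KSp => Metric.infDist x (Set.range (orb e))) ν := by
    obtain ⟨C, hC⟩ := isCompact_univ.exists_bound_of_continuousOn hc.continuousOn
    exact Integrable.of_bound hc.measurable.aestronglyMeasurable C
      (Eventually.of_forall fun x => hC x (Set.mem_univ _))
  rw [integral_eq_zero_iff_of_nonneg (fun _ => Metric.infDist_nonneg) hint] at h4
  filter_upwards [h4] with x hx
  rw [Metric.mem_closure_iff_infDist_zero (Set.range_nonempty _)]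
  exact hx

end Pool.Agent.Nil820
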