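import Pool.Agent.Lib_HK.TrLink

/-! ### Part `TrEllis` -/

section

/-! # Piece TR-ELLIS: limits along ultrafilters are onto on nilmanifolds -/

open scoped ComplexConjugate Topology ENNReal Manifold
open MeasureTheory Filter

namespace Pool.Agent.Nil820

/-- limits along ultrafilters in compact sets -/
theorem ellis_lim {G : Type} [TopologicalSpace G] {K : Set G} (hK : IsCompact K) {α : Type}
    (p : Ultrafilter α) {k : α → G} (hk : ∀ a, k a ∈ K) : ∃ k₀ ∈ K, Tendsto k p (𝓝 k₀) := by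
  have h1 : ((p.map k : Ultrafilter G) : Filter G) ≤ 𝓟 K := by
    rw [Filter.le_principal_iff]
    show k ⁻¹' K ∈ p
    have h2 : k ⁻¹' K = Set.univ := Set.eq_univ_of_forall hk
    rw [h2]
    exact Filter.univ_mem
  obtain ⟨k₀, hk₀, h2⟩ := hK.ultrafilter_le_nhds (p.map k) h1
  exact ⟨k₀, hk₀, h2⟩

/-- **ELLIS1.** Proof. Induction on `j ≥ 1`: there are `y₀`, `x : α → G`, `γ : α → G` with `γ a ∈ Γ`, `u a * y₀ = x a * γ a` and
`Tendsto x p (𝓝 (y * c))` for some `c ∈ fil j`. `j = 1` (`fil 1 = ⊤`): take `y₀ = 1` and `u a = x a * γ a` with `x a` in the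
compact set `K` of `cocpt 1`; the ultrafilter `p.map x` converges to some `x₀ ∈ K`
(`IsCompact.ultrafilter_le_nhds`), `c = y⁻¹ * x₀`.
Step: let `c ∈ fil j`. Then `u a * (y₀ * c⁻¹) = x a * γ a * c⁻¹ = x a * c⁻¹ * κ a * γ a` with
`κ a = c * γ a * c⁻¹ * (γ a)⁻¹ ∈ fil (j + 1)` (`comm`). By `cocpt (j + 1)`, `κ a = k a * γ' a` with `k a ∈ K`, `K ⊆ fil (j + 1)`
compact, `γ' a ∈ Γ`; `k → k₀ ∈ K` along `p`. So `u a * (y₀ c⁻¹) = (x a * c⁻¹ * k a) * (γ' a * γ a)` and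
`x a * c⁻¹ * k a → y * c * c⁻¹ * k₀ = y * k₀`, `k₀ ∈ fil (j + 1)`. For `j = s + 1` the element `c` is `1`. -/
theorem ellis {G : Type} [Group G] [TopologicalSpace G] [IsTopologicalGroup G]
    {fil : ℕ → Subgroup G} {Γ : Subgroup G} (h : NilData fil Γ) {s : ℕ} (hs : fil (s + 1) = ⊥)
    {α : Type} (p : Ultrafilter α) (u : α → G) (y : G) :
    ∃ (y₀ : G) (x γ : α → G), (∀ a, γ a ∈ Γ) ∧ (∀ a, u a * y₀ = x a * γ a) ∧
      Tendsto x p (𝓝 y) := by
  have key : ∀ j : ℕ, ∃ (y₀ : G) (x γ : α → G), (∀ a, γ a ∈ Γ) ∧ (∀ a, u a * y₀ = x a * γ a) ∧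
      ∃ c ∈ fil (j + 1), Tendsto x p (𝓝 (y * c)) := by
    intro j
    induction j with
    | zero =>
      obtain ⟨K, hK, _, hc⟩ := h.cocpt 1
      have h1 : ∀ a, ∃ k γ, k ∈ K ∧ γ ∈ Γ ∧ u a = k * γ := by
        intro a
        obtain ⟨k, hk, γ, hγ, _, he⟩ := hc (u a) (by rw [h.one]; exact Subgroup.mem_top _)
        exact ⟨k, γ, hk, hγ, he⟩
      choose x γ hx hγ he using h1
      obtain ⟨x₀, _, hx₀⟩ := ellis_lim hK p hx
      refine ⟨1, x, γ, hγ, fun a => by rw [mul_one, he a], y⁻¹ * x₀, ?_, ?_⟩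
      · rw [zero_add, h.one]
        exact Subgroup.mem_top _
      · rw [mul_inv_cancel_left]
        exact hx₀
    | succ j ih =>
      obtain ⟨y₀, x, γ, hγ, he, c, hcf, hx⟩ := ih
      obtain ⟨K, hK, hKf, hc⟩ := h.cocpt (j + 1 + 1)
      have h1 : ∀ a, ∃ k γ', k ∈ K ∧ γ' ∈ Γ ∧ c * γ a * c⁻¹ * (γ a)⁻¹ = k * γ' := by
        intro a
        obtain ⟨k, hk, γ', hγ', _, he⟩ := hc (c * γ a * c⁻¹ * (γ a)⁻¹)
          (h.comm (j + 1) 1 c hcf (γ a) (by rw [h.one]; exact Subgroup.mem_top _))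
        exact ⟨k, γ', hk, hγ', he⟩
      choose k γ' hk hγ' hke using h1
      obtain ⟨k₀, hk₀, hk₀l⟩ := ellis_lim hK p hk
      refine ⟨y₀ * c⁻¹, fun a => x a * c⁻¹ * k a, fun a => γ' a * γ a,
        fun a => Γ.mul_mem (hγ' a) (hγ a), fun a => ?_, k₀, hKf hk₀, ?_⟩
      · have h2 : x a * c⁻¹ * k a * (γ' a * γ a) = x a * c⁻¹ * (k a * γ' a) * γ a := by group
        rw [h2, ← hke a, ← mul_assoc, he a]
        group
      · have h3 := (hx.mul_const c⁻¹).mul hk₀l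
        rwa [mul_inv_cancel_right] at h3
  obtain ⟨y₀, x, γ, hγ, he, c, hcf, hx⟩ := key s
  rw [hs, Subgroup.mem_bot] at hcf
  rw [hcf, mul_one] at hx
  exact ⟨y₀, x, γ, hγ, he, hx⟩

/-- **ELLIS2.** Proof. As in `nilClass_hull` (file NilHull): `topologicalGroup_of_lieGroup`,
`Manifold.locallyCompact_of_finiteDimensional`, `rootProp_of_lieGroup`, `exists_nilData Γ _ h1 g` give `H` with `g ∈ H`,
`G = H Γ`, `NilData (clcs H) (Γ ∩ H)`, `clcs H (s + 1) = ⊥`. Write `y = h Γ`, `h ∈ H`, apply ELLIS1 in `H` to `u m = g ^ m`: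
`g ^ m * y₀ = x m * γ m`, so `g ^ m • (y₀ Γ) = x m Γ → h Γ = y`. -/
theorem exists_base {V : Type} [NormedAddCommGroup V] [NormedSpace ℝ V] [FiniteDimensional ℝ V]
    {G : Type} [Group G] [TopologicalSpace G] [T2Space G] [SecondCountableTopology G]
    [ChartedSpace V G] [LieGroup (modelWithCornersSelf ℝ V) (⊤ : ℕ∞) G] (Γ : Subgroup G) (g : G)
    {s : ℕ} (h1 : (⊤ : Subgroup G).lowerCentralSeries s = ⊥) (h2 : DiscreteTopology Γ)
    (h3 : CompactSpace (G ⧸ Γ)) (p : Ultrafilter ℤ) (y : G ⧸ Γ) :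
    ∃ y₀ : G ⧸ Γ, Tendsto (fun m : ℤ => g ^ m • y₀) p (𝓝 y) := by
  have hTG : IsTopologicalGroup G :=
    topologicalGroup_of_lieGroup (modelWithCornersSelf ℝ V) (⊤ : ℕ∞)
  have hlc : LocallyCompactSpace G :=
    Manifold.locallyCompact_of_finiteDimensional (modelWithCornersSelf ℝ V)
  have hroot : RootProp G := rootProp_of_lieGroup (V := V)
  obtain ⟨H, hgH, hHΓ, hdata, hbot⟩ := exists_nilData Γ hroot h1 g
  obtain ⟨z, rfl⟩ := QuotientGroup.mk_surjective y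
  obtain ⟨h, hh, γ₀, hγ₀, rfl⟩ := hHΓ z
  obtain ⟨y₀, x, γ, hγ, he, hx⟩ := ellis hdata hbot p (fun m : ℤ => (⟨g, hgH⟩ : ↥H) ^ m)
    (⟨h, hh⟩ : ↥H)
  refine ⟨QuotientGroup.mk (y₀ : G), ?_⟩
  have h4 : (fun m : ℤ => g ^ m • (QuotientGroup.mk (y₀ : G) : G ⧸ Γ)) =
      fun m : ℤ => (QuotientGroup.mk ((x m : ↥H) : G) : G ⧸ Γ) := by
    funext m
    have h5 : g ^ m * (y₀ : G) = (x m : G) * (γ m : G) := by
      have h6 := congrArg (fun w : ↥H => (w : G)) (he m)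
      simpa only [Subgroup.coe_mul, Subgroup.coe_zpow] using h6
    show (QuotientGroup.mk (g ^ m * (y₀ : G)) : G ⧸ Γ) = _
    rw [h5]
    exact QuotientGroup.mk_mul_of_mem _ (Subgroup.mem_subgroupOf.1 (hγ m))
  have h7 : (QuotientGroup.mk (h * γ₀) : G ⧸ Γ) = QuotientGroup.mk h :=
    QuotientGroup.mk_mul_of_mem _ hγ₀
  rw [h4, h7]
  have h8 : Continuous (fun w : ↥H => (QuotientGroup.mk (w : G) : G ⧸ Γ)) :=
    QuotientGroup.continuous_mk.comp continuous_subtype_val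
  exact (h8.tendsto (⟨h, hh⟩ : ↥H)).comp hx

end Pool.Agent.Nil820

end

/-! ### Part `TrContra` -/

section

/-! # Piece TR-CONTRA: uniform orthogonality passes to the limits of the shifts -/

open scoped ComplexConjugate Topology ENNReal Manifold
open MeasureTheory Filter

namespace Pool.Agent.Nil820

/-- **CONTRA.** Proof. Suppose the averages converge to `c ≠ 0`. As `x` is in the closure of the orbit of `e` there is an
ultrafilter `p` on `ℤ` with `orb e → x` along `p` (`mem_closure_iff_clusterPt`; or `mem_closure_range_iff_ultrafilter`;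
`Filter.NeBot` of `comap (orb e) (𝓝 x)` and `Ultrafilter.of`). By `exists_base` there is `y₀` with `g ^ M • y₀ → y` along
`p`. The sequence `ψ m = F (g ^ m • y₀)` is a basic nilsequence, so it is in `{ψ | Nilseq s ψ}` (`nilseq_of_basicNil`) and
`he` gives `L` for `ε = ‖c‖ / 4`. Choose `N ≥ L`, `N ≥ 1`, with `‖∑_{n < N} x n F (g ^ n • y)‖ ≥ (‖c‖ / 2) N`. For each of
the finitely many `n < N`, `e (M + n) → x n` (evaluation at `n` is continuous) and
`F (g ^ (M + n) • y₀) = F (g ^ n • g ^ M • y₀) → F (g ^ n • y)` along `p` (`G` acts continuously on `G ⧸ Γ`,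
`topologicalGroup_of_lieGroup`), so for some `M` the sum `∑_{n < N} ψ (M + n) e (M + n)` differs from
`∑_{n < N} x n F (g ^ n • y)` by less than `(‖c‖ / 8) N`, so its norm is larger than `ε N`, a contradiction. -/
theorem orth_contra {V : Type} [NormedAddCommGroup V] [NormedSpace ℝ V] [FiniteDimensional ℝ V]
    {G : Type} [Group G] [TopologicalSpace G] [T2Space G] [SecondCountableTopology G]
    [ChartedSpace V G] [LieGroup (modelWithCornersSelf ℝ V) (⊤ : ℕ∞) G] (Γ : Subgroup G) (g : G)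
    {s : ℕ} (h1 : (⊤ : Subgroup G).lowerCentralSeries s = ⊥) (h2 : DiscreteTopology Γ)
    (h3 : CompactSpace (G ⧸ Γ)) (F : C(G ⧸ Γ, ℂ)) {e : KSp}
    (he : Orth {ψ | Nilseq s ψ} (fun m => (e m : ℂ))) {x : KSp}
    (hx : x ∈ closure (Set.range (orb e))) (y : G ⧸ Γ) {c : ℂ} (hc : c ≠ 0) :
    ¬ Tendsto (fun N : ℕ => (∑ n ∈ Finset.range N, (x n : ℂ) * F (g ^ (n : ℤ) • y)) / N) atTop
      (𝓝 c) := by
  intro hT
  have hTG : IsTopologicalGroup G :=
    topologicalGroup_of_lieGroup (modelWithCornersSelf ℝ V) (⊤ : ℕ∞)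
  -- the ultrafilter
  have hne : (comap (orb e) (𝓝 x)).NeBot := by
    rw [comap_neBot_iff]
    intro t ht
    obtain ⟨z, hz1, m, rfl⟩ := mem_closure_iff_nhds.1 hx t ht
    exact ⟨m, hz1⟩
  let p : Ultrafilter ℤ := Ultrafilter.of (comap (orb e) (𝓝 x))
  have hp : Tendsto (orb e) p (𝓝 x) := tendsto_iff_comap.2 (Ultrafilter.of_le _)
  obtain ⟨y₀, hy₀⟩ := exists_base (V := V) Γ g h1 h2 h3 p y
  have hψ : Nilseq s (fun m : ℤ => F (g ^ m • y₀)) :=
    nilseq_of_basicNil ⟨V, inferInstance, inferInstance, inferInstance, G, inferInstance,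
      inferInstance, inferInstance, inferInstance, inferInstance, inferInstance, Γ, g, y₀, F,
      h1, h2, h3, fun _ => rfl⟩
  have hc0 : 0 < ‖c‖ := norm_pos_iff.2 hc
  obtain ⟨L, hL⟩ := he _ hψ (‖c‖ / 4) (by positivity)
  -- a large `N`
  have hev : ∀ᶠ N : ℕ in atTop, ‖c‖ / 2 <
      ‖(∑ n ∈ Finset.range N, (x n : ℂ) * F (g ^ (n : ℤ) • y)) / N‖ :=
    hT.norm.eventually (lt_mem_nhds (by linarith))
  obtain ⟨N, hN1, hN2⟩ := (hev.and (eventually_ge_atTop (max L 1))).exists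
  have hNL : L ≤ N := (le_max_left _ _).trans hN2
  have hN0 : 1 ≤ N := (le_max_right _ _).trans hN2
  have hNpos : (0 : ℝ) < N := by exact_mod_cast hN0
  rw [norm_div, Complex.norm_natCast, lt_div_iff₀ hNpos] at hN1
  -- the limit
  have hlim : Tendsto (fun M : ℤ => ∑ i ∈ Finset.range N,
      F (g ^ (M + (i : ℤ)) • y₀) * ((e (M + (i : ℤ)) : Disc) : ℂ)) p
      (𝓝 (∑ i ∈ Finset.range N, F (g ^ (i : ℤ) • y) * ((x (i : ℤ) : Disc) : ℂ))) := by
    refine tendsto_finset_sum _ fun i _ => Tendsto.mul ?_ ?_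
    · have h4 : Tendsto (fun M : ℤ => g ^ (i : ℤ) • g ^ M • y₀) p (𝓝 (g ^ (i : ℤ) • y)) :=
        hy₀.const_smul (g ^ (i : ℤ))
      have h5 := (F.continuous.tendsto _).comp h4
      refine h5.congr fun M => ?_
      simp only [Function.comp_apply]
      rw [smul_smul, ← zpow_add, add_comm (i : ℤ) M]
    · have h4 : Tendsto (fun M : ℤ => orb e M (i : ℤ)) p (𝓝 (x (i : ℤ))) :=
        ((continuous_apply (i : ℤ)).tendsto x).comp hp
      exact (continuous_subtype_val.tendsto _).comp h4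
  have hle : ‖∑ i ∈ Finset.range N, F (g ^ (i : ℤ) • y) * ((x (i : ℤ) : Disc) : ℂ)‖ ≤
      ‖c‖ / 4 * N :=
    le_of_tendsto hlim.norm (Eventually.of_forall fun M => hL N hNL M)
  have hsum : ∑ i ∈ Finset.range N, F (g ^ (i : ℤ) • y) * ((x (i : ℤ) : Disc) : ℂ) =
      ∑ n ∈ Finset.range N, (x n : ℂ) * F (g ^ (n : ℤ) • y) :=
    Finset.sum_congr rfl fun i _ => mul_comm _ _
  rw [hsum] at hle
  nlinarith

end Pool.Agent.Nil820

end
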