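import Pool.Agent.Lib_HK.TrLink

/-! ### Part `TrErgA` -/

section

/-! # Piece TR-ERGA: the part of an invariant mean on an invariant set -/

open scoped ComplexConjugate Topology ENNReal
open MeasureTheory Filter

namespace Pool.Agent.Nil820

/-- **ERGA0.** Approximation of an indicator function by continuous functions. Proof. Density of bounded
continuous functions in `L¹` (`MeasureTheory.Integrable.exists_boundedContinuous_integral_sub_le` or
`MeasureTheory.MemLp.exists_boundedContinuous_eLpNorm_sub_le`), followed by the truncation `max 0 (min 1 _)`, which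
does not increase the distance to an indicator function. -/
theorem exists_approx (ν : Measure KSp) [IsProbabilityMeasure ν] {B : Set KSp}
    (hB : MeasurableSet B) : ∃ φ : ℕ → C(KSp, ℝ), (∀ k x, 0 ≤ φ k x ∧ φ k x ≤ 1) ∧
      ∀ k, ∫ x, |φ k x - B.indicator 1 x| ∂ν ≤ (1 / 2 : ℝ) ^ k := by
  have hk : ∀ k : ℕ, ∃ φ : C(KSp, ℝ), (∀ x, 0 ≤ φ x ∧ φ x ≤ 1) ∧
      ∫ x, |φ x - B.indicator 1 x| ∂ν ≤ (1 / 2 : ℝ) ^ k := by
    intro k
    have hint : Integrable (B.indicator (1 : KSp → ℝ)) ν :=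
      (integrable_const (1 : ℝ)).indicator hB
    obtain ⟨f, hf, hfi⟩ := hint.exists_boundedContinuous_integral_sub_le
      (show (0 : ℝ) < (1 / 2 : ℝ) ^ k by positivity)
    refine ⟨⟨fun x => max 0 (min 1 (f x)), continuous_const.max (continuous_const.min f.continuous)⟩,
      fun x => ⟨le_max_left _ _, max_le zero_le_one (min_le_left _ _)⟩, le_trans ?_ hf⟩
    refine integral_mono_of_nonneg (Eventually.of_forall fun x => abs_nonneg _)
      (hint.sub hfi).norm (Eventually.of_forall fun x => ?_)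
    show |max 0 (min 1 (f x)) - B.indicator 1 x| ≤ ‖B.indicator 1 x - f x‖
    rw [Real.norm_eq_abs]
    by_cases hx : x ∈ B
    · rw [Set.indicator_of_mem hx, Pi.one_apply]
      rcases le_total 1 (f x) with h1 | h1
      · rw [min_eq_left h1, max_eq_right zero_le_one, sub_self, abs_zero]
        exact abs_nonneg _
      · rw [min_eq_right h1]
        rcases le_total 0 (f x) with h2 | h2
        · rw [max_eq_right h2, abs_sub_comm]
        · rw [max_eq_left h2, zero_sub, abs_neg, abs_one, abs_of_nonneg (by linarith)]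
          linarith
    · rw [Set.indicator_of_notMem hx, sub_zero, zero_sub, abs_neg]
      rcases le_total 1 (f x) with h1 | h1
      · rw [min_eq_left h1, max_eq_right zero_le_one, abs_one, abs_of_nonneg (by linarith)]
        exact h1
      · rw [min_eq_right h1]
        rcases le_total 0 (f x) with h2 | h2
        · rw [max_eq_right h2]
        · rw [max_eq_left h2, abs_zero]
          exact abs_nonneg _
  choose φ h1 h2 using hk
  exact ⟨φ, fun k x => h1 k x, h2⟩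

section ERGA

/-- domination -/
theorem ERGA_dom (𝔪 : InvMean) {u : ℤ → ℂ} (hu : Bdd u) {v : ℤ → ℝ}
    (hv : Bdd fun n => (v n : ℂ)) (h : ∀ n, ‖u n‖ ≤ v n) :
    ‖𝔪.toFun u‖ ≤ (𝔪.toFun fun n => (v n : ℂ)).re := by
  obtain ⟨ω, hω, hω2⟩ : ∃ ω : ℂ, ‖ω‖ = 1 ∧ ω * 𝔪.toFun u = (‖𝔪.toFun u‖ : ℂ) := by
    by_cases h0 : 𝔪.toFun u = 0
    · exact ⟨1, norm_one, by rw [h0]; simp⟩
    · have h1 : ‖𝔪.toFun u‖ ≠ 0 := norm_ne_zero_iff.2 h0
      refine ⟨(‖𝔪.toFun u‖ : ℂ) / 𝔪.toFun u, ?_, ?_⟩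
      · rw [norm_div, Complex.norm_real, Real.norm_eq_abs, abs_of_nonneg (norm_nonneg _),
          div_self h1]
      · rw [div_mul_cancel₀ _ h0]
  have h1 : 0 ≤ (𝔪.toFun fun n => (v n : ℂ) + (-ω) * u n).re := by
    refine 𝔪.re_nonneg (hv.add (hu.cmul (-ω))) fun n => ?_
    have h2 : (ω * u n).re ≤ v n := by
      refine (Complex.re_le_norm _).trans ?_
      rw [norm_mul, hω, one_mul]
      exact h n
    have h3 : ((v n : ℂ) + (-ω) * u n).re = v n - (ω * u n).re := by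
      rw [neg_mul, ← sub_eq_add_neg, Complex.sub_re, Complex.ofReal_re]
    rw [h3]
    linarith
  rw [𝔪.add _ _ hv (hu.cmul (-ω)), 𝔪.smul _ _ hu, neg_mul, hω2, Complex.add_re, Complex.neg_re,
    Complex.ofReal_re] at h1
  linarith

theorem ERGA_bdd (F : C(KSp, ℂ)) (e : KSp) : Bdd fun n => F (orb e n) :=
  ⟨‖F‖, fun n => F.norm_coe_le_norm _⟩

/-- a real continuous function as a complex one -/
noncomputable def ERGA_c (φ : C(KSp, ℝ)) : C(KSp, ℂ) :=
  ⟨fun x => ((φ x : ℝ) : ℂ), Complex.continuous_ofReal.comp φ.continuous⟩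

theorem ERGA_bddr (φ : C(KSp, ℝ)) (e : KSp) : Bdd fun n => ((φ (orb e n) : ℝ) : ℂ) :=
  ERGA_bdd (ERGA_c φ) e

theorem ERGA_int {𝔪 : InvMean} {e : KSp} {ν : Measure KSp} (h : 𝔪.Rep e ν) (φ : C(KSp, ℝ)) :
    𝔪.toFun (fun n => ((φ (orb e n) : ℝ) : ℂ)) = ((∫ x, φ x ∂ν : ℝ) : ℂ) := by
  have h1 := h.int (ERGA_c φ)
  have h2 : ∫ x, ((φ x : ℝ) : ℂ) ∂ν = ((∫ x, φ x ∂ν : ℝ) : ℂ) := integral_ofReal
  rw [← h2]
  exact h1.symm

/-- the basic estimate -/
theorem ERGA_est {𝔪 : InvMean} {e : KSp} {ν : Measure KSp} (h : 𝔪.Rep e ν) {g : ℤ → ℂ} {C : ℝ}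
    (hg : ∀ n, ‖g n‖ ≤ C) (φ ψ : C(KSp, ℝ)) :
    ‖𝔪.toFun (fun n => g n * ((φ (orb e n) : ℝ) : ℂ)) -
      𝔪.toFun (fun n => g n * ((ψ (orb e n) : ℝ) : ℂ))‖ ≤ C * ∫ x, |φ x - ψ x| ∂ν := by
  have hgb : Bdd g := ⟨C, hg⟩
  have hC : 0 ≤ C := (norm_nonneg _).trans (hg 0)
  have e1 : 𝔪.toFun (fun n => g n * ((φ (orb e n) : ℝ) : ℂ)) -
      𝔪.toFun (fun n => g n * ((ψ (orb e n) : ℝ) : ℂ)) =
      𝔪.toFun (fun n => g n * ((φ (orb e n) : ℝ) : ℂ) +
        (-1) * (g n * ((ψ (orb e n) : ℝ) : ℂ))) := by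
    rw [𝔪.add _ _ (hgb.mul (ERGA_bddr φ e)) ((hgb.mul (ERGA_bddr ψ e)).cmul (-1)),
      𝔪.smul _ _ (hgb.mul (ERGA_bddr ψ e))]
    ring
  set θ : C(KSp, ℝ) := ⟨fun x => C * |φ x - ψ x|,
    continuous_const.mul (φ.continuous.sub ψ.continuous).abs⟩ with hθ
  have e2 := ERGA_dom 𝔪 (u := fun n => g n * ((φ (orb e n) : ℝ) : ℂ) +
        (-1) * (g n * ((ψ (orb e n) : ℝ) : ℂ))) (v := fun n => θ (orb e n))
    ((hgb.mul (ERGA_bddr φ e)).add ((hgb.mul (ERGA_bddr ψ e)).cmul (-1))) (ERGA_bddr θ e)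
    (fun n => by
      have e3 : g n * ((φ (orb e n) : ℝ) : ℂ) + (-1) * (g n * ((ψ (orb e n) : ℝ) : ℂ)) =
          g n * ((φ (orb e n) - ψ (orb e n) : ℝ) : ℂ) := by
        push_cast
        ring
      rw [e3, norm_mul, Complex.norm_real, Real.norm_eq_abs]
      exact mul_le_mul_of_nonneg_right (hg n) (abs_nonneg _))
  rw [e1]
  refine e2.trans (le_of_eq ?_)
  rw [ERGA_int h, Complex.ofReal_re, hθ]
  exact integral_const_mul _ _

theorem ERGA_absint {ν : Measure KSp} [IsProbabilityMeasure ν] (φ : C(KSp, ℝ)) {B : Set KSp}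
    (hB : MeasurableSet B) : Integrable (fun x => |φ x - B.indicator 1 x|) ν := by
  have h1 : Integrable (B.indicator (1 : KSp → ℝ)) ν :=
    (integrable_const (1 : ℝ)).indicator hB
  have h2 : Integrable φ ν := by
    refine Integrable.of_bound φ.continuous.measurable.aestronglyMeasurable ‖φ‖
      (Eventually.of_forall fun x => φ.norm_coe_le_norm x)
  exact (h2.sub h1).abs

theorem ERGA_tri {ν : Measure KSp} [IsProbabilityMeasure ν] (φ ψ : C(KSp, ℝ)) {B : Set KSp}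
    (hB : MeasurableSet B) : ∫ x, |φ x - ψ x| ∂ν ≤
      ∫ x, |φ x - B.indicator 1 x| ∂ν + ∫ x, |ψ x - B.indicator 1 x| ∂ν := by
  rw [← integral_add (ERGA_absint φ hB) (ERGA_absint ψ hB)]
  refine integral_mono_of_nonneg (Eventually.of_forall fun x => abs_nonneg _)
    ((ERGA_absint φ hB).add (ERGA_absint ψ hB)) (Eventually.of_forall fun x => ?_)
  show |φ x - ψ x| ≤ |φ x - B.indicator 1 x| + |ψ x - B.indicator 1 x|
  rw [abs_sub_comm (ψ x)]
  exact abs_sub_le _ _ _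

/-- the limit functional -/
theorem ERGA_lim {𝔪 : InvMean} {e : KSp} {ν : Measure KSp} (h : 𝔪.Rep e ν) {B : Set KSp}
    (hB : MeasurableSet B) {φ : ℕ → C(KSp, ℝ)}
    (hφ : Tendsto (fun k => ∫ x, |φ k x - B.indicator 1 x| ∂ν) atTop (𝓝 0)) {g : ℤ → ℂ}
    (hg : Bdd g) : ∃ z : ℂ, Tendsto (fun k => 𝔪.toFun (fun n => g n * ((φ k (orb e n) : ℝ) : ℂ)))
      atTop (𝓝 z) := by
  have := h.prob
  obtain ⟨C, hC0, hC⟩ := hg.nonneg
  refine cauchySeq_tendsto_of_complete (Metric.cauchySeq_iff'.2 fun ε hε => ?_)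
  have h1 : ∀ᶠ k in atTop, ∫ x, |φ k x - B.indicator 1 x| ∂ν < ε / (2 * (C + 1)) :=
    hφ.eventually_lt_const (by positivity)
  obtain ⟨K, hK⟩ := eventually_atTop.1 h1
  refine ⟨K, fun k hk => ?_⟩
  rw [dist_eq_norm]
  refine (ERGA_est h hC (φ k) (φ K)).trans_lt ?_
  have h2 := ERGA_tri (ν := ν) (φ k) (φ K) hB
  have h3 := hK k hk
  have h4 := hK K le_rfl
  have h5 : ∫ x, |φ k x - φ K x| ∂ν ≤ ε / (C + 1) := by
    have h6 : ε / (C + 1) = ε / (2 * (C + 1)) + ε / (2 * (C + 1)) := by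
      field_simp
      ring
    linarith
  calc C * ∫ x, |φ k x - φ K x| ∂ν ≤ C * (ε / (C + 1)) := mul_le_mul_of_nonneg_left h5 hC0
    _ < ε := by
      rw [mul_div_assoc', div_lt_iff₀ (by positivity)]
      nlinarith

/-- two approximations have the same limit -/
theorem ERGA_same {𝔪 : InvMean} {e : KSp} {ν : Measure KSp} (h : 𝔪.Rep e ν) {B : Set KSp}
    (hB : MeasurableSet B) {φ ψ : ℕ → C(KSp, ℝ)}
    (hφ : Tendsto (fun k => ∫ x, |φ k x - B.indicator 1 x| ∂ν) atTop (𝓝 0))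
    (hψ : Tendsto (fun k => ∫ x, |ψ k x - B.indicator 1 x| ∂ν) atTop (𝓝 0)) {g : ℤ → ℂ}
    (hg : Bdd g) {z : ℂ}
    (hz : Tendsto (fun k => 𝔪.toFun (fun n => g n * ((φ k (orb e n) : ℝ) : ℂ))) atTop (𝓝 z)) :
    Tendsto (fun k => 𝔪.toFun (fun n => g n * ((ψ k (orb e n) : ℝ) : ℂ))) atTop (𝓝 z) := by
  have := h.prob
  obtain ⟨C, hC0, hC⟩ := hg.nonneg
  refine hz.congr_dist ?_
  refine squeeze_zero (fun k => dist_nonneg) (fun k => ?_)
    (by simpa using (hφ.add hψ).const_mul C)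
  rw [dist_eq_norm]
  exact (ERGA_est h hC (φ k) (ψ k)).trans
    (mul_le_mul_of_nonneg_left (ERGA_tri (φ k) (ψ k) hB) hC0)

theorem ERGA_orb_pred (e : KSp) (n : ℤ) : shK.symm (orb e (n + 1)) = orb e n := by
  rw [MeasurableEquiv.symm_apply_eq, shK_orb]

/-- invariance under the shift by one -/
theorem ERGA_shift {𝔪 : InvMean} {e : KSp} {ν : Measure KSp} (h : 𝔪.Rep e ν) {B : Set KSp}
    (hB : MeasurableSet B) (hinv : shK ⁻¹' B = B) {φ : ℕ → C(KSp, ℝ)}
    (hφ : Tendsto (fun k => ∫ x, |φ k x - B.indicator 1 x| ∂ν) atTop (𝓝 0)) {g : ℤ → ℂ}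
    (hg : Bdd g) {z : ℂ}
    (hz : Tendsto (fun k => 𝔪.toFun (fun n => g n * ((φ k (orb e n) : ℝ) : ℂ))) atTop (𝓝 z)) :
    Tendsto (fun k => 𝔪.toFun (fun n => g (n + 1) * ((φ k (orb e n) : ℝ) : ℂ))) atTop (𝓝 z) := by
  have := h.prob
  set ψ : ℕ → C(KSp, ℝ) := fun k => ⟨fun x => φ k (shH.symm x),
    (φ k).continuous.comp shH.symm.continuous⟩ with hψ
  have h1 : ∀ k, ∫ x, |ψ k x - B.indicator 1 x| ∂ν = ∫ x, |φ k x - B.indicator 1 x| ∂ν := by
    intro k
    have h2 := h.pres.integral_comp shK.measurableEmbedding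
      (fun x => |ψ k x - B.indicator 1 x|)
    rw [← h2]
    refine integral_congr_ae (Eventually.of_forall fun x => ?_)
    show |φ k (shH.symm (shH x)) - B.indicator 1 (shK x)| = |φ k x - B.indicator 1 x|
    rw [shH.symm_apply_apply]
    congr 2
    have h3 : (shK x ∈ B) ↔ x ∈ B := by
      conv_rhs => rw [← hinv]
      rfl
    by_cases hx : x ∈ B
    · rw [Set.indicator_of_mem hx, Set.indicator_of_mem (h3.2 hx)]
      rfl
    · rw [Set.indicator_of_notMem hx, Set.indicator_of_notMem fun hh => hx (h3.1 hh)]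
  have h4 := ERGA_same h hB hφ (ψ := ψ) (by simpa only [h1] using hφ) hg hz
  refine h4.congr fun k => ?_
  rw [← 𝔪.shift (fun n => g n * ((ψ k (orb e n) : ℝ) : ℂ)) 1 (hg.mul (ERGA_bddr (ψ k) e))]
  congr 1
  funext n
  congr 2
  show φ k (shH.symm (orb e (n + 1))) = φ k (orb e n)
  congr 1
  rw [Homeomorph.symm_apply_eq]
  exact (shK_orb e n).symm

end ERGA

/-- **ERGA.** The part of the mean `𝔪` on an invariant Borel set `B` of the representing system.

Proof. Choose continuous functions `φ k : KSp → ℝ`, `0 ≤ φ k ≤ 1`, with `∫ |φ k - 1_B| dν ≤ 2 ^ (-k)` (ERGA0).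
For bounded `g` the numbers `a k = 𝔪 (n ↦ g n * φ k (orb e n))` form a Cauchy sequence:
`|a k - a j| ≤ C 𝔪 (n ↦ |φ k - φ j| (orb e n)) = C ∫ |φ k - φ j| dν` (`Rep.int`; monotonicity:
`|𝔪 (u v)| ≤ C 𝔪 |v|` if `|u| ≤ C`; for this use `InvMean.re_nonneg`: with a unimodular constant `ω` such that
`ω 𝔪 (u v) = |𝔪 (u v)|` one has `0 ≤ re (C |v| - ω u v)`). Let `L g` be the limit. `L` is additive,
homogeneous, compatible with conjugation, `0 ≤ re (L g)` if `0 ≤ re g`, `|L g| ≤ C ν(B)` if `|g| ≤ C`, and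
`L 1 = ∫ 1_B dν = ν(B)`, `L (n ↦ F (orb e n)) = ∫_B F dν` (all by passing to the limit). Shift invariance:
`𝔪 (g (n + r) φ k (orb e n)) = 𝔪 (g n φ k (orb e (n - r)))` and
`∫ |φ k ∘ shK ^ (-r) - φ k| dν ≤ ∫ |φ k ∘ shK ^ (-r) - 1_B ∘ shK ^ (-r)| + |1_B - φ k| ≤ 2 * 2 ^ (-k)` because `B` and `ν` are
invariant; it suffices to do `r = 1`, general `r` follows by induction.
The mean `𝔪'` is `L / ν(B)` on bounded sequences (and `0` on the others). -/
theorem exists_part {𝔪 : InvMean} {e : KSp} {ν : Measure KSp} (h : 𝔪.Rep e ν) {B : Set KSp}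
    (hB : MeasurableSet B) (hinv : shK ⁻¹' B = B) (hpos : 0 < ν.real B) :
    ∃ 𝔪' : InvMean, (∀ F : C(KSp, ℂ), 𝔪'.toFun (fun n => F (orb e n)) =
      ((ν.real B)⁻¹ : ℂ) * ∫ x in B, F x ∂ν) ∧
      ∀ g : ℤ → ℂ, Bdd g → ∀ φ : ℕ → C(KSp, ℝ), (∀ k x, 0 ≤ φ k x ∧ φ k x ≤ 1) →
        Tendsto (fun k => ∫ x, |φ k x - B.indicator 1 x| ∂ν) atTop (𝓝 0) →
        Tendsto (fun k => 𝔪.toFun (fun n => g n * ((φ k (orb e n) : ℝ) : ℂ))) atTop
          (𝓝 ((ν.real B : ℂ) * 𝔪'.toFun g)) := by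
  classical
  have := h.prob
  obtain ⟨φ, hφ01, hφ⟩ := exists_approx ν hB
  have hφ0 : Tendsto (fun k => ∫ x, |φ k x - B.indicator 1 x| ∂ν) atTop (𝓝 0) :=
    squeeze_zero (fun k => integral_nonneg fun x => abs_nonneg _) hφ
      (tendsto_pow_atTop_nhds_zero_of_lt_one (by norm_num) (by norm_num))
  have hex : ∀ g : ℤ → ℂ, ∃ z : ℂ, Bdd g →
      Tendsto (fun k => 𝔪.toFun (fun n => g n * ((φ k (orb e n) : ℝ) : ℂ))) atTop (𝓝 z) := by
    intro g
    by_cases hg : Bdd g
    · obtain ⟨z, hz⟩ := ERGA_lim h hB hφ0 hg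
      exact ⟨z, fun _ => hz⟩
    · exact ⟨0, fun hh => absurd hh hg⟩
  choose L hL using hex
  have hb0 : (ν.real B : ℂ) ≠ 0 := Complex.ofReal_ne_zero.2 hpos.ne'
  -- integrals
  have hint : ∀ F : C(KSp, ℂ), L (fun n => F (orb e n)) = ∫ x in B, F x ∂ν := by
    intro F
    refine tendsto_nhds_unique (hL _ (ERGA_bdd F e)) ?_
    have h1 : ∀ k, 𝔪.toFun (fun n => F (orb e n) * ((φ k (orb e n) : ℝ) : ℂ)) =
        ∫ x, F x * ((φ k x : ℝ) : ℂ) ∂ν := fun k => (h.int (F * ERGA_c (φ k))).symm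
    simp only [h1]
    rw [← integral_indicator hB, tendsto_iff_norm_sub_tendsto_zero]
    refine squeeze_zero (fun k => norm_nonneg _) (fun k => ?_)
      (by simpa using hφ0.const_mul ‖F‖)
    have hFi : Integrable F ν :=
      Integrable.of_bound F.continuous.measurable.aestronglyMeasurable ‖F‖
        (Eventually.of_forall fun x => F.norm_coe_le_norm x)
    have hFk : Integrable (fun x => F x * ((φ k x : ℝ) : ℂ)) ν :=
      Integrable.of_bound (F * ERGA_c (φ k)).continuous.measurable.aestronglyMeasurable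
        ‖F * ERGA_c (φ k)‖ (Eventually.of_forall fun x =>
          (F * ERGA_c (φ k)).norm_coe_le_norm x)
    rw [← integral_sub hFk (hFi.indicator hB), ← integral_const_mul]
    refine norm_integral_le_of_norm_le ((ERGA_absint (φ k) hB).const_mul _)
      (Eventually.of_forall fun x => ?_)
    show ‖F x * ((φ k x : ℝ) : ℂ) - B.indicator F x‖ ≤ ‖F‖ * |φ k x - B.indicator 1 x|
    have h2 : F x * ((φ k x : ℝ) : ℂ) - B.indicator F x =
        F x * ((φ k x - B.indicator 1 x : ℝ) : ℂ) := by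
      by_cases hx : x ∈ B
      · rw [Set.indicator_of_mem hx, Set.indicator_of_mem hx, Pi.one_apply]
        push_cast
        ring
      · rw [Set.indicator_of_notMem hx, Set.indicator_of_notMem hx]
        push_cast
        ring
    rw [h2, norm_mul, Complex.norm_real, Real.norm_eq_abs]
    exact mul_le_mul_of_nonneg_right (F.norm_coe_le_norm x) (abs_nonneg _)
  have hLadd : ∀ f g, Bdd f → Bdd g → L (fun m => f m + g m) = L f + L g := by
    intro f g hf hg
    refine tendsto_nhds_unique (hL _ (hf.add hg)) (((hL f hf).add (hL g hg)).congr fun k => ?_)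
    rw [← 𝔪.add _ _ (hf.mul (ERGA_bddr (φ k) e)) (hg.mul (ERGA_bddr (φ k) e))]
    congr 1
    funext n
    ring
  have hLsmul : ∀ (c : ℂ) f, Bdd f → L (fun m => c * f m) = c * L f := by
    intro c f hf
    refine tendsto_nhds_unique (hL _ (hf.cmul c)) (((hL f hf).const_mul c).congr fun k => ?_)
    rw [← 𝔪.smul _ _ (hf.mul (ERGA_bddr (φ k) e))]
    congr 1
    funext n
    ring
  have hLone : L (fun _ => 1) = (ν.real B : ℂ) := by
    have h1 := hint (ContinuousMap.const KSp (1 : ℂ))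
    refine Eq.trans h1 ?_
    show ∫ x in B, (1 : ℂ) ∂ν = _
    rw [setIntegral_const]
    simp
  have hLconst : ∀ c : ℂ, L (fun _ => c) = c * (ν.real B : ℂ) := by
    intro c
    rw [← hLone, ← hLsmul c _ (Bdd.const 1)]
    congr 1
    funext _
    ring
  have hLcj : ∀ f, Bdd f → L (fun m => conj (f m)) = conj (L f) := by
    intro f hf
    refine tendsto_nhds_unique (hL _ hf.cj)
      (((Complex.continuous_conj.tendsto _).comp (hL f hf)).congr fun k => ?_)
    show conj (𝔪.toFun fun n => f n * ((φ k (orb e n) : ℝ) : ℂ)) = _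
    rw [← 𝔪.cj _ (hf.mul (ERGA_bddr (φ k) e))]
    congr 1
    funext n
    rw [map_mul, Complex.conj_ofReal]
  have hLbound : ∀ f (C : ℝ), (∀ m, ‖f m‖ ≤ C) → ‖L f‖ ≤ C * ν.real B := by
    intro f C hf
    have hfb : Bdd f := ⟨C, hf⟩
    have hC0 : 0 ≤ C := (norm_nonneg _).trans (hf 0)
    have h1 : Tendsto (fun k => C * ∫ x, φ k x ∂ν) atTop (𝓝 (C * ν.real B)) := by
      refine Tendsto.const_mul C ?_
      have h2 := hL _ (Bdd.const 1)
      rw [hLone] at h2
      have h3 : ∀ k, 𝔪.toFun (fun n => (1 : ℂ) * ((φ k (orb e n) : ℝ) : ℂ)) =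
          ((∫ x, φ k x ∂ν : ℝ) : ℂ) := by
        intro k
        rw [← ERGA_int h]
        congr 1
        funext n
        rw [one_mul]
      simp only [h3] at h2
      exact (Complex.continuous_re.tendsto _).comp h2
    refine le_of_tendsto_of_tendsto (hL f hfb).norm h1 (Eventually.of_forall fun k => ?_)
    set θ : C(KSp, ℝ) := ⟨fun x => C * φ k x, continuous_const.mul (φ k).continuous⟩ with hθ
    have h4 := ERGA_dom 𝔪 (u := fun n => f n * ((φ k (orb e n) : ℝ) : ℂ))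
      (v := fun n => θ (orb e n)) (hfb.mul (ERGA_bddr (φ k) e)) (ERGA_bddr θ e) (fun n => by
        rw [norm_mul, Complex.norm_real, Real.norm_eq_abs, abs_of_nonneg (hφ01 k _).1]
        exact mul_le_mul_of_nonneg_right (hf n) (hφ01 k _).1)
    refine h4.trans (le_of_eq ?_)
    rw [ERGA_int h, Complex.ofReal_re, hθ]
    exact integral_const_mul _ _
  have hLshift1 : ∀ f, Bdd f → L (fun m => f (m + 1)) = L f := by
    intro f hf
    exact tendsto_nhds_unique (hL _ (hf.shift 1)) (ERGA_shift h hB hinv hφ0 hf (hL f hf))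
  have hLshift : ∀ f (r : ℤ), Bdd f → L (fun m => f (m + r)) = L f := by
    intro f r hf
    induction r using Int.induction_on with
    | zero => simp only [add_zero]
    | succ i ih =>
      rw [← ih, ← hLshift1 _ (hf.shift (i : ℤ))]
      congr 1
      funext m
      congr 1
      ring
    | pred i ih =>
      rw [← ih, ← hLshift1 _ (hf.shift (-(i : ℤ) - 1))]
      congr 1
      funext m
      congr 1
      ring
  refine ⟨{ toFun := fun f => if Bdd f then ((ν.real B)⁻¹ : ℂ) * L f else 0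
            add := ?_, smul := ?_, const := ?_, cj := ?_, bound := ?_, shift := ?_ }, ?_, ?_⟩
  · intro f g hf hg
    rw [if_pos (hf.add hg), if_pos hf, if_pos hg, hLadd f g hf hg]
    ring
  · intro c f hf
    rw [if_pos (hf.cmul c), if_pos hf, hLsmul c f hf]
    ring
  · intro c
    rw [if_pos (Bdd.const c), hLconst, mul_comm c, ← mul_assoc, inv_mul_cancel₀ hb0, one_mul]
  · intro f hf
    rw [if_pos hf.cj, if_pos hf, hLcj f hf, map_mul, map_inv₀, Complex.conj_ofReal]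
  · intro f C hf
    have hfb : Bdd f := ⟨C, hf⟩
    rw [if_pos hfb, norm_mul, norm_inv, Complex.norm_real, Real.norm_eq_abs,
      abs_of_pos hpos]
    calc (ν.real B)⁻¹ * ‖L f‖ ≤ (ν.real B)⁻¹ * (C * ν.real B) :=
          mul_le_mul_of_nonneg_left (hLbound f C hf) (inv_nonneg.2 hpos.le)
      _ = C := by
          field_simp
  · intro f r hf
    rw [if_pos (hf.shift r), if_pos hf, hLshift f r hf]
  · intro F
    show (if Bdd (fun n => F (orb e n)) then _ else _) = _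
    rw [if_pos (ERGA_bdd F e), hint F]
  · intro g hg ψ _ hψ
    have h1 := ERGA_same h hB hφ0 hψ hg (hL g hg)
    have h2 : (ν.real B : ℂ) * (if Bdd g then ((ν.real B)⁻¹ : ℂ) * L g else 0) = L g := by
      rw [if_pos hg, ← mul_assoc, mul_inv_cancel₀ hb0, one_mul]
    show Tendsto _ _ (𝓝 ((ν.real B : ℂ) * (if Bdd g then ((ν.real B)⁻¹ : ℂ) * L g else 0)))
    rw [h2]
    exact h1

end Pool.Agent.Nil820

end

/-! ### Part `TrErgB` -/

section

/-! # Piece TR-ERGB: the system of an extreme mean is ergodic -/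

open scoped ComplexConjugate Topology ENNReal
open MeasureTheory Filter

namespace Pool.Agent.Nil820

/-- **ERGB.** Proof. `shK` is measure preserving (`Rep.pres`). Let `B` be measurable with `shK ⁻¹' B = B` and
suppose `0 < ν B < 1`. Let `𝔪₁, 𝔪₂` be the means of `exists_part` for `B` and `Bᶜ`, `t = ν.real B`. Choose
`φ k` for `B` by `exists_approx` (continuous, values in `[0, 1]`, converging to the indicator of `B` in `L¹(ν)`); then
`1 - φ k` converges to the indicator of `Bᶜ`. For bounded `g` the sum of the two limits gives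
`𝔪 g = t 𝔪₁ g + (1 - t) 𝔪₂ g`. As `𝔪` is extreme, `𝔪₁ g = 𝔪 g` for all bounded `g`, in particular for
`g n = φ k (orb e n)`: `t⁻¹ ∫_B φ k dν = ∫ φ k dν`. Let `k → ∞`: `t⁻¹ ν(B) = ν(B)`, i.e. `ν(B) = 1`, a contradiction.
(`Ergodic` needs: for measurable `B` with `shK ⁻¹' B = B`, `B` is a.e. empty or full: `PreErgodic.aeconst_set`,
`Filter.eventuallyConst_set`.) -/
theorem ergodic_of_extreme {𝔪 : InvMean} (h𝔪 : 𝔪.Extreme) {e : KSp} {ν : Measure KSp}
    (h : 𝔪.Rep e ν) : Ergodic shK ν := by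
  have hprob := h.prob
  refine ⟨h.pres, ⟨fun B hB hinv => ?_⟩⟩
  rw [Filter.eventuallyConst_set]
  by_cases h0 : ν B = 0
  · right
    exact measure_eq_zero_iff_ae_notMem.1 h0
  by_cases h1 : ν Bᶜ = 0
  · left
    exact mem_ae_iff.2 h1
  exfalso
  set t : ℝ := ν.real B with ht
  have htpos : 0 < t := by
    rw [ht, measureReal_def]
    exact ENNReal.toReal_pos h0 (measure_ne_top _ _)
  have htc : ν.real Bᶜ = 1 - t := by
    rw [ht]
    exact probReal_compl_eq_one_sub hB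
  have htcpos : 0 < ν.real Bᶜ := by
    rw [measureReal_def]
    exact ENNReal.toReal_pos h1 (measure_ne_top _ _)
  have ht1 : t < 1 := by linarith
  obtain ⟨𝔪₁, h₁F, h₁g⟩ := exists_part h hB hinv htpos
  obtain ⟨𝔪₂, h₂F, h₂g⟩ := exists_part h hB.compl
    (by rw [Set.preimage_compl, hinv]) htcpos
  obtain ⟨φ, hφ01, hφ⟩ := exists_approx ν hB
  have htend : Tendsto (fun k => ∫ x, |φ k x - B.indicator 1 x| ∂ν) atTop (𝓝 0) := by
    refine squeeze_zero (fun k => integral_nonneg fun x => abs_nonneg _) hφ ?_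
    exact tendsto_pow_atTop_nhds_zero_of_lt_one (by norm_num) (by norm_num)
  let φ' : ℕ → C(KSp, ℝ) := fun k => 1 - φ k
  have hφ' : ∀ k x, φ' k x = 1 - φ k x := fun k x => rfl
  have hφ'01 : ∀ k x, 0 ≤ φ' k x ∧ φ' k x ≤ 1 := by
    intro k x
    have := hφ01 k x
    rw [hφ']
    constructor <;> linarith [this.1, this.2]
  have habs : ∀ k x, |φ' k x - Bᶜ.indicator (1 : KSp → ℝ) x| =
      |φ k x - B.indicator (1 : KSp → ℝ) x| := by
    intro k x
    rw [hφ']
    by_cases hx : x ∈ B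
    · rw [Set.indicator_of_mem hx, Set.indicator_of_notMem (s := Bᶜ) (fun h' : x ∈ Bᶜ => h' hx)]
      rw [abs_sub_comm (φ k x)]
      simp
    · rw [Set.indicator_of_notMem hx, Set.indicator_of_mem (s := Bᶜ) hx]
      rw [Pi.one_apply, sub_sub_cancel_left, abs_neg, sub_zero]
  have htend' : Tendsto (fun k => ∫ x, |φ' k x - Bᶜ.indicator 1 x| ∂ν) atTop (𝓝 0) := by
    refine htend.congr fun k => ?_
    exact integral_congr_ae (Eventually.of_forall fun x => (habs k x).symm)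
  have hconv : ∀ f, Bdd f → 𝔪.toFun f = t * 𝔪₁.toFun f + (1 - t) * 𝔪₂.toFun f := by
    intro g hg
    obtain ⟨C, hC⟩ := hg
    have l1 := h₁g g ⟨C, hC⟩ φ hφ01 htend
    have l2 := h₂g g ⟨C, hC⟩ φ' hφ'01 htend'
    have l3 := l1.add l2
    have hsum : ∀ k, 𝔪.toFun (fun n => g n * ((φ k (orb e n) : ℝ) : ℂ)) +
        𝔪.toFun (fun n => g n * ((φ' k (orb e n) : ℝ) : ℂ)) = 𝔪.toFun g := by
      intro k
      have hb : ∀ (r : ℤ → ℝ), (∀ n, 0 ≤ r n ∧ r n ≤ 1) → Bdd (fun n => g n * ((r n : ℝ) : ℂ)) := by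
        intro r hr
        refine ⟨C, fun m => ?_⟩
        rw [norm_mul, Complex.norm_real, Real.norm_of_nonneg (hr m).1]
        exact (mul_le_of_le_one_right (norm_nonneg _) (hr m).2).trans (hC m)
      rw [← 𝔪.add _ _ (hb _ fun n => hφ01 k _) (hb _ fun n => hφ'01 k _)]
      congr 1
      funext n
      rw [← mul_add, hφ', ← Complex.ofReal_add]
      simp
    have l4 := tendsto_nhds_unique l3 ((tendsto_const_nhds (x := 𝔪.toFun g)).congr
      fun k => (hsum k).symm)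
    rw [← l4, htc]
    push_cast
    ring
  have hext := h𝔪 𝔪₁ 𝔪₂ t htpos ht1 hconv
  -- the continuous functions
  let F : ℕ → C(KSp, ℂ) := fun k => ⟨fun x => ((φ k x : ℝ) : ℂ),
    Complex.continuous_ofReal.comp (φ k).continuous⟩
  have hF : ∀ k x, F k x = ((φ k x : ℝ) : ℂ) := fun k x => rfl
  have hkey : ∀ k, t⁻¹ * ∫ x in B, φ k x ∂ν = ∫ x, φ k x ∂ν := by
    intro k
    have h2 := h₁F (F k)
    have h3 := h.int (F k)
    have h4 : Bdd (fun n => F k (orb e n)) := by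
      refine ⟨1, fun m => ?_⟩
      change ‖((φ k (orb e m) : ℝ) : ℂ)‖ ≤ 1
      rw [Complex.norm_real, Real.norm_of_nonneg (hφ01 k _).1]
      exact (hφ01 k _).2
    rw [hext _ h4, ← h3] at h2
    have h5 : ∫ x, F k x ∂ν = ((∫ x, φ k x ∂ν : ℝ) : ℂ) := integral_ofReal
    have h6 : ∫ x in B, F k x ∂ν = ((∫ x in B, φ k x ∂ν : ℝ) : ℂ) := integral_ofReal
    rw [h5, h6, ← Complex.ofReal_inv, ← Complex.ofReal_mul] at h2
    exact (Complex.ofReal_injective h2).symm
  have hφint : ∀ k, Integrable (fun x => φ k x) ν := fun k =>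
    (φ k).continuous.integrable_of_hasCompactSupport
      (HasCompactSupport.of_compactSpace _)
  have hind : Integrable (B.indicator (1 : KSp → ℝ)) ν :=
    (integrable_const (1 : ℝ)).indicator hB
  have hd : ∀ k, Integrable (fun x => φ k x - B.indicator (1 : KSp → ℝ) x) ν := fun k =>
    (hφint k).sub hind
  have hi1 : ∫ x, B.indicator (1 : KSp → ℝ) x ∂ν = t := by
    rw [integral_indicator_one hB]
  have hi2 : ∫ x in B, B.indicator (1 : KSp → ℝ) x ∂ν = t := by
    rw [setIntegral_indicator hB, Set.inter_self]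
    simp [ht]
  have ha : Tendsto (fun k => ∫ x, φ k x ∂ν) atTop (𝓝 t) := by
    rw [tendsto_iff_norm_sub_tendsto_zero]
    refine squeeze_zero (fun k => norm_nonneg _) (fun k => ?_) htend
    rw [← hi1, ← integral_sub (hφint k) hind]
    exact norm_integral_le_integral_norm _
  have hb : Tendsto (fun k => ∫ x in B, φ k x ∂ν) atTop (𝓝 t) := by
    rw [tendsto_iff_norm_sub_tendsto_zero]
    refine squeeze_zero (fun k => norm_nonneg _) (fun k => ?_) htend
    rw [← hi2, ← integral_sub (hφint k).integrableOn hind.integrableOn]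
    refine (norm_integral_le_integral_norm _).trans ?_
    exact setIntegral_le_integral (hd k).norm (Eventually.of_forall fun x => norm_nonneg _)
  have hc : Tendsto (fun k => ∫ x, φ k x ∂ν) atTop (𝓝 (t⁻¹ * t)) :=
    (hb.const_mul t⁻¹).congr hkey
  have hd1 := tendsto_nhds_unique ha hc
  rw [inv_mul_cancel₀ htpos.ne'] at hd1
  linarith

end Pool.Agent.Nil820

end
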