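import Pool.Agent.Lib_HK.TrLink

/-! ### Part `TrVdcA` -/

section

/-! # Piece TR-VDCA: one step of van der Corput's inequality for an invariant mean -/

open scoped ComplexConjugate Topology ENNReal
open MeasureTheory Filter

namespace Pool.Agent.Nil820

private theorem vdcA_bdd_sum {ι : Type*} (s : Finset ι) (c : ι → ℂ)
    (f : ι → ℤ → ℂ) (h : ∀ i ∈ s, Bdd (f i)) : Bdd (fun m => ∑ i ∈ s, c i * f i m) := by
  classical
  induction s using Finset.induction_on with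
  | empty =>
    have h0 : (fun m : ℤ => ∑ i ∈ (∅ : Finset ι), c i * f i m) = fun _ => (0 : ℂ) := by
      funext m
      exact Finset.sum_empty
    rw [h0]
    exact Bdd.const 0
  | insert a s ha ih =>
    have h0 : (fun m : ℤ => ∑ i ∈ insert a s, c i * f i m) =
        fun m => c a * f a m + ∑ i ∈ s, c i * f i m := by
      funext m
      exact Finset.sum_insert ha
    rw [h0]
    exact ((h a (Finset.mem_insert_self _ _)).cmul (c a)).add
      (ih fun i hi => h i (Finset.mem_insert_of_mem hi))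

/-- **VDCA1.** Cauchy-Schwarz for a mean. Proof: for every complex `c`,
`0 ≤ 𝔪 (‖f - c‖²) = 𝔪 |f|² - 2 re (conj c 𝔪 f) + |c|²` (`InvMean.re_nonneg`, linearity); take `c = 𝔪 f`. -/
theorem InvMean.sq_le (𝔪 : InvMean) {f : ℤ → ℂ} (hf : Bdd f) :
    ‖𝔪.toFun f‖ ^ 2 ≤ (𝔪.toFun fun n => conj (f n) * f n).re := by
  set c : ℂ := 𝔪.toFun f with hc
  have hff : Bdd (fun n => conj (f n) * f n) := hf.cj.mul hf
  have h1 : 𝔪.toFun (fun n => (conj (f n) * f n + (-c) * conj (f n)) +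
      ((-conj c) * f n + conj c * c)) =
      (𝔪.toFun (fun n => conj (f n) * f n) + (-c) * conj c) + ((-conj c) * c + conj c * c) := by
    rw [𝔪.add _ _ (hff.add (hf.cj.cmul (-c))) ((hf.cmul (-conj c)).add (Bdd.const _)),
      𝔪.add _ _ hff (hf.cj.cmul (-c)), 𝔪.add _ _ (hf.cmul (-conj c)) (Bdd.const _),
      𝔪.smul _ _ hf.cj, 𝔪.smul _ _ hf, 𝔪.const, 𝔪.cj _ hf]
  have h2 := 𝔪.re_nonneg
    ((hff.add (hf.cj.cmul (-c))).add ((hf.cmul (-conj c)).add (Bdd.const (conj c * c))))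
    (fun m => by
      have h3 : conj (f m) * f m + (-c) * conj (f m) + ((-conj c) * f m + conj c * c) =
          ((Complex.normSq (f m - c) : ℝ) : ℂ) := by
        rw [Complex.normSq_eq_conj_mul_self, map_sub]
        ring
      rw [h3, Complex.ofReal_re]
      exact Complex.normSq_nonneg _)
  rw [h1] at h2
  have h4 : 𝔪.toFun (fun n => conj (f n) * f n) + (-c) * conj c + ((-conj c) * c + conj c * c) =
      𝔪.toFun (fun n => conj (f n) * f n) - ((‖c‖ ^ 2 : ℝ) : ℂ) := by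
    rw [← Complex.normSq_eq_norm_sq, Complex.normSq_eq_conj_mul_self]
    ring
  rw [h4, Complex.sub_re, Complex.ofReal_re] at h2
  linarith

/-- **VDCA2.** Cauchy-Schwarz for a mean system, one function bounded by one. Proof:
`0 ≤ E (conj (w - c u) (w - c u))` with `u = conj f₀`, `c = conj (E (f₀ w))`-multiple, or: for all `c`,
`0 ≤ E |w|² - 2 re (c E (f₀ w)) + |c|² E |f₀|²` and `E |f₀|² ≤ 1`; take `c = conj (E (f₀ w))`
(test function `w - conj c * conj f₀`). -/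
theorem MeanSys.sq_le {Ω : Type} (S : MeanSys Ω) {f₀ w : Ω → ℂ} (hf₀ : S.M f₀) (hw : S.M w)
    (h1 : ∀ ω, ‖f₀ ω‖ ≤ 1) :
    ‖S.E fun ω => f₀ ω * w ω‖ ^ 2 ≤ (S.E fun ω => conj (w ω) * w ω).re := by
  have hm1 : S.M (fun ω => f₀ ω * w ω) := S.mmul _ _ hf₀ hw
  set a : ℂ := S.E fun ω => f₀ ω * w ω with ha
  have hcw := S.mconj _ hw
  have hc0 := S.mconj _ hf₀
  have hww : S.M (fun ω => conj (w ω) * w ω) := S.mmul _ _ hcw hw
  have hcm1 : S.M (fun ω => conj (f₀ ω * w ω)) := S.mconj _ hm1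
  have hm2 : S.M (fun ω => (-a) * conj (f₀ ω * w ω)) := S.mmul _ _ (S.mconst _) hcm1
  have hm3 : S.M (fun ω => (-conj a) * (f₀ ω * w ω)) := S.mmul _ _ (S.mconst _) hm1
  have h00 : S.M (fun ω => conj (f₀ ω) * f₀ ω) := S.mmul _ _ hc0 hf₀
  have hm4 : S.M (fun ω => (conj a * a) * (conj (f₀ ω) * f₀ ω)) := S.mmul _ _ (S.mconst _) h00
  have hg : S.M (fun ω => w ω + (-a) * conj (f₀ ω)) :=
    S.madd _ _ hw (S.mmul _ _ (S.mconst _) hc0)
  have e1 : (S.E fun ω => conj (w ω + (-a) * conj (f₀ ω)) * (w ω + (-a) * conj (f₀ ω))) =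
      (S.E (fun ω => conj (w ω) * w ω) + (-a) * conj a) + ((-conj a) * a +
        (conj a * a) * S.E (fun ω => conj (f₀ ω) * f₀ ω)) := by
    have e2 : (fun ω => conj (w ω + (-a) * conj (f₀ ω)) * (w ω + (-a) * conj (f₀ ω))) =
        fun ω => (conj (w ω) * w ω + (-a) * conj (f₀ ω * w ω)) +
          ((-conj a) * (f₀ ω * w ω) + (conj a * a) * (conj (f₀ ω) * f₀ ω)) := by
      funext ω
      simp only [map_add, map_mul, map_neg, Complex.conj_conj]
      ring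
    rw [e2, S.Eadd _ _ (S.madd _ _ hww hm2) (S.madd _ _ hm3 hm4), S.Eadd _ _ hww hm2,
      S.Eadd _ _ hm3 hm4, S.Esmul _ _ hcm1, S.Esmul _ _ hm1, S.Esmul _ _ h00, S.Econj _ hm1]
  have h2 := S.Epos _ hg
  rw [e1] at h2
  have h3 : (S.E (fun ω => conj (w ω) * w ω) + (-a) * conj a) + ((-conj a) * a +
      (conj a * a) * S.E (fun ω => conj (f₀ ω) * f₀ ω)) =
      S.E (fun ω => conj (w ω) * w ω) - ((2 * ‖a‖ ^ 2 : ℝ) : ℂ) +
        ((‖a‖ ^ 2 : ℝ) : ℂ) * S.E (fun ω => conj (f₀ ω) * f₀ ω) := by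
    have h4 : ((‖a‖ ^ 2 : ℝ) : ℂ) = conj a * a := by
      rw [← Complex.normSq_eq_norm_sq, Complex.normSq_eq_conj_mul_self]
    rw [Complex.ofReal_mul, h4]
    push_cast
    ring
  rw [h3, Complex.add_re, Complex.sub_re, Complex.ofReal_re, Complex.re_ofReal_mul] at h2
  have h5 : ‖S.E (fun ω => conj (f₀ ω) * f₀ ω)‖ ≤ 1 := by
    refine S.Ebound _ _ h00 fun ω => ?_
    rw [norm_mul, RCLike.norm_conj]
    have := h1 ω
    exact mul_le_one₀ this (norm_nonneg _) this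
  have h6 : (S.E (fun ω => conj (f₀ ω) * f₀ ω)).re ≤ 1 := (Complex.re_le_norm _).trans h5
  have h7 : ‖a‖ ^ 2 * (S.E (fun ω => conj (f₀ ω) * f₀ ω)).re ≤ ‖a‖ ^ 2 * 1 :=
    mul_le_mul_of_nonneg_left h6 (sq_nonneg _)
  linarith

/-- **VDCA3.** Van der Corput. Proof. With `N = H + 1` and shift invariance
`𝔪 (e n E (f₀ v n)) = 𝔪_n (E (f₀ w n))`, `w n = (1 / N) ∑ h < N, e (n + h) v (n + h)`. By VDCA1, VDCA2 and
monotonicity (`InvMean.re_nonneg`)
`|𝔪 (e n E (f₀ v n))|² ≤ 𝔪_n |E (f₀ w n)|² ≤ 𝔪_n E |w n|² = (1 / N²) ∑ h k, 𝔪_n (e (n + h) conj (e (n + k)) E (v (n + h) conj (v (n + k))))`.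
All sequences are bounded: `hvb` (a uniform bound `1` of the `v n`). -/
theorem vdc_step (𝔪 : InvMean) {Ω : Type} (S : MeanSys Ω) {f₀ : Ω → ℂ} (hf₀ : S.M f₀)
    (h1 : ∀ ω, ‖f₀ ω‖ ≤ 1) {v : ℤ → Ω → ℂ} (hv : ∀ n, S.M (v n)) (hvb : ∀ n ω, ‖v n ω‖ ≤ 1)
    {e : ℤ → ℂ} (he : ∀ n, ‖e n‖ ≤ 1) (H : ℕ) :
    ‖𝔪.toFun fun n => e n * S.E fun ω => f₀ ω * v n ω‖ ^ 2 ≤
      (∑ h ∈ Finset.range (H + 1), ∑ k ∈ Finset.range (H + 1),
        ‖𝔪.toFun fun n : ℤ => (e (n + h) * conj (e (n + k))) *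
          S.E fun ω => v (n + h) ω * conj (v (n + k) ω)‖) / ((H : ℝ) + 1) ^ 2 := by
  have hN : ((H : ℂ) + 1) ≠ 0 := by
    have : ((H + 1 : ℕ) : ℂ) ≠ 0 := Nat.cast_ne_zero.2 (Nat.succ_ne_zero H)
    push_cast at this
    exact this
  have hmf : ∀ n, S.M (fun ω => f₀ ω * v n ω) := fun n => S.mmul _ _ hf₀ (hv n)
  have hmv : ∀ n k, S.M (fun ω => v n ω * conj (v k ω)) := fun n k =>
    S.mmul _ _ (hv n) (S.mconj _ (hv k))
  have hbf : ∀ n, ‖S.E (fun ω => f₀ ω * v n ω)‖ ≤ 1 := fun n =>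
    S.Ebound _ _ (hmf n) fun ω => by
      rw [norm_mul]
      exact mul_le_one₀ (h1 ω) (norm_nonneg _) (hvb n ω)
  have hbv : ∀ n k, ‖S.E (fun ω => v n ω * conj (v k ω))‖ ≤ 1 := fun n k =>
    S.Ebound _ _ (hmv n k) fun ω => by
      rw [norm_mul, RCLike.norm_conj]
      exact mul_le_one₀ (hvb n ω) (norm_nonneg _) (hvb k ω)
  have hub : Bdd (fun n => e n * S.E fun ω => f₀ ω * v n ω) := ⟨1, fun n => by
    rw [norm_mul]
    exact mul_le_one₀ (he n) (norm_nonneg _) (hbf n)⟩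
  -- the averaged function
  let w : ℤ → Ω → ℂ := fun n ω =>
    ∑ h ∈ Finset.range (H + 1), (((H : ℂ) + 1)⁻¹ * e (n + (h : ℤ))) * v (n + (h : ℤ)) ω
  have hw : ∀ n, S.M (w n) := fun n =>
    (S.Esum (Finset.range (H + 1)) (fun h : ℕ => ((H : ℂ) + 1)⁻¹ * e (n + (h : ℤ)))
      (fun h : ℕ => v (n + (h : ℤ))) (fun h _ => hv _)).1
  have hEw : ∀ n, S.E (fun ω => f₀ ω * w n ω) = ∑ h ∈ Finset.range (H + 1),
      ((H : ℂ) + 1)⁻¹ * (e (n + (h : ℤ)) * S.E fun ω => f₀ ω * v (n + (h : ℤ)) ω) := by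
    intro n
    have e1 : (fun ω => f₀ ω * w n ω) = fun ω => ∑ h ∈ Finset.range (H + 1),
        (((H : ℂ) + 1)⁻¹ * e (n + (h : ℤ))) * (f₀ ω * v (n + (h : ℤ)) ω) := by
      funext ω
      rw [Finset.mul_sum]
      refine Finset.sum_congr rfl fun h _ => ?_
      ring
    rw [e1, (S.Esum (Finset.range (H + 1)) (fun h : ℕ => ((H : ℂ) + 1)⁻¹ * e (n + (h : ℤ)))
      (fun h : ℕ => fun ω => f₀ ω * v (n + (h : ℤ)) ω) (fun h _ => hmf _)).2]
    refine Finset.sum_congr rfl fun h _ => ?_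
    ring
  have hmean : (𝔪.toFun fun n => S.E fun ω => f₀ ω * w n ω) =
      𝔪.toFun fun n => e n * S.E fun ω => f₀ ω * v n ω := by
    have e1 : (fun n => S.E fun ω => f₀ ω * w n ω) = fun n => ∑ h ∈ Finset.range (H + 1),
        ((H : ℂ) + 1)⁻¹ * (e (n + (h : ℤ)) * S.E fun ω => f₀ ω * v (n + (h : ℤ)) ω) := by
      funext n
      exact hEw n
    rw [e1, 𝔪.finset_sum (Finset.range (H + 1)) (fun _ => ((H : ℂ) + 1)⁻¹)
      (fun (h : ℕ) n => e (n + (h : ℤ)) * S.E fun ω => f₀ ω * v (n + (h : ℤ)) ω)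
      (fun h _ => hub.shift (h : ℤ))]
    have e2 : ∀ h ∈ Finset.range (H + 1), ((H : ℂ) + 1)⁻¹ *
        𝔪.toFun (fun n => e (n + (h : ℤ)) * S.E fun ω => f₀ ω * v (n + (h : ℤ)) ω) =
        ((H : ℂ) + 1)⁻¹ * 𝔪.toFun (fun n => e n * S.E fun ω => f₀ ω * v n ω) := by
      intro h _
      rw [𝔪.shift (fun n => e n * S.E fun ω => f₀ ω * v n ω) (h : ℤ) hub]
    rw [Finset.sum_congr rfl e2, Finset.sum_const, Finset.card_range, nsmul_eq_mul, ← mul_assoc]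
    push_cast
    rw [mul_inv_cancel₀ hN, one_mul]
  -- the quadratic form
  let P : Finset (ℕ × ℕ) := Finset.range (H + 1) ×ˢ Finset.range (H + 1)
  have hcN : conj (((H : ℂ) + 1)⁻¹) = ((H : ℂ) + 1)⁻¹ := by
    rw [map_inv₀, map_add, map_one, Complex.conj_natCast]
  have hG : ∀ n, S.E (fun ω => conj (w n ω) * w n ω) = ∑ p ∈ P,
      (((H : ℂ) + 1)⁻¹ * ((H : ℂ) + 1)⁻¹) * ((e (n + (p.1 : ℤ)) * conj (e (n + (p.2 : ℤ)))) *
        S.E fun ω => v (n + (p.1 : ℤ)) ω * conj (v (n + (p.2 : ℤ)) ω)) := by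
    intro n
    have e1 : (fun ω => conj (w n ω) * w n ω) = fun ω => ∑ p ∈ P,
        ((((H : ℂ) + 1)⁻¹ * e (n + (p.1 : ℤ))) * conj (((H : ℂ) + 1)⁻¹ * e (n + (p.2 : ℤ)))) *
          (v (n + (p.1 : ℤ)) ω * conj (v (n + (p.2 : ℤ)) ω)) := by
      funext ω
      rw [mul_comm, map_sum, Finset.sum_mul_sum, ← Finset.sum_product']
      refine Finset.sum_congr rfl fun p _ => ?_
      rw [map_mul]
      ring
    rw [e1, (S.Esum P (fun p : ℕ × ℕ => (((H : ℂ) + 1)⁻¹ * e (n + (p.1 : ℤ))) *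
        conj (((H : ℂ) + 1)⁻¹ * e (n + (p.2 : ℤ))))
      (fun p : ℕ × ℕ => fun ω => v (n + (p.1 : ℤ)) ω * conj (v (n + (p.2 : ℤ)) ω))
      (fun p _ => hmv _ _)).2]
    refine Finset.sum_congr rfl fun p _ => ?_
    rw [map_mul, hcN]
    ring
  have hbG : ∀ p : ℕ × ℕ, Bdd (fun n : ℤ => (e (n + (p.1 : ℤ)) * conj (e (n + (p.2 : ℤ)))) *
      S.E fun ω => v (n + (p.1 : ℤ)) ω * conj (v (n + (p.2 : ℤ)) ω)) := by
    intro p
    refine ⟨1, fun n => ?_⟩
    rw [norm_mul, norm_mul, RCLike.norm_conj]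
    exact mul_le_one₀ (mul_le_one₀ (he _) (norm_nonneg _) (he _)) (norm_nonneg _) (hbv _ _)
  have hGfun : (fun n => S.E (fun ω => conj (w n ω) * w n ω)) = fun n => ∑ p ∈ P,
      (((H : ℂ) + 1)⁻¹ * ((H : ℂ) + 1)⁻¹) * ((e (n + (p.1 : ℤ)) * conj (e (n + (p.2 : ℤ)))) *
        S.E fun ω => v (n + (p.1 : ℤ)) ω * conj (v (n + (p.2 : ℤ)) ω)) := by
    funext n
    exact hG n
  have hmG : 𝔪.toFun (fun n => S.E (fun ω => conj (w n ω) * w n ω)) = ∑ p ∈ P,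
      (((H : ℂ) + 1)⁻¹ * ((H : ℂ) + 1)⁻¹) * 𝔪.toFun (fun n =>
        (e (n + (p.1 : ℤ)) * conj (e (n + (p.2 : ℤ)))) *
        S.E fun ω => v (n + (p.1 : ℤ)) ω * conj (v (n + (p.2 : ℤ)) ω)) := by
    rw [hGfun, 𝔪.finset_sum P (fun _ => ((H : ℂ) + 1)⁻¹ * ((H : ℂ) + 1)⁻¹)
      (fun (p : ℕ × ℕ) n => (e (n + (p.1 : ℤ)) * conj (e (n + (p.2 : ℤ)))) *
        S.E fun ω => v (n + (p.1 : ℤ)) ω * conj (v (n + (p.2 : ℤ)) ω)) (fun p _ => hbG p)]
  have hbF : Bdd (fun n => S.E fun ω => f₀ ω * w n ω) := by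
    have e1 : (fun n => S.E fun ω => f₀ ω * w n ω) = fun n => ∑ h ∈ Finset.range (H + 1),
        ((H : ℂ) + 1)⁻¹ * (e (n + (h : ℤ)) * S.E fun ω => f₀ ω * v (n + (h : ℤ)) ω) := by
      funext n
      exact hEw n
    rw [e1]
    exact vdcA_bdd_sum _ (fun _ => ((H : ℂ) + 1)⁻¹)
      (fun (h : ℕ) n => e (n + (h : ℤ)) * S.E fun ω => f₀ ω * v (n + (h : ℤ)) ω)
      (fun h _ => hub.shift (h : ℤ))
  have hbGG : Bdd (fun n => S.E (fun ω => conj (w n ω) * w n ω)) := by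
    rw [hGfun]
    exact vdcA_bdd_sum _ (fun _ => ((H : ℂ) + 1)⁻¹ * ((H : ℂ) + 1)⁻¹)
      (fun (p : ℕ × ℕ) n => (e (n + (p.1 : ℤ)) * conj (e (n + (p.2 : ℤ)))) *
        S.E fun ω => v (n + (p.1 : ℤ)) ω * conj (v (n + (p.2 : ℤ)) ω)) (fun p _ => hbG p)
  -- the chain of inequalities
  have s1 := 𝔪.sq_le hbF
  rw [hmean] at s1
  have hbFF : Bdd (fun n => conj (S.E fun ω => f₀ ω * w n ω) * S.E fun ω => f₀ ω * w n ω) :=
    hbF.cj.mul hbF
  have s2 : (𝔪.toFun fun n => conj (S.E fun ω => f₀ ω * w n ω) * S.E fun ω => f₀ ω * w n ω).re ≤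
      (𝔪.toFun (fun n => S.E (fun ω => conj (w n ω) * w n ω))).re := by
    have t1 := 𝔪.re_nonneg (hbGG.add (hbFF.cmul (-1))) (fun n => by
      have t2 := S.sq_le hf₀ (hw n) h1
      have t3 : conj (S.E fun ω => f₀ ω * w n ω) * (S.E fun ω => f₀ ω * w n ω) =
          ((‖S.E fun ω => f₀ ω * w n ω‖ ^ 2 : ℝ) : ℂ) := by
        rw [← Complex.normSq_eq_norm_sq, Complex.normSq_eq_conj_mul_self]
      rw [t3, Complex.add_re, neg_one_mul, Complex.neg_re, Complex.ofReal_re]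
      linarith)
    rw [𝔪.add _ _ hbGG (hbFF.cmul (-1)), 𝔪.smul _ _ hbFF, Complex.add_re, neg_one_mul,
      Complex.neg_re] at t1
    linarith
  have s3 : (𝔪.toFun (fun n => S.E (fun ω => conj (w n ω) * w n ω))).re ≤
      (∑ h ∈ Finset.range (H + 1), ∑ k ∈ Finset.range (H + 1),
        ‖𝔪.toFun fun n : ℤ => (e (n + h) * conj (e (n + k))) *
          S.E fun ω => v (n + h) ω * conj (v (n + k) ω)‖) / ((H : ℝ) + 1) ^ 2 := by
    refine (Complex.re_le_norm _).trans ?_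
    rw [hmG, ← Finset.sum_product']
    refine (norm_sum_le _ _).trans ?_
    rw [Finset.sum_div]
    refine Finset.sum_le_sum fun p _ => ?_
    rw [norm_mul, norm_mul, norm_inv]
    have hn : ‖(H : ℂ) + 1‖ = (H : ℝ) + 1 := by
      have : ((H : ℂ) + 1) = (((H : ℝ) + 1 : ℝ) : ℂ) := by push_cast; rfl
      rw [this, Complex.norm_real, Real.norm_eq_abs, abs_of_nonneg (by positivity)]
    rw [hn]
    have hpos : (0 : ℝ) < (H : ℝ) + 1 := by positivity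
    rw [le_div_iff₀ (by positivity)]
    have : ((H : ℝ) + 1)⁻¹ * ((H : ℝ) + 1)⁻¹ * ‖𝔪.toFun (fun n =>
        (e (n + (p.1 : ℤ)) * conj (e (n + (p.2 : ℤ)))) *
        S.E fun ω => v (n + (p.1 : ℤ)) ω * conj (v (n + (p.2 : ℤ)) ω))‖ * ((H : ℝ) + 1) ^ 2 =
        ‖𝔪.toFun (fun n => (e (n + (p.1 : ℤ)) * conj (e (n + (p.2 : ℤ)))) *
        S.E fun ω => v (n + (p.1 : ℤ)) ω * conj (v (n + (p.2 : ℤ)) ω))‖ := by
      field_simp
    exact this.le
  exact s1.trans (s2.trans s3)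

end Pool.Agent.Nil820

end

/-! ### Part `TrVdcB` -/

section

/-! # Piece TR-VDCB: correlation sequences are controlled by the quantities `InvMean.q` -/

open scoped ComplexConjugate Topology ENNReal
open MeasureTheory Filter

namespace Pool.Agent.Nil820

theorem vdcB_mul {Ω : Type} {S : MeanSys Ω} {T T' : Equiv.Perm Ω} (h : S.Pres T) (h' : S.Pres T') :
    S.Pres (T * T') where
  meas f hf := h'.meas _ (h.meas f hf)
  meas_symm f hf := h.meas_symm _ (h'.meas_symm f hf)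
  pres f hf := (h'.pres _ (h.meas f hf)).trans (h.pres f hf)

theorem vdcB_inv {Ω : Type} {S : MeanSys Ω} {T : Equiv.Perm Ω} (h : S.Pres T) : S.Pres T⁻¹ where
  meas f hf := h.meas_symm f hf
  meas_symm f hf := h.meas f hf
  pres f hf := by
    have h1 := h.pres _ (h.meas_symm f hf)
    have h2 : (fun ω => f (T.symm (T ω))) = f := by
      funext ω
      rw [Equiv.symm_apply_apply]
    rw [h2] at h1
    exact h1.symm

/-- **VDCB.** Proof. Induction on `l`. `l = 0`: the product is empty and `|E f₀| ≤ 1` (`MeanSys.Ebound`), `𝔪 (e n c) = c 𝔪 e`.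
`l + 1`: let `v n = ∏ i, f i ∘ T i ^ n`. By `vdc_step` for every `H`
`|𝔪 (e b)|² ≤ (1 / N²) ∑ h k, |𝔪_n (e_{h,k} n * E (v (n + h) conj (v (n + k))))|` and
`v (n + h) ω * conj (v (n + k) ω) = ∏ i, g i (T i ^ n ω)` with `g i ω = f i (T i ^ h ω) * conj (f i (T i ^ k ω))`.
Apply the invariance of `E` under `T 0 ^ (-n)` (`MeanSys.Pres.pres_zpow`): the expectation is
`E (g 0 ω * ∏ i : Fin l, g i.succ ((T i.succ * (T 0)⁻¹) ^ n ω))` (`Fin.prod_univ_succ`; the `T i` commute, so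
`(T i * (T 0)⁻¹) ^ n = T i ^ n * T 0 ^ (-n)`, `Commute.mul_zpow`). The transformations `T i.succ * (T 0)⁻¹` are
automorphisms of `S` and commute, so by the induction hypothesis (for `e_{h,k}`, bounded by one)
`|𝔪_n (...)| ^ (2 ^ l) ≤ 𝔪.q l e_{h,k}`. By Jensen's inequality for the power `2 ^ l`
(`inner_le_nnorm_mul_nnorm` is not needed; `Real.pow_arith_mean_le_arith_mean_pow`) the power `2 ^ l` of the
average is at most the average of the powers, so `|𝔪 (e b)| ^ (2 ^ (l + 1)) ≤ (1 / N²) ∑ h k, 𝔪.q l e_{h,k}` for every `H`; take the infimum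
(`le_ciInf`). -/
theorem vdc_corr (𝔪 : InvMean) : ∀ (l : ℕ) {Ω : Type} (S : MeanSys Ω) (T : Fin l → Equiv.Perm Ω)
    (_ : ∀ i, S.Pres (T i)) (_ : ∀ i j, T i * T j = T j * T i) {f₀ : Ω → ℂ} (_ : S.M f₀)
    (_ : ∀ ω, ‖f₀ ω‖ ≤ 1) {f : Fin l → Ω → ℂ} (_ : ∀ i, S.M (f i)) (_ : ∀ i ω, ‖f i ω‖ ≤ 1)
    {e : ℤ → ℂ} (_ : ∀ n, ‖e n‖ ≤ 1),
    ‖𝔪.toFun fun n => e n * S.E fun ω => f₀ ω * ∏ i, f i ((T i ^ n) ω)‖ ^ (2 ^ l) ≤ 𝔪.q l e := by
  intro l
  induction l with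
  | zero =>
    intro Ω S T _ _ f₀ hf₀ hb₀ f _ _ e he
    have hbe : Bdd e := ⟨1, he⟩
    have h1 : (𝔪.toFun fun n => e n * S.E fun ω => f₀ ω * ∏ i : Fin 0, f i ((T i ^ n) ω)) =
        S.E f₀ * 𝔪.toFun e := by
      rw [← 𝔪.smul _ _ hbe]
      congr 1
      funext n
      simp only [Finset.univ_eq_empty, Finset.prod_empty, mul_one]
      rw [mul_comm]
    rw [h1, pow_zero, pow_one, norm_mul]
    have h2 : ‖S.E f₀‖ ≤ 1 := S.Ebound _ _ hf₀ hb₀
    have h3 : 𝔪.q 0 e = ‖𝔪.toFun e‖ := rfl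
    rw [h3]
    calc ‖S.E f₀‖ * ‖𝔪.toFun e‖ ≤ 1 * ‖𝔪.toFun e‖ := mul_le_mul_of_nonneg_right h2 (norm_nonneg _)
      _ = _ := one_mul _
  | succ l ih =>
    intro Ω S T hT hcomm f₀ hf₀ hb₀ f hf hb e he
    have hc : ∀ i j, Commute (T i) (T j) := fun i j => hcomm i j
    let v : ℤ → Ω → ℂ := fun n ω => ∏ i, f i ((T i ^ n) ω)
    have hvM : ∀ n, S.M (v n) := fun n =>
      S.mprod Finset.univ (fun i ω => f i ((T i ^ n) ω)) fun i _ => (hT i).meas_zpow n (hf i)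
    have hvb : ∀ n ω, ‖v n ω‖ ≤ 1 := fun n ω => by
      simp only [v, norm_prod]
      exact Finset.prod_le_one (fun i _ => norm_nonneg _) fun i _ => hb i _
    let g : ℕ → ℕ → Fin (l + 1) → Ω → ℂ := fun h k i ω =>
      f i ((T i ^ (h : ℤ)) ω) * conj (f i ((T i ^ (k : ℤ)) ω))
    have hgM : ∀ h k i, S.M (g h k i) := fun h k i =>
      S.mmul _ _ ((hT i).meas_zpow _ (hf i)) (S.mconj _ ((hT i).meas_zpow _ (hf i)))
    have hgb : ∀ h k i ω, ‖g h k i ω‖ ≤ 1 := fun h k i ω => by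
      simp only [g, norm_mul, RCLike.norm_conj]
      exact mul_le_one₀ (hb _ _) (norm_nonneg _) (hb _ _)
    have hsplit : ∀ (i : Fin (l + 1)) (n m : ℤ) (x : Ω), (T i ^ (n + m)) x = (T i ^ m) ((T i ^ n) x) := by
      intro i n m x
      rw [add_comm n m, zpow_add, Equiv.Perm.mul_apply]
    have hvv : ∀ (h k : ℕ) (n : ℤ) (ω : Ω), v (n + h) ω * conj (v (n + k) ω) =
        ∏ i, g h k i ((T i ^ n) ω) := by
      intro h k n ω
      simp only [v, g, map_prod, ← Finset.prod_mul_distrib]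
      refine Finset.prod_congr rfl fun i _ => ?_
      rw [hsplit, hsplit]
    have hzero : ∀ (n : ℤ) (ω : Ω), (T 0 ^ n) ((T 0 ^ (-n)) ω) = ω := by
      intro n ω
      rw [← Equiv.Perm.mul_apply, ← zpow_add, add_neg_cancel, zpow_zero]
      rfl
    have hkey : ∀ (h k : ℕ) (n : ℤ), S.E (fun ω => v (n + h) ω * conj (v (n + k) ω)) =
        S.E (fun ω => g h k 0 ω * ∏ i : Fin l, g h k i.succ (((T i.succ * (T 0)⁻¹) ^ n) ω)) := by
      intro h k n
      have hM : S.M (fun ω => v (n + h) ω * conj (v (n + k) ω)) := S.mmul _ _ (hvM _) (S.mconj _ (hvM _))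
      rw [← (hT 0).pres_zpow (-n) hM]
      congr 1
      funext ω
      rw [hvv, Fin.prod_univ_succ, hzero]
      congr 1
      refine Finset.prod_congr rfl fun i _ => ?_
      have h1 : (T i.succ * (T 0)⁻¹) ^ n = T i.succ ^ n * T 0 ^ (-n) := by
        rw [((hc i.succ 0).inv_right).mul_zpow, inv_zpow']
      rw [h1, Equiv.Perm.mul_apply]
    have hstep : ∀ h k : ℕ, ‖𝔪.toFun fun n : ℤ => (e (n + h) * conj (e (n + k))) *
          S.E fun ω => v (n + h) ω * conj (v (n + k) ω)‖ ^ (2 ^ l) ≤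
        𝔪.q l (fun n : ℤ => e (n + h) * conj (e (n + k))) := by
      intro h k
      have h1 := ih S (fun i : Fin l => T i.succ * (T 0)⁻¹)
        (fun i => vdcB_mul (hT _) (vdcB_inv (hT _)))
        (fun i j => by
          have h2 : Commute (T i.succ * (T 0)⁻¹) (T j.succ * (T 0)⁻¹) := by
            apply Commute.mul_left
            · exact (hc _ _).mul_right ((hc _ _).inv_right)
            · exact ((hc _ _).inv_left).mul_right (Commute.refl _)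
          exact h2)
        (hgM h k 0) (hgb h k 0) (fun i => hgM h k i.succ) (fun i => hgb h k i.succ)
        (e := fun n : ℤ => e (n + h) * conj (e (n + k)))
        (fun n => by
          rw [norm_mul, RCLike.norm_conj]
          exact mul_le_one₀ (he _) (norm_nonneg _) (he _))
      simp only [hkey]
      exact h1
    have hq : 𝔪.q (l + 1) e = ⨅ H : ℕ, (∑ h ∈ Finset.range (H + 1), ∑ k ∈ Finset.range (H + 1),
      𝔪.q l (fun n : ℤ => e (n + h) * conj (e (n + k)))) / ((H : ℝ) + 1) ^ 2 := rfl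
    rw [hq]
    refine le_ciInf fun H => ?_
    have hv := vdc_step 𝔪 S hf₀ hb₀ hvM hvb he H
    have hN : (0 : ℝ) < ((H : ℝ) + 1) ^ 2 := by positivity
    have hJ := Real.pow_arith_mean_le_arith_mean_pow
      (Finset.range (H + 1) ×ˢ Finset.range (H + 1)) (fun _ => 1 / ((H : ℝ) + 1) ^ 2)
      (fun p : ℕ × ℕ => ‖𝔪.toFun fun n : ℤ => (e (n + p.1) * conj (e (n + p.2))) *
          S.E fun ω => v (n + p.1) ω * conj (v (n + p.2) ω)‖)
      (fun _ _ => by positivity)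
      (by
        rw [Finset.sum_const, Finset.card_product, Finset.card_range, nsmul_eq_mul]
        push_cast
        field_simp)
      (fun _ _ => norm_nonneg _) (2 ^ l)
    rw [← Finset.mul_sum, Finset.sum_product] at hJ
    have h5 : ‖𝔪.toFun fun n => e n * S.E fun ω => f₀ ω * v n ω‖ ^ (2 ^ (l + 1)) ≤
        ((∑ h ∈ Finset.range (H + 1), ∑ k ∈ Finset.range (H + 1),
        ‖𝔪.toFun fun n : ℤ => (e (n + h) * conj (e (n + k))) *
          S.E fun ω => v (n + h) ω * conj (v (n + k) ω)‖) / ((H : ℝ) + 1) ^ 2) ^ (2 ^ l) := by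
      have h6 : (2 : ℕ) ^ (l + 1) = 2 * 2 ^ l := by ring
      rw [h6, pow_mul]
      exact pow_le_pow_left₀ (by positivity) hv _
    refine h5.trans ?_
    have h7 : (∑ h ∈ Finset.range (H + 1), ∑ k ∈ Finset.range (H + 1),
        ‖𝔪.toFun fun n : ℤ => (e (n + h) * conj (e (n + k))) *
          S.E fun ω => v (n + h) ω * conj (v (n + k) ω)‖) / ((H : ℝ) + 1) ^ 2 =
        1 / ((H : ℝ) + 1) ^ 2 * ∑ h ∈ Finset.range (H + 1), ∑ k ∈ Finset.range (H + 1),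
        ‖𝔪.toFun fun n : ℤ => (e (n + h) * conj (e (n + k))) *
          S.E fun ω => v (n + h) ω * conj (v (n + k) ω)‖ := by
      rw [div_eq_mul_inv, one_div, mul_comm]
    rw [h7]
    refine hJ.trans ?_
    rw [← Finset.mul_sum, Finset.sum_product, one_div, ← div_eq_inv_mul]
    refine div_le_div_of_nonneg_right ?_ hN.le
    exact Finset.sum_le_sum fun h _ => Finset.sum_le_sum fun k _ => hstep h k

end Pool.Agent.Nil820

end
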