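import Pool.Agent.Lib_HK.TrLink
import Pool.Agent.Lib_HK.TrErgB
import Pool.Agent.Lib_HK.TrVdcB
import Pool.Agent.Lib_HK.TrBirk
import Pool.Agent.Lib_HK.TrContra

/-! ### Part `TrAsm` -/

section

/-! # Part 0 (transfer): assembly -/

open scoped ComplexConjugate Topology ENNReal
open MeasureTheory Filter

namespace Pool.Agent.Nil820

/-- If the structure theorem holds for `s`, a sequence which is uniformly orthogonal to all `s`-step
nilsequences has `𝔪.q s e = 0` for every extreme invariant mean. -/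
theorem q_eq_zero_of_orth {s : ℕ} (hstr : StrThm s) {𝔪 : InvMean} (h𝔪 : 𝔪.Extreme) {e : KSp}
    (he : Orth {ψ | Nilseq s ψ} (fun m => (e m : ℂ))) : 𝔪.q s (fun m => (e m : ℂ)) ≤ 0 := by
  by_contra hq
  push Not at hq
  obtain ⟨ν, hν⟩ := exists_rep 𝔪 e
  have : IsProbabilityMeasure ν := hν.prob
  have herg : Ergodic shK ν := ergodic_of_extreme h𝔪 hν
  have h1 := q_le_hkq hν s ⟨crd, continuous_crd⟩ norm_crd_le
  have h2 : (fun n => (⟨crd, continuous_crd⟩ : C(KSp, ℂ)) (orb e n)) = fun m => (e m : ℂ) := by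
    funext n
    exact crd_orb e n
  rw [h2] at h1
  have h3 : 0 < hkq ν shK s crd := by
    by_contra h4
    push Not at h4
    have h5 : Real.sqrt (hkq ν shK s crd) = 0 := Real.sqrt_eq_zero_of_nonpos h4
    change 𝔪.q s (fun m => (e m : ℂ)) ≤ 2 ^ s * Real.sqrt (hkq ν shK s crd) at h1
    rw [h5, mul_zero] at h1
    exact absurd h1 (not_le.2 hq)
  obtain ⟨Q, j1, ρ, j2, S, p, hS, hp, hpS, V, i1, i2, i3, G, i4, i5, i6, i7, i8, i9, Γ, g, π, F,
    n1, n2, n3, hπ, hT, hne⟩ :=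
    hstr KSp ν shK herg crd continuous_crd.measurable norm_crd_le h3
  have hCF : ∃ C : ℝ, ∀ z, ‖F z‖ ≤ C := by
    obtain ⟨C, hC⟩ := isCompact_univ.exists_bound_of_continuousOn F.continuous.continuousOn
    exact ⟨C, fun z => hC z (Set.mem_univ z)⟩
  obtain ⟨C, hC⟩ := hCF
  have h6 := birkhoff_complex (C := C) hS (φ := fun q => crd (p q) * F (π q))
    ((continuous_crd.measurable.comp hp.measurable).mul (hπ F)) (fun q => by
      rw [norm_mul]
      have h7 := norm_crd_le (p q)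
      have h8 := hC (π q)
      have h9 := norm_nonneg (F (π q))
      have h10 := norm_nonneg (crd (p q))
      nlinarith)
  have h7 : ∀ᵐ q ∂ρ, ∀ n : ℕ, π (S (S^[n] q)) = g • π (S^[n] q) := by
    rw [ae_all_iff]
    intro n
    exact (hS.toMeasurePreserving.iterate n).quasiMeasurePreserving.ae hT
  have h7' : ∀ᵐ q ∂ρ, ∀ n : ℕ, p (S (S^[n] q)) = shK (p (S^[n] q)) := by
    rw [ae_all_iff]
    intro n
    exact (hS.toMeasurePreserving.iterate n).quasiMeasurePreserving.ae hpS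
  have h8 := hp.quasiMeasurePreserving.ae (ae_mem_closure hν)
  obtain ⟨q, hx6, hx7, hx7', hx8⟩ := (h6.and (h7.and (h7'.and h8))).exists
  have h9 : ∀ n : ℕ, π (S^[n] q) = g ^ (n : ℤ) • π q := by
    intro n
    induction n with
    | zero => simp
    | succ n ih =>
      rw [Function.iterate_succ_apply', hx7 n, ih, smul_smul]
      congr 1
      push_cast
      rw [zpow_add_one, zpow_natCast]
      exact (pow_succ' g n).symm.trans (pow_succ g n)
  have h9' : ∀ n : ℕ, p (S^[n] q) = shK^[n] (p q) := by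
    intro n
    induction n with
    | zero => rfl
    | succ n ih =>
      rw [Function.iterate_succ_apply', hx7' n, ih, Function.iterate_succ_apply']
  refine orth_contra (V := V) Γ g n1 n2 n3 F he hx8 (π q) hne ?_
  refine hx6.congr fun N => ?_
  congr 1
  refine Finset.sum_congr rfl fun n _ => ?_
  rw [h9 n, h9' n, crd, iterate_shK, zero_add]

theorem InvMean.toFun_sub (𝔪 : InvMean) {f g : ℤ → ℂ} (hf : Bdd f) (hg : Bdd g) :
    𝔪.toFun (fun m => f m - g m) = 𝔪.toFun f - 𝔪.toFun g := by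
  have h1 : (fun m => f m - g m) = fun m => f m + (-1 : ℂ) * g m := by
    funext m
    ring
  rw [h1, 𝔪.add _ _ hf (hg.cmul _), 𝔪.smul _ _ hg]
  ring

/-- A sequence which is not uniformly null has positive square mean for an extreme mean. -/
theorem exists_extreme_sq {e : ℤ → ℂ} (he : Bdd e) (h : ¬ UNull e) :
    ∃ 𝔪 : InvMean, 𝔪.Extreme ∧ 0 < (𝔪.toFun fun m => conj (e m) * e m).re := by
  obtain ⟨𝔪, h𝔪⟩ := exists_mean_of_not_uzero he.norm h
  have h1 := 𝔪.sq_le he.norm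
  have h2 : (fun n => conj (((‖e n‖ : ℝ)) : ℂ) * ((‖e n‖ : ℝ) : ℂ)) =
      fun m => conj (e m) * e m := by
    funext m
    rw [Complex.conj_ofReal, ← Complex.normSq_eq_conj_mul_self, Complex.normSq_eq_norm_sq]
    push_cast
    ring
  rw [h2] at h1
  have h3 : 0 < ‖𝔪.toFun fun m => ((‖e m‖ : ℝ) : ℂ)‖ ^ 2 := by
    have := norm_pos_iff.2 h𝔪
    positivity
  exact exists_extreme (he.cj.mul he) 𝔪 (h3.trans_le h1)

/-- **Transfer theorem.** -/
theorem transfer {l : ℕ} (hstr : StrThm l) {Ω : Type} (S : MeanSys Ω) (T : Fin l → Equiv.Perm Ω)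
    (hT : ∀ i, S.Pres (T i)) (hc : ∀ i j, T i * T j = T j * T i) {f₀ : Ω → ℂ} (hf₀ : S.M f₀)
    {f : Fin l → Ω → ℂ} (hf : ∀ i, S.M (f i)) :
    DecNull {ψ | Nilseq l ψ} (fun m => S.E (fun ω => f₀ ω * ∏ i, f i ((T i ^ m) ω))) := by
  have hA := nilseq_seqAlg l
  obtain ⟨N, hN, he⟩ := corr_dec hA (nil_weightSys l) S T hT hc hf₀ hf
  refine ⟨N, hN, ?_⟩
  by_contra hnull
  set a : ℤ → ℂ := fun m => S.E (fun ω => f₀ ω * ∏ i, f i ((T i ^ m) ω)) with ha
  -- bounds
  have hbd : ∀ g : Ω → ℂ, S.M g → ∃ C : ℝ, 0 < C ∧ ∀ ω, ‖g ω‖ ≤ C := by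
    intro g hg
    obtain ⟨C, hC⟩ := S.bdd g hg
    exact ⟨|C| + 1, by positivity, fun ω => (hC ω).trans ((le_abs_self C).trans (by linarith))⟩
  obtain ⟨C₀, hC₀0, hC₀⟩ := hbd f₀ hf₀
  choose C hC0 hC using fun i => hbd (f i) (hf i)
  have hM : ∀ m : ℤ, S.M (fun ω => f₀ ω * ∏ i, f i ((T i ^ m) ω)) := fun m =>
    S.mmul _ _ hf₀ (S.mprod Finset.univ (fun i ω => f i ((T i ^ m) ω))
      fun i _ => (hT i).meas_zpow m (hf i))
  have hab : Bdd a := by
    refine ⟨C₀ * ∏ i, C i, fun m => S.Ebound _ _ (hM m) fun ω => ?_⟩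
    rw [norm_mul, norm_prod]
    exact mul_le_mul (hC₀ ω) (Finset.prod_le_prod (fun i _ => norm_nonneg _)
      fun i _ => hC i _) (Finset.prod_nonneg fun i _ => norm_nonneg _) hC₀0.le
  have hNb : Bdd N := hA.bdd N hN
  set e₁ : ℤ → ℂ := fun m => a m - N m with he₁
  have he₁b : Bdd e₁ := hab.sub hNb
  obtain ⟨𝔪, hext, hpos⟩ := exists_extreme_sq he₁b hnull
  -- the mean of `e₁ * conj a`
  have h1 : 𝔪.toFun (fun m => conj (N m) * e₁ m) = 0 :=
    𝔪.eq_zero_of_uzero (hNb.cj.mul he₁b) (he _ (hA.cj N hN))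
  have h2 : 𝔪.toFun (fun m => e₁ m * conj (a m)) ≠ 0 := by
    intro h0
    have h3 : (fun m => conj (e₁ m) * e₁ m) =
        fun m => (e₁ m * conj (a m)) - (conj (N m) * e₁ m) := by
      funext m
      rw [he₁]
      simp only [map_sub]
      ring
    rw [h3, 𝔪.toFun_sub (he₁b.mul hab.cj) (hNb.cj.mul he₁b), h0, h1] at hpos
    simp at hpos
  -- normalization
  obtain ⟨B, hB0, hB⟩ := he₁b.nonneg
  have hK : 0 < B + 1 := by linarith
  have heb : ∀ m, ‖((B + 1 : ℝ) : ℂ)⁻¹ * e₁ m‖ ≤ 1 := by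
    intro m
    rw [norm_mul, norm_inv, Complex.norm_real, Real.norm_of_nonneg hK.le,
      inv_mul_le_iff₀ hK, mul_one]
    linarith [hB m]
  set e : KSp := fun m => ⟨((B + 1 : ℝ) : ℂ)⁻¹ * e₁ m, by
    rw [mem_closedBall_zero_iff]
    exact heb m⟩ with hedef
  have heo : Orth {ψ | Nilseq l ψ} (fun m => (e m : ℂ)) := he.cmul _
  have hf₀' : S.M fun ω => ((C₀ : ℂ))⁻¹ * conj (f₀ ω) :=
    S.mmul _ _ (S.mconst _) (S.mconj _ hf₀)
  have hf' : ∀ i, S.M fun ω => ((C i : ℂ))⁻¹ * conj (f i ω) := fun i =>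
    S.mmul _ _ (S.mconst _) (S.mconj _ (hf i))
  have hnorm : ∀ {c : ℝ} {z : ℂ}, 0 < c → ‖z‖ ≤ c → ‖(c : ℂ)⁻¹ * conj z‖ ≤ 1 := by
    intro c z hc0 hz
    rw [norm_mul, norm_inv, Complex.norm_real, Real.norm_of_nonneg hc0.le, RCLike.norm_conj,
      inv_mul_le_iff₀ hc0, mul_one]
    exact hz
  have h4 := vdc_corr 𝔪 l S T hT hc hf₀' (fun ω => hnorm hC₀0 (hC₀ ω))
    (f := fun i ω => ((C i : ℂ))⁻¹ * conj (f i ω)) hf' (fun i ω => hnorm (hC0 i) (hC i ω))
    (e := fun m => (e m : ℂ)) heb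
  have h5 : (fun n : ℤ => (e n : ℂ) * S.E fun ω => (((C₀ : ℂ))⁻¹ * conj (f₀ ω)) *
      ∏ i, ((C i : ℂ))⁻¹ * conj (f i ((T i ^ n) ω))) =
      fun n => (((B + 1 : ℝ) : ℂ)⁻¹ * ((C₀ : ℂ))⁻¹ * ∏ i, ((C i : ℂ))⁻¹) *
        (e₁ n * conj (a n)) := by
    funext n
    have h6 : (fun ω => (((C₀ : ℂ))⁻¹ * conj (f₀ ω)) *
        ∏ i, ((C i : ℂ))⁻¹ * conj (f i ((T i ^ n) ω))) =
        fun ω => (((C₀ : ℂ))⁻¹ * ∏ i, ((C i : ℂ))⁻¹) *
          conj (f₀ ω * ∏ i, f i ((T i ^ n) ω)) := by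
      funext ω
      rw [Finset.prod_mul_distrib, map_mul, map_prod]
      ring
    rw [h6, S.Esmul _ _ (S.mconj _ (hM n)), S.Econj _ (hM n)]
    change (((B + 1 : ℝ) : ℂ)⁻¹ * e₁ n) * _ = _
    ring
  rw [h5, 𝔪.smul _ _ (he₁b.mul hab.cj)] at h4
  have h6 : 0 < ‖(((B + 1 : ℝ) : ℂ)⁻¹ * ((C₀ : ℂ))⁻¹ * ∏ i, ((C i : ℂ))⁻¹) *
      𝔪.toFun fun n => e₁ n * conj (a n)‖ ^ (2 ^ l) := by
    refine pow_pos (norm_pos_iff.2 (mul_ne_zero (mul_ne_zero (mul_ne_zero ?_ ?_) ?_) h2)) _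
    · exact inv_ne_zero (by exact_mod_cast hK.ne')
    · exact inv_ne_zero (by exact_mod_cast hC₀0.ne')
    · exact Finset.prod_ne_zero_iff.2 fun i _ => inv_ne_zero (by exact_mod_cast (hC0 i).ne')
  exact absurd (h6.trans_le h4) (not_lt.2 (q_eq_zero_of_orth hstr hext heo))

end Pool.Agent.Nil820

end

/-! ### Part `TrFin` -/

section

/-! # Part 0 (transfer): the nil-decomposition, given the structure theorem -/

open scoped ComplexConjugate Topology ENNReal
open MeasureTheory Filter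

namespace Pool.Agent.Nil820

/-- Correlation sequences of functions in `L^∞` (two-sided). -/
theorem corrNull_meas {l : ℕ} (hstr : StrThm l) {X : Type} [MeasurableSpace X] (μ : Measure X)
    [IsProbabilityMeasure μ] (T : Fin l → X ≃ᵐ X) (hT : ∀ i, MeasurePreserving (T i) μ μ)
    (hc : ∀ i j x, T i (T j x) = T j (T i x)) {f₀ : X → ℂ} (hf₀ : MemLp f₀ ∞ μ)
    {f : Fin l → X → ℂ} (hf : ∀ i, MemLp (f i) ∞ μ) :
    DecNull {ψ | Nilseq l ψ}
      (fun m => ∫ x, f₀ x * ∏ i, f i ((((T i).toEquiv : Equiv.Perm X) ^ m) x) ∂μ) := by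
  obtain ⟨g₀, hg₀, hfg₀⟩ := exists_bdd_meas μ hf₀
  choose g hg hfg using fun i => exists_bdd_meas μ (hf i)
  have h := transfer hstr (measSys μ) (fun i => ((T i).toEquiv : Equiv.Perm X))
    (fun i => measSys_pres μ (T i) (hT i))
    (fun i j => by
      ext x
      simpa using hc i j x) (f₀ := g₀) hg₀ (f := g) hg
  have he : (fun m : ℤ => ∫ x, f₀ x * ∏ i, f i ((((T i).toEquiv : Equiv.Perm X) ^ m) x) ∂μ)
      = fun m => (measSys μ).E
        (fun ω => g₀ ω * ∏ i, g i ((((T i).toEquiv : Equiv.Perm X) ^ m) ω)) := by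
    funext m
    refine integral_congr_ae ?_
    have h1 : ∀ᵐ x ∂μ, ∀ i, f i ((((T i).toEquiv : Equiv.Perm X) ^ m) x)
        = g i ((((T i).toEquiv : Equiv.Perm X) ^ m) x) := by
      rw [ae_all_iff]
      intro i
      exact (measPres_zpow μ (T i) (hT i) m).quasiMeasurePreserving.ae_eq_comp (hfg i)
    filter_upwards [hfg₀, h1] with x hx0 hx1
    rw [hx0]
    congr 1
    exact Finset.prod_congr rfl fun i _ => hx1 i
  rw [he]
  exact h

/-- **The nil-decomposition** (Q1 of the problem), given the structure theorem. -/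
theorem nil_decomposition {l : ℕ} (hstr : StrThm l) {X : Type} [MeasurableSpace X] (μ : Measure X)
    [IsProbabilityMeasure μ] (T : Fin l → X ≃ᵐ X) (hT : ∀ i, MeasurePreserving (T i) μ μ)
    (hc : ∀ i j x, T i (T j x) = T j (T i x)) (f₀ : X → ℂ) (hf₀ : MemLp f₀ ∞ μ)
    (f : Fin l → X → ℂ) (hf : ∀ i, MemLp (f i) ∞ μ) (a : ℕ → ℂ)
    (ha : ∀ n, a n = ∫ x, f₀ x * ∏ i, f i ((T i)^[n] x) ∂μ) :
    ∃ N e : ℕ → ℂ, IsNilsequence l N ∧ (∀ n, a n = N n + e n) ∧
      Tendsto (fun M : ℕ => (∑ n ∈ Finset.Icc 1 M, ‖e n‖) / M) atTop (𝓝 0) := by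
  obtain ⟨N, hN, he⟩ := corrNull_meas hstr μ T hT hc hf₀ hf
  have hN' : IsNilsequence l (fun n : ℕ => N n) := isNil_of_nilseq hN
  have hiter : ∀ (n : ℕ) (i : Fin l) (x : X),
      (((T i).toEquiv : Equiv.Perm X) ^ (n : ℤ)) x = (T i)^[n] x := by
    intro n i x
    rw [zpow_natCast, ← Equiv.Perm.iterate_eq_pow]
    rfl
  set b : ℤ → ℂ := fun m => ∫ x, f₀ x * ∏ i, f i ((((T i).toEquiv : Equiv.Perm X) ^ m) x) ∂μ
    with hb
  have hba : ∀ n : ℕ, b n = a n := by
    intro n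
    rw [ha, hb]
    simp only [hiter]
  refine ⟨fun n => N n, fun n => b n - N n, hN', fun n => by simp only [hba]; ring, ?_⟩
  rw [Metric.tendsto_atTop]
  intro ε hε
  obtain ⟨L, hL⟩ := he (ε / 2) (by positivity)
  refine ⟨max L 1, fun M hM => ?_⟩
  have h1 := hL M ((le_max_left _ _).trans hM) 1
  have h2 : (0 : ℝ) < M := by
    exact_mod_cast lt_of_lt_of_le Nat.one_pos ((le_max_right _ _).trans hM)
  have h3 : ∑ i ∈ Finset.range M, ((‖b (1 + i) - N (1 + i)‖ : ℝ) : ℂ) =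
      ((∑ n ∈ Finset.Icc 1 M, ‖b n - N n‖ : ℝ) : ℂ) := by
    rw [← Finset.Ico_add_one_right_eq_Icc, Finset.sum_Ico_eq_sum_range]
    push_cast
    simp
  rw [h3, Complex.norm_real, Real.norm_of_nonneg
    (Finset.sum_nonneg fun _ _ => norm_nonneg _)] at h1
  rw [Real.dist_eq, sub_zero, abs_of_nonneg
    (div_nonneg (Finset.sum_nonneg fun _ _ => norm_nonneg _) h2.le), div_lt_iff₀ h2]
  have h4 : ε / 2 * M < ε * M := by nlinarith
  exact h1.trans_lt h4

end Pool.Agent.Nil820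

end

/-! ### Part `Univ` -/

section

/-! # The nil-decomposition for probability spaces in an arbitrary universe

The correlation sequence of `(X, μ, T_1, ..., T_l)` is the correlation sequence of the shifts on
the space `A → Option (Fin l) → ℂ`, `A = ℤ^l` (written multiplicatively), for the image of `μ` under
`x ↦ (f_o (T^a x))_{a, o}`. -/

open scoped ComplexConjugate Topology ENNReal
open MeasureTheory Filter

namespace Pool.Agent.Nil820

universe u

theorem exists_bdd_meas_univ {X : Type u} [MeasurableSpace X] (μ : Measure X) {f : X → ℂ}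
    (hf : MemLp f ∞ μ) : ∃ g : X → ℂ, (Measurable g ∧ ∃ C : ℝ, ∀ x, ‖g x‖ ≤ C) ∧ f =ᵐ[μ] g := by
  have hm := hf.aestronglyMeasurable.aemeasurable
  have hb : ∀ᵐ x ∂μ, ‖f x‖ ≤ (eLpNormEssSup f μ).toReal := by
    have h1 := enorm_ae_le_eLpNormEssSup f μ
    have h2 : eLpNormEssSup f μ ≠ ∞ := by
      have := hf.eLpNorm_ne_top
      rwa [eLpNorm_exponent_top] at this
    filter_upwards [h1] with x hx
    have h3 := ENNReal.toReal_mono h2 hx
    rwa [toReal_enorm] at h3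
  set C : ℝ := (eLpNormEssSup f μ).toReal with hC
  have hC0 : 0 ≤ C := ENNReal.toReal_nonneg
  set g₀ := hm.mk f with hg₀
  have hg₀m : Measurable g₀ := hm.measurable_mk
  have hfg₀ : f =ᵐ[μ] g₀ := hm.ae_eq_mk
  set s : Set X := {x | ‖g₀ x‖ ≤ C} with hs
  have hsm : MeasurableSet s := measurableSet_le hg₀m.norm measurable_const
  refine ⟨s.indicator g₀, ⟨hg₀m.indicator hsm, C, ?_⟩, ?_⟩
  · intro x
    by_cases hx : x ∈ s
    · rw [Set.indicator_of_mem hx]
      exact hx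
    · rw [Set.indicator_of_notMem hx, norm_zero]
      exact hC0
  · filter_upwards [hfg₀, hb] with x h1 h2
    have hx : x ∈ s := by
      change ‖g₀ x‖ ≤ C
      rw [← h1]
      exact h2
    rw [Set.indicator_of_mem hx]
    exact h1

/-- the index group -/
abbrev AG (l : ℕ) : Type := Fin l → Multiplicative ℤ

/-- the generators -/
def AG.e {l : ℕ} (i : Fin l) : AG l := Pi.mulSingle i (Multiplicative.ofAdd 1)

/-- the universal space -/
abbrev YU (l : ℕ) : Type := AG l → Option (Fin l) → ℂ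

/-- the shifts -/
def shU {l : ℕ} (i : Fin l) : YU l ≃ᵐ YU l where
  toFun y := fun a => y (a * AG.e i)
  invFun y := fun a => y (a * (AG.e i)⁻¹)
  left_inv y := by
    funext a
    simp
  right_inv y := by
    funext a
    simp
  measurable_toFun := by
    refine measurable_pi_iff.2 fun a => ?_
    exact measurable_pi_apply _
  measurable_invFun := by
    refine measurable_pi_iff.2 fun a => ?_
    exact measurable_pi_apply _

theorem shU_apply {l : ℕ} (i : Fin l) (y : YU l) (a : AG l) : shU i y a = y (a * AG.e i) := rfl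

/-- an action of the index group by measurable maps -/
theorem exists_action {X : Type u} [MeasurableSpace X] {l : ℕ} (T : Fin l → X ≃ᵐ X)
    (hc : ∀ i j x, T i (T j x) = T j (T i x)) :
    ∃ P : AG l →* Equiv.Perm X, (∀ a, Measurable (P a)) ∧ ∀ i, P (AG.e i) = (T i).toEquiv := by
  let t : Fin l → Equiv.Perm X := fun i => (T i).toEquiv
  let ϕ : ∀ _ : Fin l, Multiplicative ℤ →* Equiv.Perm X := fun i => zpowersHom (Equiv.Perm X) (t i)
  have ht : ∀ i j, Commute (t i) (t j) := by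
    intro i j
    change t i * t j = t j * t i
    ext x
    exact hc i j x
  have hcomm : Pairwise fun i j => ∀ x y, Commute (ϕ i x) (ϕ j y) := by
    intro i j _ x y
    exact (ht i j).zpow_zpow _ _
  refine ⟨MonoidHom.noncommPiCoprod ϕ hcomm, ?_, ?_⟩
  · let M : Subgroup (Equiv.Perm X) :=
      { carrier := {p | Measurable p ∧ Measurable (p⁻¹ : Equiv.Perm X)}
        mul_mem' := by
          rintro p q ⟨h1, h2⟩ ⟨h3, h4⟩
          refine ⟨h1.comp h3, ?_⟩
          rw [mul_inv_rev]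
          exact h4.comp h2
        one_mem' := by
          refine ⟨measurable_id, ?_⟩
          rw [inv_one]
          exact measurable_id
        inv_mem' := by
          rintro p ⟨h1, h2⟩
          refine ⟨h2, ?_⟩
          rw [inv_inv]
          exact h1 }
    have hM : ∀ i, t i ∈ M := fun i => ⟨(T i).measurable, (T i).symm.measurable⟩
    intro a
    have h1 : MonoidHom.noncommPiCoprod ϕ hcomm a ∈ M := by
      have h2 : (MonoidHom.noncommPiCoprod ϕ hcomm).range ≤ M := by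
        rw [MonoidHom.noncommPiCoprod_range]
        refine iSup_le fun i => ?_
        rintro _ ⟨z, rfl⟩
        change (t i) ^ (Multiplicative.toAdd z) ∈ M
        exact M.zpow_mem (hM i) _
      exact h2 ⟨a, rfl⟩
    exact h1.1
  · intro i
    rw [AG.e, MonoidHom.noncommPiCoprod_mulSingle]
    change (t i) ^ (Multiplicative.toAdd (Multiplicative.ofAdd (1 : ℤ))) = t i
    rw [toAdd_ofAdd, zpow_one]

/-- **The nil-decomposition** (Q1 of the problem) in every universe, given the structure theorem. -/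
theorem nil_decomposition_univ {l : ℕ} (hstr : StrThm l) {X : Type u} [MeasurableSpace X]
    (μ : Measure X) [IsProbabilityMeasure μ] (T : Fin l → X ≃ᵐ X)
    (hT : ∀ i, MeasurePreserving (T i) μ μ)
    (hc : ∀ i j x, T i (T j x) = T j (T i x)) (f₀ : X → ℂ) (hf₀ : MemLp f₀ ∞ μ)
    (f : Fin l → X → ℂ) (hf : ∀ i, MemLp (f i) ∞ μ) (a : ℕ → ℂ)
    (ha : ∀ n, a n = ∫ x, f₀ x * ∏ i, f i ((T i)^[n] x) ∂μ) :
    ∃ N e : ℕ → ℂ, IsNilsequence l N ∧ (∀ n, a n = N n + e n) ∧
      Tendsto (fun M : ℕ => (∑ n ∈ Finset.Icc 1 M, ‖e n‖) / M) atTop (𝓝 0) := by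
  obtain ⟨P, hP, hPe⟩ := exists_action T hc
  obtain ⟨g₀, hg₀, hfg₀⟩ := exists_bdd_meas_univ μ hf₀
  choose g hg hfg using fun i => exists_bdd_meas_univ μ (hf i)
  let h : Option (Fin l) → X → ℂ := fun o => o.elim g₀ g
  have hh : ∀ o, Measurable (h o) ∧ ∃ C : ℝ, ∀ x, ‖h o x‖ ≤ C := by
    rintro (_ | i)
    · exact hg₀
    · exact hg i
  let Φ : X → YU l := fun x b o => h o (P b x)
  have hΦ : Measurable Φ := by
    refine measurable_pi_iff.2 fun b => measurable_pi_iff.2 fun o => ?_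
    exact (hh o).1.comp (hP b)
  have hΦT : ∀ i x, Φ (T i x) = shU i (Φ x) := by
    intro i x
    funext b o
    change h o (P b (T i x)) = h o (P (b * AG.e i) x)
    rw [map_mul, hPe]
    rfl
  have hΦn : ∀ i (n : ℕ) x, Φ ((T i)^[n] x) = (shU i)^[n] (Φ x) := by
    intro i n
    induction n with
    | zero => intro x; rfl
    | succ n ih =>
      intro x
      rw [Function.iterate_succ_apply, Function.iterate_succ_apply, ih, hΦT]
  have hν : IsProbabilityMeasure (μ.map Φ) := Measure.isProbabilityMeasure_map hΦ.aemeasurable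
  have hsh : ∀ i : Fin l, MeasurePreserving (shU i) (μ.map Φ) (μ.map Φ) := by
    intro i
    refine ⟨(shU i).measurable, ?_⟩
    rw [Measure.map_map (shU i).measurable hΦ]
    have h1 : (shU i : YU l → YU l) ∘ Φ = Φ ∘ (T i) := by
      funext x
      exact (hΦT i x).symm
    rw [h1, ← Measure.map_map hΦ (T i).measurable, (hT i).map_eq]
  have hcomm : ∀ (i j : Fin l) (y : YU l), shU i (shU j y) = shU j (shU i y) := by
    intro i j y
    funext b
    simp only [shU_apply]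
    rw [mul_assoc, mul_assoc, mul_comm (AG.e i)]
  let F₀ : YU l → ℂ := fun y => y 1 none
  let F : Fin l → YU l → ℂ := fun i y => y 1 (some i)
  have hF₀m : Measurable F₀ := (measurable_pi_apply none).comp (measurable_pi_apply 1)
  have hFm : ∀ i, Measurable (F i) := fun i =>
    (measurable_pi_apply (some i)).comp (measurable_pi_apply 1)
  have hF₀Φ : ∀ x, F₀ (Φ x) = g₀ x := by
    intro x
    change h none (P 1 x) = g₀ x
    rw [map_one]
    rfl
  have hFΦ : ∀ i x, F i (Φ x) = g i x := by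
    intro i x
    change h (some i) (P 1 x) = g i x
    rw [map_one]
    rfl
  have hmem : ∀ (G : YU l → ℂ) (k : X → ℂ), Measurable G → (Measurable k ∧ ∃ C : ℝ, ∀ x, ‖k x‖ ≤ C) →
      (∀ x, G (Φ x) = k x) → MemLp G ∞ (μ.map Φ) := by
    intro G k hG hk hGk
    rw [memLp_map_measure_iff hG.aestronglyMeasurable hΦ.aemeasurable]
    have h1 : G ∘ Φ = k := funext hGk
    rw [h1]
    obtain ⟨hk1, C, hC⟩ := hk
    exact memLp_top_of_bound hk1.aestronglyMeasurable C (Eventually.of_forall hC)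
  refine nil_decomposition hstr (μ.map Φ) (fun i => shU i) hsh hcomm F₀
    (hmem F₀ g₀ hF₀m hg₀ hF₀Φ) F (fun i => hmem (F i) (g i) (hFm i) (hg i) (hFΦ i)) a fun n => ?_
  have hmeas : Measurable fun y : YU l => F₀ y * ∏ i, F i ((shU i)^[n] y) :=
    hF₀m.mul (Finset.measurable_prod _ fun i _ => (hFm i).comp ((shU i).measurable.iterate n))
  rw [ha, integral_map hΦ.aemeasurable hmeas.aestronglyMeasurable]
  refine integral_congr_ae ?_
  have h1 : ∀ᵐ x ∂μ, ∀ i, f i ((T i)^[n] x) = g i ((T i)^[n] x) := by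
    rw [ae_all_iff]
    intro i
    exact ((hT i).iterate n).quasiMeasurePreserving.ae_eq_comp (hfg i)
  filter_upwards [hfg₀, h1] with x hx0 hx1
  rw [hx0, hF₀Φ]
  congr 1
  refine Finset.prod_congr rfl fun i _ => ?_
  rw [hx1 i, ← hΦn, hFΦ]

end Pool.Agent.Nil820

end
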