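import Pool.Agent.Lib_MP_820dd4_hk.EI
import Pool.Agent.Lib_MP_820dd4_hk.IV2
import Pool.Agent.Lib_MP_820dd4_hk.AX2
import Pool.Agent.Lib_MP_820dd4_hk.F1
import Pool.Agent.Lib_MP_820dd4_hk.MKF
import Pool.Agent.Lib_HK.Univ
import Pool.Agent.Lib_HK.TrLink
import Pool.Agent.Lib_MP_820dd4_hk.CE3A

/-! ### Part `MI1` -/

section

open MeasureTheory ProbabilityTheory Filter Topology
open scoped ComplexConjugate ENNReal

namespace Pool.Agent.HK820

/-- `L¹ ≤ L²` -/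
theorem mi_l1 {X : Type} [MeasurableSpace X] (μ : Measure X) [IsProbabilityMeasure μ] {g : X → ℂ}
    (hg : BM g) : (∫ x, ‖g x‖ ∂μ) ^ 2 ≤ ∫ x, ‖g x‖ ^ 2 ∂μ := by
  obtain ⟨h1, C, hC⟩ := hg
  have hb : BM (fun x => ((‖g x‖ : ℝ) : ℂ)) :=
    ⟨Complex.measurable_ofReal.comp h1.norm, C, fun x => by simpa using hC x⟩
  have h2 := cubd_sq_le μ hb
  have h3 : ∫ x, ((‖g x‖ : ℝ) : ℂ) ∂μ = ((∫ x, ‖g x‖ ∂μ : ℝ) : ℂ) := integral_ofReal
  rw [h3] at h2
  simpa using h2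

/-- `L¹ ≤ L²` for the distance to the conditional expectation -/
theorem mi_l1_condExp {X : Type} (m : MeasurableSpace X) [mX : MeasurableSpace X] (μ : Measure X)
    [IsProbabilityMeasure μ] (hm : m ≤ mX) {g : X → ℂ} (hg : BM g) :
    (∫ x, ‖g x - (μ[g | m]) x‖ ∂μ) ^ 2 ≤ ∫ x, ‖g x - (μ[g | m]) x‖ ^ 2 ∂μ := by
  obtain ⟨h1, C, hC⟩ := hg
  obtain ⟨g', a1, a2, a3⟩ := exists_bms_condExp m μ hm h1 hC
  have hb : BM (fun x => g x - g' x) := BMs.sub ⟨h1, C, hC⟩ (BMs.mono hm ⟨a1, C, a2⟩)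
  have h2 := mi_l1 μ hb
  have e1 : ∫ x, ‖g x - (μ[g | m]) x‖ ∂μ = ∫ x, ‖g x - g' x‖ ∂μ := by
    refine integral_congr_ae ?_
    filter_upwards [a3] with x hx
    rw [hx]
  have e2 : ∫ x, ‖g x - (μ[g | m]) x‖ ^ 2 ∂μ = ∫ x, ‖g x - g' x‖ ^ 2 ∂μ := by
    refine integral_congr_ae ?_
    filter_upwards [a3] with x hx
    rw [hx]
  rw [e1, e2]
  exact h2

theorem mi_prod_sub {α : Type} (s : Finset α) (a b : α → ℂ) {B : ℝ} (hB : 1 ≤ B)
    (ha : ∀ v, ‖a v‖ ≤ B) (hb : ∀ v, ‖b v‖ ≤ B) :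
    ‖∏ v ∈ s, a v - ∏ v ∈ s, b v‖ ≤ B ^ s.card * ∑ v ∈ s, ‖a v - b v‖ := by
  classical
  have hB0 : 0 ≤ B := zero_le_one.trans hB
  induction s using Finset.induction_on with
  | empty => simp
  | insert c s hc ih =>
    rw [Finset.prod_insert hc, Finset.prod_insert hc, Finset.sum_insert hc,
      Finset.card_insert_of_notMem hc]
    have e : a c * ∏ v ∈ s, a v - b c * ∏ v ∈ s, b v =
        a c * (∏ v ∈ s, a v - ∏ v ∈ s, b v) + (a c - b c) * ∏ v ∈ s, b v := by ring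
    have hp : ‖∏ v ∈ s, b v‖ ≤ B ^ s.card := by
      rw [norm_prod]
      exact (Finset.prod_le_prod (fun v _ => norm_nonneg _) (fun v _ => hb v)).trans (by simp)
    have hB1 : B ^ s.card ≤ B ^ (s.card + 1) := pow_le_pow_right₀ hB (Nat.le_succ _)
    rw [e]
    refine (norm_add_le _ _).trans ?_
    rw [norm_mul, norm_mul]
    have h1 : ‖a c‖ * ‖∏ v ∈ s, a v - ∏ v ∈ s, b v‖ ≤ B * (B ^ s.card * ∑ v ∈ s, ‖a v - b v‖) :=
      mul_le_mul (ha c) ih (norm_nonneg _) hB0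
    have h2 : ‖a c - b c‖ * ‖∏ v ∈ s, b v‖ ≤ ‖a c - b c‖ * B ^ (s.card + 1) :=
      mul_le_mul_of_nonneg_left (hp.trans hB1) (norm_nonneg _)
    calc _ ≤ B * (B ^ s.card * ∑ v ∈ s, ‖a v - b v‖) + ‖a c - b c‖ * B ^ (s.card + 1) :=
          add_le_add h1 h2
      _ = B ^ (s.card + 1) * (‖a c - b c‖ + ∑ v ∈ s, ‖a v - b v‖) := by
          rw [pow_succ]
          ring

theorem mi_norm_add_sq (a b : ℂ) : ‖a + b‖ ^ 2 ≤ 2 * ‖a‖ ^ 2 + 2 * ‖b‖ ^ 2 := by
  have h1 := norm_add_le a b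
  have h2 := norm_nonneg (a + b)
  nlinarith [sq_nonneg (‖a‖ - ‖b‖), norm_nonneg a, norm_nonneg b]

/-- the constant in the estimate on cubes -/
noncomputable def miC (n D : ℕ) (B : ℝ) : ℝ :=
  (B ^ (Finset.univ : Finset (Fin D → Fin 2)).card) ^ 2 *
    ((Finset.univ : Finset (Fin n × (Fin D → Fin 2))).card : ℝ) ^ 2

theorem miC_nonneg (n D : ℕ) (B : ℝ) : 0 ≤ miC n D B := by unfold miC; positivity

/-- distance of the derivative of a pulled back function to the vertexwise σ-algebra -/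
theorem mi_cube_bound {Q P : Type} (m : MeasurableSpace P) [MeasurableSpace Q]
    [StandardBorelSpace Q] [mP : MeasurableSpace P] [StandardBorelSpace P] {θ : Measure Q}
    [IsProbabilityMeasure θ] {S₀ : Q ≃ᵐ Q} (hS₀ : MeasurePreserving S₀ θ θ) {ν : Measure P}
    [IsProbabilityMeasure ν] {S : P ≃ᵐ P} (hS : MeasurePreserving S ν ν) {π : P → Q}
    (hπ : FMap ν S θ S₀ π) (hm : m ≤ mP) (D n : ℕ) {u : Q → ℂ} (hu : BM u)
    (h : Fin n → (Fin D → Fin 2) → Q → ℂ) (hh : ∀ l v, BM (h l v)) {B : ℝ} (hB1 : 1 ≤ B)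
    (hB : ∀ l v q, ‖h l v q‖ ≤ B) {η δ' : ℝ} (hη : ∀ l v,
      ∫ p, ‖h l v (π p) - (ν[fun p => h l v (π p) | m]) p‖ ^ 2 ∂ν ≤ η)
    (hδ : ∫ x, ‖dd D u x - ∑ l, ∏ v, h l v (x v)‖ ^ 2 ∂(cube θ S₀ (Fin 2) D) ≤ δ') :
    ∫ x, ‖dd D (fun p => u (π p)) x -
      ((cube ν S (Fin 2) D)[dd D (fun p => u (π p)) | pw m D]) x‖ ^ 2 ∂(cube ν S (Fin 2) D) ≤
      2 * δ' + 2 * (miC n D B * η) := by
  have hπm : Measurable π := hπ.mp.measurable
  have hhπ : ∀ l v, Measurable (fun p => h l v (π p)) := fun l v => (hh l v).1.comp hπm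
  have hver : ∀ l v, ∃ g : P → ℂ, Measurable[m] g ∧ (∀ x, ‖g x‖ ≤ B) ∧
      ν[fun p => h l v (π p) | m] =ᵐ[ν] g := fun l v =>
    exists_bms_condExp m ν hm (hhπ l v) (fun p => hB l v (π p))
  choose g g1 g2 g3 using hver
  set C := cube ν S (Fin 2) D with hC
  have hP := cube_fmap hS hS₀ hπ (Fin 2) D
  have huπ : BM (fun p => u (π p)) := BMs.comp hu hπm
  have hF : BM (dd D (fun p => u (π p))) := dd_bm D huπ
  -- the approximating function
  set G : Arr (Fin 2) P D → ℂ := fun x => ∑ l, ∏ v, g l v (x v) with hG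
  have hGm : BMs (pw m D) G :=
    BMs.sum Finset.univ fun l => BMs.prod Finset.univ fun v =>
      BMs.comp (m' := m) ⟨g1 l v, B, g2 l v⟩ (eval_pw m D v)
  have hpw := pw_le (ι := Fin 2) m hm D
  have hGB : BM G := BMs.mono hpw hGm
  refine (condExp_best (pw m D) C hpw hF hGB (AEM.of_meas hGm.1)).trans ?_
  set G₁ : Arr (Fin 2) P D → ℂ := fun x => ∑ l, ∏ v, h l v (π (x v)) with hG₁
  have hG₁B : BM G₁ :=
    BMs.sum Finset.univ fun l => BMs.prod Finset.univ fun v =>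
      BMs.comp (BMs.comp (hh l v) hπm) (measurable_pi_apply v)
  have hd1 : BM (fun x => dd D (fun p => u (π p)) x - G₁ x) := BMs.sub hF hG₁B
  have hd2 : BM (fun x => G₁ x - G x) := BMs.sub hG₁B hGB
  have hd3 : BM (fun x => dd D (fun p => u (π p)) x - G x) := BMs.sub hF hGB
  have i1 := bas_int_sq hd1 C
  have i2 := bas_int_sq hd2 C
  have i3 := bas_int_sq hd3 C
  have step1 : ∫ x, ‖dd D (fun p => u (π p)) x - G x‖ ^ 2 ∂C ≤
      2 * ∫ x, ‖dd D (fun p => u (π p)) x - G₁ x‖ ^ 2 ∂C + 2 * ∫ x, ‖G₁ x - G x‖ ^ 2 ∂C := by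
    rw [← integral_const_mul, ← integral_const_mul, ← integral_add (i1.const_mul 2)
      (i2.const_mul 2)]
    refine integral_mono i3 ((i1.const_mul 2).add (i2.const_mul 2)) fun x => ?_
    have := mi_norm_add_sq (dd D (fun p => u (π p)) x - G₁ x) (G₁ x - G x)
    rwa [sub_add_sub_cancel] at this
  have step2 : ∫ x, ‖dd D (fun p => u (π p)) x - G₁ x‖ ^ 2 ∂C ≤ δ' := by
    have e : ∫ x, ‖dd D u x - ∑ l, ∏ v, h l v (x v)‖ ^ 2 ∂(cube θ S₀ (Fin 2) D) =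
        ∫ x, ‖dd D (fun p => u (π p)) x - G₁ x‖ ^ 2 ∂C := by
      have hmeas : Measurable (fun x : Arr (Fin 2) Q D =>
          ‖dd D u x - ∑ l, ∏ v, h l v (x v)‖ ^ 2) := by
        have h1 : BM (fun x : Arr (Fin 2) Q D => dd D u x - ∑ l, ∏ v, h l v (x v)) :=
          BMs.sub (dd_bm D hu) (BMs.sum Finset.univ fun l => BMs.prod Finset.univ fun v =>
            BMs.comp (hh l v) (measurable_pi_apply v))
        exact h1.1.norm.pow_const 2
      rw [← hP.mp.map_eq, integral_map hP.mp.measurable.aemeasurable hmeas.aestronglyMeasurable]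
      rfl
    rw [← e]
    exact hδ
  have step3 : ∫ x, ‖G₁ x - G x‖ ^ 2 ∂C ≤ miC n D B * η := by
    -- pointwise bound
    set N := (Finset.univ : Finset (Fin D → Fin 2)).card with hN
    have hpt : ∀ x, ‖G₁ x - G x‖ ^ 2 ≤ (B ^ N) ^ 2 *
        ((Finset.univ : Finset (Fin n × (Fin D → Fin 2))).card : ℝ) *
        ∑ lv : Fin n × (Fin D → Fin 2), ‖h lv.1 lv.2 (π (x lv.2)) - g lv.1 lv.2 (x lv.2)‖ ^ 2 := by
      intro x
      have b1 : ‖G₁ x - G x‖ ≤ B ^ N *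
          ∑ lv : Fin n × (Fin D → Fin 2), ‖h lv.1 lv.2 (π (x lv.2)) - g lv.1 lv.2 (x lv.2)‖ := by
        rw [Fintype.sum_prod_type, Finset.mul_sum, hG₁, hG]
        simp only []
        rw [← Finset.sum_sub_distrib]
        refine (norm_sum_le _ _).trans (Finset.sum_le_sum fun l _ => ?_)
        exact mi_prod_sub Finset.univ (fun v => h l v (π (x v))) (fun v => g l v (x v)) hB1
          (fun v => hB l v _) (fun v => g2 l v _)
      have b2 := pow_le_pow_left₀ (norm_nonneg _) b1 2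
      refine b2.trans ?_
      rw [mul_pow, mul_assoc]
      refine mul_le_mul_of_nonneg_left ?_ (by positivity)
      exact sq_sum_le_card_mul_sum_sq
    have hdd : ∀ lv : Fin n × (Fin D → Fin 2),
        BM (fun p => h lv.1 lv.2 (π p) - g lv.1 lv.2 p) := fun lv =>
      BMs.sub (BMs.comp (hh lv.1 lv.2) hπm) (BMs.mono hm ⟨g1 lv.1 lv.2, B, g2 lv.1 lv.2⟩)
    have hint : ∀ lv : Fin n × (Fin D → Fin 2), Integrable (fun x : Arr (Fin 2) P D =>
        ‖h lv.1 lv.2 (π (x lv.2)) - g lv.1 lv.2 (x lv.2)‖ ^ 2) C := fun lv =>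
      bas_int_sq (BMs.comp (hdd lv) (measurable_pi_apply lv.2)) C
    have hval : ∀ lv : Fin n × (Fin D → Fin 2), ∫ x : Arr (Fin 2) P D,
        ‖h lv.1 lv.2 (π (x lv.2)) - g lv.1 lv.2 (x lv.2)‖ ^ 2 ∂C ≤ η := by
      intro lv
      have hev := cube_eval ν S (Fin 2) D lv.2
      have e1 : ∫ x : Arr (Fin 2) P D,
          ‖h lv.1 lv.2 (π (x lv.2)) - g lv.1 lv.2 (x lv.2)‖ ^ 2 ∂C =
          ∫ p, ‖h lv.1 lv.2 (π p) - g lv.1 lv.2 p‖ ^ 2 ∂ν := by
        rw [← hev.map_eq, integral_map hev.measurable.aemeasurable]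
        rw [hev.map_eq]
        exact ((hdd lv).1.norm.pow_const 2).aestronglyMeasurable
      rw [e1]
      refine le_trans (le_of_eq ?_) (hη lv.1 lv.2)
      refine integral_congr_ae ?_
      filter_upwards [g3 lv.1 lv.2] with p hp
      rw [hp]
    have hsumI : Integrable (fun x : Arr (Fin 2) P D => (B ^ N) ^ 2 *
        ((Finset.univ : Finset (Fin n × (Fin D → Fin 2))).card : ℝ) *
        ∑ lv : Fin n × (Fin D → Fin 2),
          ‖h lv.1 lv.2 (π (x lv.2)) - g lv.1 lv.2 (x lv.2)‖ ^ 2) C :=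
      (integrable_finsetSum _ fun lv _ => hint lv).const_mul _
    refine (integral_mono i2 hsumI hpt).trans ?_
    rw [integral_const_mul, integral_finsetSum _ fun lv _ => hint lv]
    have hs : ∑ lv : Fin n × (Fin D → Fin 2), ∫ x : Arr (Fin 2) P D,
        ‖h lv.1 lv.2 (π (x lv.2)) - g lv.1 lv.2 (x lv.2)‖ ^ 2 ∂C ≤
        ((Finset.univ : Finset (Fin n × (Fin D → Fin 2))).card : ℝ) * η := by
      refine (Finset.sum_le_sum fun lv _ => hval lv).trans ?_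
      rw [Finset.sum_const, nsmul_eq_mul]
    refine (mul_le_mul_of_nonneg_left hs (by positivity)).trans (le_of_eq ?_)
    unfold miC
    ring
  linarith

/-- the seminorm of a function which correlates with functions of order `k + 1` -/
theorem mi_gn_ne {Q : Type} [MeasurableSpace Q] [StandardBorelSpace Q] (θ : Measure Q)
    [IsProbabilityMeasure θ] (S : Q ≃ᵐ Q) (hS : MeasurePreserving S θ θ) (k : ℕ) {F u α : Q → ℂ}
    (hF : BM F) (hF' : AEM (Zalg θ S (k + 1)) θ F) (hu : BM u) (hα : BM α)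
    (hα' : AEM (Zalg θ S (k + 1)) θ α) (h : ∫ q, F q * u q * α q ∂θ ≠ 0) :
    gn θ S (k + 2) u ≠ 0 := by
  intro h0
  have h1 := (gn_eq_zero_iff θ S hS (k + 1) hu).1 h0
  apply h
  have hG : BM (fun q => F q * α q) := BMs.mul hF hα
  have hG' : AEM (Zalg θ S (k + 1)) θ (fun q => F q * α q) := hF'.mul hα'
  obtain ⟨g1, C, hC⟩ := hG
  have hC0 : 0 ≤ C := by
    haveI : Nonempty Q := θ.nonempty_of_neZero
    exact (norm_nonneg _).trans (hC (Classical.arbitrary Q))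
  obtain ⟨g, a1, a2, a3⟩ := AEM.bounded hG' hC0 (Eventually.of_forall hC)
  have h2 := (condExp_eq_zero_iff (Zalg θ S (k + 1)) θ (Zalg_le θ S (k + 1)) hu).1 h1 g
    ⟨a1, C, a2⟩
  rw [← h2]
  refine integral_congr_ae ?_
  filter_upwards [a3] with q hq
  rw [← hq]
  ring

/-- `AP` for families indexed by a finite type -/
theorem mi_ap {s : ℕ} (hAP : AP s) {ι : Type} [Fintype ι] (X : Type) [MeasurableSpace X]
    [StandardBorelSpace X] (μ : Measure X) [IsProbabilityMeasure μ] (T : X ≃ᵐ X)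
    (hT : Ergodic T μ) (f : ι → X → ℂ) (hf : ∀ i, BM (f i))
    (hf' : ∀ i, AEM (Zalg μ T s) μ (f i)) (ε : ℝ) (hε : 0 < ε) :
    ∃ (Q : Type) (m : MeasurableSpace Q) (_ : MeasurableSpace Q) (_ : StandardBorelSpace Q)
      (ν : Measure Q) (S : Q ≃ᵐ Q) (π : Q → X), Ext m μ T s ν S π ∧
      ∀ i, ∫ q, ‖f i (π q) - (ν[fun q => f i (π q) | m]) q‖ ^ 2 ∂ν < ε := by
  have e := Fintype.equivFin ι
  obtain ⟨Q, m, mQ, sQ, ν, S, π, h1, h2⟩ := hAP X μ T hT (Fintype.card ι) (fun j => f (e.symm j))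
    (fun j => hf _) (fun j => hf' _) ε hε
  refine ⟨Q, m, mQ, sQ, ν, S, π, h1, fun i => ?_⟩
  have := h2 (e i)
  simpa using this

/-- the family of functions to be approximated -/
def miFam {Q κ : Type} (c α : Q → ℂ) (h : κ → Q → ℂ) : Option (Option κ) → Q → ℂ
  | none => c
  | some none => α
  | some (some l) => h l

/-- MI1, the part after the choice of the data of `iv_main` -/
theorem mi_core {k : ℕ} (hAP : AP k) {X : Type} [MeasurableSpace X] [StandardBorelSpace X]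
    (μ : Measure X) [IsProbabilityMeasure μ] (T : X ≃ᵐ X) {f : X → ℂ} (hf : BM f)
    {Q : Type} (y : MeasurableSpace Q) [mQ : MeasurableSpace Q] [StandardBorelSpace Q]
    (θ : Measure Q) [IsProbabilityMeasure θ] (S₀ : Q ≃ᵐ Q) (hS₀ : Ergodic S₀ θ) (π₀ : Q → X)
    (hπ₀ : FMap θ S₀ μ T π₀) (hy : y ≤ Zalg θ S₀ k) {u α : Q → ℂ} (hu : Measurable u)
    (hu1 : ∀ q, ‖u q‖ = 1) (hc : AEM y θ (fun q => u (S₀ q) * conj (u q))) (hα : BMs y α)
    (hα1 : ∀ q, ‖α q‖ ≤ 1) (hne : ∫ q, f (π₀ q) * u q * α q ∂θ ≠ 0)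
    (hph : AEM (pw y (k + 2)) (cube θ S₀ (Fin 2) (k + 2)) (dd (k + 2) u)) {δ : ℝ} (hδ : 0 < δ) :
    ∃ (P : Type) (m : MeasurableSpace P) (_ : MeasurableSpace P)
      (_ : StandardBorelSpace P) (ν : Measure P) (S : P ≃ᵐ P) (π : P → X) (u' α' : P → ℂ),
      Ext m μ T k ν S π ∧ Measurable u' ∧ (∀ q, ‖u' q‖ = 1) ∧ BMs m α' ∧ (∀ q, ‖α' q‖ ≤ 1) ∧
      ‖∫ q, f (π₀ q) * u q * α q ∂θ‖ / 2 ≤ ‖∫ q, f (π q) * u' q * α' q ∂ν‖ ∧
      ∫ q, ‖u' (S q) * conj (u' q) - (ν[fun q => u' (S q) * conj (u' q) | m]) q‖ ∂ν ≤ δ ∧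
      ∫ x, ‖dd (k + 2) u' x - ((cube ν S (Fin 2) (k + 2))[dd (k + 2) u' | pw m (k + 2)]) x‖
        ∂(cube ν S (Fin 2) (k + 2)) ≤ δ := by
  haveI : Nonempty Q := θ.nonempty_of_neZero
  have huB : BM u := ⟨hu, 1, fun q => (hu1 q).le⟩
  have hyQ : y ≤ mQ := hy.trans (Zalg_le θ S₀ k)
  set I := ∫ q, f (π₀ q) * u q * α q ∂θ with hI
  have hI0 : 0 < ‖I‖ := norm_pos_iff.2 hne
  obtain ⟨hfm, Cf, hCf⟩ := hf
  have hCf0 : 0 ≤ Cf := by
    exact (norm_nonneg _).trans (hCf (π₀ (Classical.arbitrary Q)))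
  -- unimodular version of the cocycle
  have hcn : ∀ q, ‖u (S₀ q) * conj (u q)‖ = 1 := fun q => by
    rw [norm_mul, RCLike.norm_conj, hu1, hu1, one_mul]
  obtain ⟨c, c1, c2, c3⟩ := AEM.unimodular hc (Eventually.of_forall hcn)
  have hcB : BMs y c := ⟨c1, 1, fun q => (c2 q).le⟩
  -- version of the derivative
  obtain ⟨Φ, f1, f2, f3⟩ := AEM.unimodular hph (Eventually.of_forall (norm_dd (k + 2) hu1))
  have hΦ : BMs (⨆ v : Fin (k + 2) → Fin 2,
      MeasurableSpace.comap (fun x : Arr (Fin 2) Q (k + 2) => x v) y) Φ :=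
    ⟨f1, 1, fun x => (f2 x).le⟩
  obtain ⟨n, g, hg, hgΦ⟩ := approx_iSup (fun v : Fin (k + 2) → Fin 2 =>
      MeasurableSpace.comap (fun x : Arr (Fin 2) Q (k + 2) => x v) y)
      (cube θ S₀ (Fin 2) (k + 2))
      (fun v => (MeasurableSpace.comap_mono hyQ).trans (measurable_pi_apply v).comap_le) hΦ
      (ε := δ ^ 2 / 4) (by positivity)
  have hfac : ∀ l v, ∃ h : Q → ℂ, BMs y h ∧ g l v = fun x => h (x v) := fun l v =>
    ZD_factor y (k + 2) v (hg l v)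
  choose h h1 h2 using hfac
  have hapx : ∫ x, ‖dd (k + 2) u x - ∑ l, ∏ v, h l v (x v)‖ ^ 2
      ∂(cube θ S₀ (Fin 2) (k + 2)) ≤ δ ^ 2 / 4 := by
    refine le_trans (le_of_eq ?_) hgΦ.le
    refine integral_congr_ae ?_
    filter_upwards [f3] with x hx
    rw [hx]
    congr 3
    refine Finset.sum_congr rfl fun l _ => Finset.prod_congr rfl fun v _ => ?_
    rw [h2 l v]
  -- common bound
  have hbd : ∀ lv : Fin n × (Fin (k + 2) → Fin 2), ∃ C : ℝ, ∀ q, ‖h lv.1 lv.2 q‖ ≤ C :=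
    fun lv => (h1 lv.1 lv.2).2
  choose Cb hCb using hbd
  have hCb0 : ∀ lv, 0 ≤ Cb lv := fun lv => (norm_nonneg _).trans (hCb lv (Classical.arbitrary Q))
  set B : ℝ := 1 + ∑ lv, Cb lv with hB
  have hB1 : 1 ≤ B := by
    have := Finset.sum_nonneg (fun lv (_ : lv ∈ Finset.univ) => hCb0 lv)
    linarith
  have hBb : ∀ l v q, ‖h l v q‖ ≤ B := by
    intro l v q
    have e1 : Cb (l, v) ≤ ∑ lv, Cb lv :=
      Finset.single_le_sum (fun lv _ => hCb0 lv) (Finset.mem_univ (l, v))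
    have := hCb (l, v) q
    simp only [] at this
    linarith
  -- the small number
  set K := miC n (k + 2) B with hK
  have hK0 : 0 ≤ K := miC_nonneg _ _ _
  obtain ⟨η, hη0, hη1, hη2, hη3⟩ : ∃ η : ℝ, 0 < η ∧ η ≤ δ ^ 2 ∧ Cf ^ 2 * η ≤ (‖I‖ / 2) ^ 2 ∧
      K * η ≤ δ ^ 2 / 4 := by
    have hA : 0 < (‖I‖ / 2) ^ 2 / (Cf ^ 2 + 1) := by positivity
    have hBB : 0 < (δ ^ 2 / 4) / (K + 1) := by positivity
    refine ⟨min (δ ^ 2) (min ((‖I‖ / 2) ^ 2 / (Cf ^ 2 + 1)) ((δ ^ 2 / 4) / (K + 1))),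
      by positivity, min_le_left _ _, ?_, ?_⟩
    · have e1 : min (δ ^ 2) (min ((‖I‖ / 2) ^ 2 / (Cf ^ 2 + 1)) ((δ ^ 2 / 4) / (K + 1))) ≤
          (‖I‖ / 2) ^ 2 / (Cf ^ 2 + 1) := (min_le_right _ _).trans (min_le_left _ _)
      calc _ ≤ Cf ^ 2 * ((‖I‖ / 2) ^ 2 / (Cf ^ 2 + 1)) :=
            mul_le_mul_of_nonneg_left e1 (by positivity)
        _ ≤ (Cf ^ 2 + 1) * ((‖I‖ / 2) ^ 2 / (Cf ^ 2 + 1)) :=
            mul_le_mul_of_nonneg_right (by linarith) (by positivity)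
        _ = (‖I‖ / 2) ^ 2 := by field_simp
    · have e1 : min (δ ^ 2) (min ((‖I‖ / 2) ^ 2 / (Cf ^ 2 + 1)) ((δ ^ 2 / 4) / (K + 1))) ≤
          (δ ^ 2 / 4) / (K + 1) := (min_le_right _ _).trans (min_le_right _ _)
      calc _ ≤ K * ((δ ^ 2 / 4) / (K + 1)) := mul_le_mul_of_nonneg_left e1 hK0
        _ ≤ (K + 1) * ((δ ^ 2 / 4) / (K + 1)) :=
            mul_le_mul_of_nonneg_right (by linarith) (by positivity)
        _ = δ ^ 2 / 4 := by field_simp
  -- the extension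
  obtain ⟨P, m, mP, sP, ν, S, π₁, hext, happ⟩ := mi_ap hAP Q θ S₀ hS₀
    (miFam c α (fun lv : Fin n × (Fin (k + 2) → Fin 2) => h lv.1 lv.2))
    (by
      rintro (_ | _ | lv)
      · exact BMs.mono hyQ hcB
      · exact BMs.mono hyQ hα
      · exact BMs.mono hyQ (h1 lv.1 lv.2))
    (by
      rintro (_ | _ | lv)
      · exact AEM.of_meas (c1.mono hy le_rfl)
      · exact AEM.of_meas (hα.1.mono hy le_rfl)
      · exact AEM.of_meas ((h1 lv.1 lv.2).1.mono hy le_rfl)) η hη0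
  have happc : ∫ q, ‖c (π₁ q) - (ν[fun q => c (π₁ q) | m]) q‖ ^ 2 ∂ν < η := happ none
  have happα : ∫ q, ‖α (π₁ q) - (ν[fun q => α (π₁ q) | m]) q‖ ^ 2 ∂ν < η := happ (some none)
  have happh : ∀ l v, ∫ q, ‖h l v (π₁ q) - (ν[fun q => h l v (π₁ q) | m]) q‖ ^ 2 ∂ν < η :=
    fun l v => happ (some (some (l, v)))
  haveI := hext.prob
  have hS := hext.erg.toMeasurePreserving
  have hfm₁ := hext.fm
  have hπ₁ : Measurable π₁ := hfm₁.mp.measurable
  have hm : m ≤ mP := TowAlg.le m ν S hext.tow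
  have hfm₂ : FMap ν S μ T (fun p => π₀ (π₁ p)) := FMap.comp hfm₁ hπ₀
  -- the version of `α`
  have hαm : Measurable (fun p => α (π₁ p)) := (hα.1.mono hyQ le_rfl).comp hπ₁
  obtain ⟨α', a1, a2, a3⟩ := exists_bms_condExp m ν hm hαm (fun p => hα1 (π₁ p))
  have hu'B : BM (fun p => u (π₁ p)) := BMs.comp huB hπ₁
  refine ⟨P, m, mP, sP, ν, S, fun p => π₀ (π₁ p), fun p => u (π₁ p), α',
    ⟨hext.prob, hext.erg, hfm₂, hext.tow⟩, hu.comp hπ₁, fun q => hu1 _, ⟨a1, 1, a2⟩, a2, ?_, ?_, ?_⟩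
  · -- the correlation
    have hfπ : BM (fun p => f (π₀ (π₁ p))) := ⟨hfm.comp hfm₂.mp.measurable, Cf, fun p => hCf _⟩
    have hα'B : BM α' := BMs.mono hm ⟨a1, 1, a2⟩
    have hαπB : BM (fun p => α (π₁ p)) := ⟨hαm, 1, fun p => hα1 _⟩
    have e1 : I = ∫ p, f (π₀ (π₁ p)) * u (π₁ p) * α (π₁ p) ∂ν := by
      have hmeas : Measurable (fun q => f (π₀ q) * u q * α q) :=
        ((hfm.comp hπ₀.mp.measurable).mul hu).mul (hα.1.mono hyQ le_rfl)
      rw [hI, ← hfm₁.mp.map_eq, integral_map hπ₁.aemeasurable hmeas.aestronglyMeasurable]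
    have e2 : I - ∫ p, f (π₀ (π₁ p)) * u (π₁ p) * α' p ∂ν =
        ∫ p, f (π₀ (π₁ p)) * u (π₁ p) * (α (π₁ p) - α' p) ∂ν := by
      rw [e1, ← integral_sub (BM.integrable (BMs.mul (BMs.mul hfπ hu'B) hαπB) ν)
        (BM.integrable (BMs.mul (BMs.mul hfπ hu'B) hα'B) ν)]
      refine integral_congr_ae (Eventually.of_forall fun p => ?_)
      simp only []
      ring
    have hdB : BM (fun p => α (π₁ p) - α' p) := BMs.sub hαπB hα'B
    have e3 : ‖I - ∫ p, f (π₀ (π₁ p)) * u (π₁ p) * α' p ∂ν‖ ≤ Cf * ∫ p, ‖α (π₁ p) - α' p‖ ∂ν := by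
      rw [e2, ← integral_const_mul]
      refine (norm_integral_le_integral_norm _).trans ?_
      refine integral_mono (BM.integrable (BMs.mul (BMs.mul hfπ hu'B) hdB) ν).norm
        ((BM.integrable hdB ν).norm.const_mul Cf) fun p => ?_
      simp only [norm_mul, hu1, mul_one]
      exact mul_le_mul_of_nonneg_right (hCf _) (norm_nonneg _)
    have e4 : (∫ p, ‖α (π₁ p) - α' p‖ ∂ν) ^ 2 ≤ η := by
      refine (mi_l1 ν hdB).trans (le_trans (le_of_eq ?_) happα.le)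
      refine integral_congr_ae ?_
      filter_upwards [a3] with p hp
      rw [hp]
    have e5 : 0 ≤ ∫ p, ‖α (π₁ p) - α' p‖ ∂ν := integral_nonneg fun p => norm_nonneg _
    have e6 : Cf * ∫ p, ‖α (π₁ p) - α' p‖ ∂ν ≤ ‖I‖ / 2 := by
      refine le_of_sq_le_sq ?_ (by positivity)
      rw [mul_pow]
      exact (mul_le_mul_of_nonneg_left e4 (by positivity)).trans hη2
    have e7 := norm_sub_norm_le I (∫ p, f (π₀ (π₁ p)) * u (π₁ p) * α' p ∂ν)
    linarith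
  · -- the cocycle
    have e1 : (fun p => u (π₁ (S p)) * conj (u (π₁ p))) =ᵐ[ν] fun p => c (π₁ p) := by
      have e2 := hfm₁.mp.quasiMeasurePreserving.ae_eq_comp c3
      filter_upwards [hfm₁.eqv, e2] with p hp hp2
      rw [hp]
      exact hp2
    have e3 : ∫ q, ‖u (π₁ (S q)) * conj (u (π₁ q)) -
        (ν[fun q => u (π₁ (S q)) * conj (u (π₁ q)) | m]) q‖ ∂ν =
        ∫ q, ‖c (π₁ q) - (ν[fun q => c (π₁ q) | m]) q‖ ∂ν := by
      refine integral_congr_ae ?_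
      filter_upwards [e1, condExp_congr_ae (m := m) e1] with p hp hp2
      rw [hp, hp2]
    rw [e3]
    have hcπ : BM (fun p => c (π₁ p)) := BMs.comp (BMs.mono hyQ hcB) hπ₁
    refine le_of_sq_le_sq ?_ hδ.le
    exact (mi_l1_condExp m ν hm hcπ).trans (happc.le.trans hη1)
  · -- the derivative
    have hb := mi_cube_bound m hS₀.toMeasurePreserving hS hfm₁ hm (k + 2) n huB h
      (fun l v => BMs.mono hyQ (h1 l v)) hB1 hBb (fun l v => (happh l v).le) hapx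
    have hF : BM (dd (k + 2) (fun p => u (π₁ p))) := dd_bm (k + 2) hu'B
    refine le_of_sq_le_sq ?_ hδ.le
    refine (mi_l1_condExp (pw m (k + 2)) (cube ν S (Fin 2) (k + 2))
      (pw_le (ι := Fin 2) m hm (k + 2)) hF).trans (hb.trans ?_)
    linarith

/-- **MI1.** From the main step IV2 to functions with cocycle approximately measurable for a
tower of lower order.

For the data of `iv_main` (`y` of order `k`, `u`, `α`) and `δ > 0` there is an ergodic extension of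
`Q` with a tower `m` of order `k` for which the pulled back `u` satisfies the hypotheses of
`stability` with `D + 1 = k + 2` and `α` is approximated.

Proof. `c₀ = ∫ f∘π u α ≠ 0`. As `f ∘ π` has order `k + 1` and `α` order `k`, `E[u | Zalg (k+1)] ≠ 0`,
so `gn (k+2) u ≠ 0` and by `phase` (PH1, `m = y`) `dd (k+2) u` is `AEM (pw y (k+2))`. By `approx_iSup`
choose finitely many bounded `y`-measurable `g l v` with `∫ ‖dd (k+2) u - ∑ l, ∏ v, g l v (x v)‖² <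
δ'`. Apply `AP k` on `Q` to the finite family: a bounded version of `u ∘ S conj u`, `α`, all the
`g l v` (they are of order `k`), with a small error. On the extension `P → Q`, with
`u' = u ∘ π'`: the derivative `dd (k+2) u'` is `dd (k+2) u` at the projected cube (`cube_fmap`), it is
close to `∑ ∏ (g l v ∘ π') (x v)`, which is close (the functions are bounded by a fixed constant) to
`∑ ∏ E[g l v ∘ π' | m] (x v)`, a `pw m`-measurable function; and `∫ ‖F - E[F|pw m]‖ ≤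
(∫ ‖F - G‖²)^(1/2)` for every bounded `pw m`-measurable `G` (`condExp_best`). -/
theorem mi_approx {k : ℕ} (hAP : AP k) {X : Type} [MeasurableSpace X] [StandardBorelSpace X]
    (μ : Measure X) [IsProbabilityMeasure μ] (T : X ≃ᵐ X) (hT : Ergodic T μ) {f : X → ℂ}
    (hf : BM f) (hf' : AEM (Zalg μ T (k + 1)) μ f) (hg : gn μ T (k + 2) f ≠ 0) :
    ∃ c₀ > 0, ∀ δ > 0, ∃ (Q : Type) (m : MeasurableSpace Q) (_ : MeasurableSpace Q)
      (_ : StandardBorelSpace Q) (ν : Measure Q) (S : Q ≃ᵐ Q) (π : Q → X) (u α : Q → ℂ),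
      Ext m μ T k ν S π ∧ Measurable u ∧ (∀ q, ‖u q‖ = 1) ∧ BMs m α ∧ (∀ q, ‖α q‖ ≤ 1) ∧
      c₀ ≤ ‖∫ q, f (π q) * u q * α q ∂ν‖ ∧
      ∫ q, ‖u (S q) * conj (u q) - (ν[fun q => u (S q) * conj (u q) | m]) q‖ ∂ν ≤ δ ∧
      ∫ x, ‖dd (k + 2) u x - ((cube ν S (Fin 2) (k + 2))[dd (k + 2) u | pw m (k + 2)]) x‖
        ∂(cube ν S (Fin 2) (k + 2)) ≤ δ := by
  obtain ⟨Q, y, mQ, sQ, θ, S₀, π₀, u, α, hprob, herg, hfm, hy, hyT, hu, hu1, hc, hα, hne⟩ :=
    iv_main μ T hT k hf hf' hg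
  haveI := hprob
  have hSmp := herg.toMeasurePreserving
  have huB : BM u := ⟨hu, 1, fun q => (hu1 q).le⟩
  have hyQ : y ≤ mQ := hy.trans (Zalg_le θ S₀ k)
  -- normalisation of `α`
  obtain ⟨hαm, Cα, hCα⟩ := hα
  haveI : Nonempty Q := θ.nonempty_of_neZero
  have hCα0 : 0 ≤ Cα := (norm_nonneg _).trans (hCα (Classical.arbitrary Q))
  set r : ℝ := (Cα + 1)⁻¹ with hr
  have hr0 : 0 < r := by positivity
  set α₀ : Q → ℂ := fun q => (r : ℂ) * α q with hα₀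
  have hα₀1 : ∀ q, ‖α₀ q‖ ≤ 1 := by
    intro q
    rw [hα₀]
    simp only [norm_mul, Complex.norm_real, Real.norm_of_nonneg hr0.le]
    calc r * ‖α q‖ ≤ r * (Cα + 1) :=
          mul_le_mul_of_nonneg_left ((hCα q).trans (by linarith)) hr0.le
      _ = 1 := by rw [hr]; field_simp
  have hα₀m : BMs y α₀ := ⟨hαm.const_mul (r : ℂ), 1, hα₀1⟩
  have hne₀ : ∫ q, f (π₀ q) * u q * α₀ q ∂θ ≠ 0 := by
    have e : ∫ q, f (π₀ q) * u q * α₀ q ∂θ = (r : ℂ) * ∫ q, f (π₀ q) * u q * α q ∂θ := by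
      rw [← integral_const_mul]
      refine integral_congr_ae (Eventually.of_forall fun q => ?_)
      simp only [hα₀]
      ring
    rw [e]
    exact mul_ne_zero (by exact_mod_cast hr0.ne') hne
  have hTmp := hT.toMeasurePreserving
  have hmono := Zalg_mono θ S₀ hSmp (Nat.le_succ k)
  have hgn : gn θ S₀ (k + 2) u ≠ 0 := by
    refine mi_gn_ne θ S₀ hSmp k (F := fun q => f (π₀ q)) (α := α₀) (BMs.comp hf hfm.mp.measurable)
      ?_ huB (BMs.mono hyQ hα₀m) (AEM.of_meas (hα₀m.1.mono (hy.trans hmono) le_rfl)) hne₀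
    exact AEM.comp hf' hfm.mp (Zalg_fmap hSmp hTmp hfm (k + 1))
  have hph := phase y θ S₀ herg hyQ hyT (k + 2) hu hu1 hc hgn
  refine ⟨‖∫ q, f (π₀ q) * u q * α₀ q ∂θ‖ / 2, by positivity, fun δ hδ => ?_⟩
  exact mi_core hAP μ T hf y θ S₀ herg π₀ hfm hy hu hu1 hc hα₀m hα₀1 hne₀ hph hδ

end Pool.Agent.HK820

end

/-! ### Part `MI2` -/

section

open MeasureTheory ProbabilityTheory Filter Topology
open scoped ComplexConjugate ENNReal

namespace Pool.Agent.HK820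

/-- `∫ F (z 0) conj (F (z 1)) = ∫ ‖E[F|m]‖²` -/
theorem mi_two {Q : Type} (m : MeasurableSpace Q) [mQ : MeasurableSpace Q] [StandardBorelSpace Q]
    (ν : Measure Q) [IsProbabilityMeasure ν] (hm : m ≤ mQ) {F : Q → ℂ} (hF : BM F) :
    ∫ z, F (z 0) * conj (F (z 1)) ∂(relInd m ν (Fin 2)) =
      ((∫ q, ‖(ν[F | m]) q‖ ^ 2 ∂ν : ℝ) : ℂ) := by
  have h1 := relInd_prod m ν hm (ι := Fin 2) (H := ![F, fun q => conj (F q)]) (by
    intro i
    fin_cases i
    · exact hF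
    · exact BMs.conj hF)
  simp only [Fin.prod_univ_two, Matrix.cons_val_zero, Matrix.cons_val_one] at h1
  rw [h1]
  have h2 : ∫ y, (ν[F | m]) y * (ν[fun q => conj (F q) | m]) y ∂ν =
      ∫ y, ((‖(ν[F | m]) y‖ ^ 2 : ℝ) : ℂ) ∂ν := by
    refine integral_congr_ae ?_
    filter_upwards [cubd_condExp_conj m ν hF] with y hy
    rw [hy, Complex.mul_conj', Complex.ofReal_pow]
  rw [h2]
  exact integral_ofReal

/-- `‖∫ F‖² ≤ ∫ ‖E[F|m]‖²` -/
theorem mi_jensen {Q : Type} (m : MeasurableSpace Q) [mQ : MeasurableSpace Q]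
    (ν : Measure Q) [IsProbabilityMeasure ν] (hm : m ≤ mQ) {F : Q → ℂ} (hF : BM F) :
    ‖∫ q, F q ∂ν‖ ^ 2 ≤ ∫ q, ‖(ν[F | m]) q‖ ^ 2 ∂ν := by
  obtain ⟨C, hC⟩ := hF.2
  obtain ⟨G, g1, g2, g3⟩ := exists_bms_condExp m ν hm hF.1 hC
  have hG : BM G := BMs.mono hm ⟨g1, C, g2⟩
  have h1 := cubd_sq_le ν hG
  have h2 : ∫ q, G q ∂ν = ∫ q, F q ∂ν := by
    rw [← integral_congr_ae g3]
    exact integral_condExp hm
  have h3 : ∫ q, ‖(ν[F | m]) q‖ ^ 2 ∂ν = ∫ q, ‖G q‖ ^ 2 ∂ν := by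
    refine integral_congr_ae ?_
    filter_upwards [g3] with q hq
    rw [hq]
  rw [h3, ← h2]
  exact h1

/-- `|∫ ‖E[Fu|m]‖² - ∫ ‖E[Fu₃|m]‖²| ≤ B² sqrt ε` -/
theorem mi_close {Q : Type} (m : MeasurableSpace Q) [mQ : MeasurableSpace Q]
    [StandardBorelSpace Q] (ν : Measure Q) [IsProbabilityMeasure ν] (hm : m ≤ mQ)
    {F u v : Q → ℂ} (hF : BM F) (hu : BM u) (hv : BM v) {B ε η : ℝ} (hB : 0 ≤ B)
    (hFB : ∀ q, ‖F q‖ ≤ B) (hη : 0 ≤ η) (hε : B ^ 4 * ε ≤ η ^ 2)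
    (h : ∫ z, ‖u (z 0) * conj (u (z 1)) - v (z 0) * conj (v (z 1))‖ ^ 2
        ∂(relInd m ν (Fin 2)) ≤ ε) :
    ∫ q, ‖(ν[fun q => F q * u q | m]) q‖ ^ 2 ∂ν ≤
      ∫ q, ‖(ν[fun q => F q * v q | m]) q‖ ^ 2 ∂ν + η := by
  have hP := relInd_prob m ν (Fin 2)
  have m0 : Measurable (fun z : Fin 2 → Q => z 0) := measurable_pi_apply 0
  have m1 : Measurable (fun z : Fin 2 → Q => z 1) := measurable_pi_apply 1
  have hFu : BM (fun q => F q * u q) := BMs.mul hF hu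
  have hFv : BM (fun q => F q * v q) := BMs.mul hF hv
  have e1 := mi_two m ν hm hFu
  have e2 := mi_two m ν hm hFv
  set a : ℝ := ∫ q, ‖(ν[fun q => F q * u q | m]) q‖ ^ 2 ∂ν with ha
  set b : ℝ := ∫ q, ‖(ν[fun q => F q * v q | m]) q‖ ^ 2 ∂ν with hb
  have b1 : BM (fun z : Fin 2 → Q => F (z 0) * u (z 0) * conj (F (z 1) * u (z 1))) :=
    BMs.mul (BMs.comp hFu m0) (BMs.conj (BMs.comp hFu m1))
  have b2 : BM (fun z : Fin 2 → Q => F (z 0) * v (z 0) * conj (F (z 1) * v (z 1))) :=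
    BMs.mul (BMs.comp hFv m0) (BMs.conj (BMs.comp hFv m1))
  have b3 : BM (fun z : Fin 2 → Q => u (z 0) * conj (u (z 1)) - v (z 0) * conj (v (z 1))) :=
    BMs.sub (BMs.mul (BMs.comp hu m0) (BMs.conj (BMs.comp hu m1)))
      (BMs.mul (BMs.comp hv m0) (BMs.conj (BMs.comp hv m1)))
  have b4 : BM (fun z : Fin 2 → Q => F (z 0) * conj (F (z 1))) :=
    BMs.mul (BMs.comp hF m0) (BMs.conj (BMs.comp hF m1))
  have e3 : ((a : ℂ) - (b : ℂ)) = ∫ z, (F (z 0) * conj (F (z 1))) *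
      (u (z 0) * conj (u (z 1)) - v (z 0) * conj (v (z 1))) ∂(relInd m ν (Fin 2)) := by
    rw [← e1, ← e2, ← integral_sub (b1.integrable _) (b2.integrable _)]
    refine integral_congr_ae (Eventually.of_forall fun z => ?_)
    show F (z 0) * u (z 0) * conj (F (z 1) * u (z 1)) -
      F (z 0) * v (z 0) * conj (F (z 1) * v (z 1)) = _
    rw [map_mul, map_mul]
    ring
  have e4 := cubd_sq_le (relInd m ν (Fin 2)) (BMs.mul b4 b3)
  rw [← e3] at e4
  have e5 : ∫ z, ‖(F (z 0) * conj (F (z 1))) *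
      (u (z 0) * conj (u (z 1)) - v (z 0) * conj (v (z 1)))‖ ^ 2 ∂(relInd m ν (Fin 2)) ≤
      ∫ z, B ^ 4 * ‖u (z 0) * conj (u (z 1)) - v (z 0) * conj (v (z 1))‖ ^ 2
        ∂(relInd m ν (Fin 2)) := by
    refine integral_mono (bas_int_sq (BMs.mul b4 b3) _) ((bas_int_sq b3 _).const_mul _) ?_
    intro z
    show ‖(F (z 0) * conj (F (z 1))) *
      (u (z 0) * conj (u (z 1)) - v (z 0) * conj (v (z 1)))‖ ^ 2 ≤
      B ^ 4 * ‖u (z 0) * conj (u (z 1)) - v (z 0) * conj (v (z 1))‖ ^ 2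
    rw [norm_mul, norm_mul, Complex.norm_conj, mul_pow]
    refine mul_le_mul_of_nonneg_right ?_ (by positivity)
    have h1 : ‖F (z 0)‖ * ‖F (z 1)‖ ≤ B * B :=
      mul_le_mul (hFB _) (hFB _) (norm_nonneg _) hB
    calc (‖F (z 0)‖ * ‖F (z 1)‖) ^ 2 ≤ (B * B) ^ 2 :=
          pow_le_pow_left₀ (by positivity) h1 2
      _ = B ^ 4 := by ring
  rw [integral_const_mul] at e5
  have e6 : ‖((a : ℂ) - (b : ℂ))‖ ^ 2 ≤ η ^ 2 := by
    refine (e4.trans e5).trans ?_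
    exact (mul_le_mul_of_nonneg_left h (by positivity)).trans hε
  have e7 : ‖((a : ℂ) - (b : ℂ))‖ = |a - b| := by
    rw [← Complex.ofReal_sub, Complex.norm_real, Real.norm_eq_abs]
  rw [e7] at e6
  have e8 : |a - b| ≤ η := (pow_le_pow_iff_left₀ (abs_nonneg _) hη two_ne_zero).1 e6
  linarith [le_abs_self (a - b)]

/-- the completion of a sub σ-algebra of `Zalg` is a sub σ-algebra of `Zalg` -/
theorem mi_cl_le {Q : Type} (m : MeasurableSpace Q) [mQ : MeasurableSpace Q]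
    [StandardBorelSpace Q] (ν : Measure Q) [IsProbabilityMeasure ν] (S : Q ≃ᵐ Q) (k : ℕ)
    (h : m ≤ Zalg ν S k) : cl m ν ≤ Zalg ν S k := by
  rintro s ⟨hs, t, ht, hst⟩
  exact Zalg_congr (h t ht) hs hst.symm

/-- The last part of the induction step: from a function `u₃` with `m`-measurable cocycle that
correlates with `g ∘ π` over `m` to a step. -/
theorem mi_last {k : ℕ} {X : Type} [MeasurableSpace X] [StandardBorelSpace X]
    (μ : Measure X) [IsProbabilityMeasure μ] (T : X ≃ᵐ X) (hT : Ergodic T μ) {f g : X → ℂ}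
    (hf : BM f) (hg1 : BMs (Zalg μ T (k + 1)) g) (hg3 : μ[f | Zalg μ T (k + 1)] =ᵐ[μ] g)
    {Q : Type} (m : MeasurableSpace Q) [mQ : MeasurableSpace Q] [hQ : StandardBorelSpace Q]
    (ν : Measure Q) (S : Q ≃ᵐ Q) (π : Q → X) (hext : Ext m μ T k ν S π) {u₃ : Q → ℂ}
    (hu : Measurable u₃) (hu1 : ∀ q, ‖u₃ q‖ = 1)
    (huc : AEM (cl m ν) ν (fun q => u₃ (S q) * conj (u₃ q))) {β : Q → ℂ} (hβ : BMs m β)
    (hne : ∫ q, β q * (g (π q) * u₃ q) ∂ν ≠ 0) :
    ∃ (m' : MeasurableSpace Q), @Ext X Q m' _ _ mQ hQ μ T (k + 1) ν S π ∧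
      ¬ (ν[fun q => f (π q) | m'] =ᵐ[ν] 0) := by
  have hP : IsProbabilityMeasure ν := hext.prob
  have hS : Ergodic S ν := hext.erg
  have hSm := hS.toMeasurePreserving
  have hTm := hT.toMeasurePreserving
  have hmZ : m ≤ Zalg ν S k := TowAlg.le_Zalg m ν S hext.tow
  have hmZ' : m ≤ Zalg ν S (k + 1) := hmZ.trans (Zalg_mono ν S hSm (Nat.le_succ k))
  have hmQ : m ≤ mQ := TowAlg.le m ν S hext.tow
  have hInv : TInv (cl m ν) S := TowAlg.cl_TInv m ν S hSm hext.tow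
  have huB : BM u₃ := ⟨hu, 1, fun q => (hu1 q).le⟩
  have hπ : Measurable[Zalg ν S (k + 1), Zalg μ T (k + 1)] π := Zalg_fmap hSm hTm hext.fm (k + 1)
  have hgπ : BMs (Zalg ν S (k + 1)) (fun q => g (π q)) := hg1.comp hπ
  have hne2 : gn ν S (k + 1 + 1) u₃ ≠ 0 := by
    intro h0
    have h1 := (gn_eq_zero_iff ν S hSm (k + 1) huB).1 h0
    have h2 := (condExp_eq_zero_iff (Zalg ν S (k + 1)) ν (Zalg_le ν S (k + 1)) huB).1 h1
      (fun q => β q * g (π q)) ((hβ.mono hmZ').mul hgπ)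
    refine hne ?_
    rw [← h2]
    refine integral_congr_ae (Eventually.of_forall fun q => ?_)
    show β q * (g (π q) * u₃ q) = β q * g (π q) * u₃ q
    ring
  have hord : AEM (Zalg ν S (k + 1)) ν u₃ :=
    phase_Z (cl m ν) ν S hS (k + 1) (mi_cl_le m ν S (k + 1) hmZ') hInv hu hu1 huc hne2
  obtain ⟨ρ, hρ, hρe⟩ := (aem_cl_iff m ν hmQ).1 huc
  have hstep : IsStep m ν S (k + 1) u₃ := by
    refine ⟨hu, hu1, ⟨ρ, hρ, ?_⟩, hord⟩
    filter_upwards [hρe] with q hq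
    have h1 : conj (u₃ q) * u₃ q = 1 := by
      rw [Complex.conj_mul', hu1 q]
      simp
    rw [← hq, mul_assoc, h1, mul_one]
  have htow := TowAlg.step m ν S (TowAlg.mono m ν S hSm (Nat.le_succ k) hext.tow) hstep
  refine ⟨m ⊔ MeasurableSpace.comap u₃ inferInstance, ⟨hP, hS, hext.fm, htow⟩, fun h0 => ?_⟩
  have hm'Z : m ⊔ MeasurableSpace.comap u₃ inferInstance ≤ Zalg ν S (k + 1) :=
    TowAlg.le_Zalg _ ν S htow
  have hm'Q : m ⊔ MeasurableSpace.comap u₃ inferInstance ≤ mQ :=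
    hm'Z.trans (Zalg_le ν S (k + 1))
  have hfπ : BM (fun q => f (π q)) := BMs.comp hf hext.fm.mp.measurable
  have hγ : BMs (m ⊔ MeasurableSpace.comap u₃ inferInstance) (fun q => β q * u₃ q) := by
    refine (hβ.mono le_sup_left).mul ⟨?_, 1, fun q => (hu1 q).le⟩
    exact (comap_measurable u₃).mono le_sup_right le_rfl
  have h1 := (condExp_eq_zero_iff _ ν hm'Q hfπ).1 h0 (fun q => β q * u₃ q) hγ
  have h2 := integral_mul_condExp (Zalg ν S (k + 1)) ν (Zalg_le ν S (k + 1)) hfπ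
    (hγ.mono hm'Z)
  rw [h1] at h2
  have h3 := condExp_Zalg_fmap hSm hTm hext.fm (k + 1) hf
  have h4 : (fun q => (μ[f | Zalg μ T (k + 1)]) (π q)) =ᵐ[ν] fun q => g (π q) :=
    hext.fm.mp.quasiMeasurePreserving.ae_eq_comp hg3
  refine hne ?_
  rw [← h2]
  refine integral_congr_ae ?_
  filter_upwards [h3, h4] with q h5 h6
  rw [h5, h6]
  ring

/-- **MI2.** Induction step.

Proof. Let `gn (k+2) f ≠ 0`, `s = k + 1`. Let `g` be a bounded `Zalg (k+1)`-measurable version of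
`E[f | Zalg (k+1)]`; `gn (k+2) g ≠ 0` (`gn_eq_zero_iff`, `E[g|Zalg] = g`). Take `c₀` from
`mi_approx` for `g`, `B` a bound of `g`, `ε > 0` with `B ^ 2 * sqrt ε < c₀ ^ 2`, `δ` from
`stability (k+1)` for `ε`, then `(Q, m, u, α)` from `mi_approx`. Apply `stability` with the
σ-algebra `cl m ν` (invariant: `TowAlg.cl_TInv`; hypotheses by `condExp_cl`, `aem_pw_cl`): `u₃` with
cocycle `AEM (cl m)`, hence `AEM m` (`aem_cl_iff`), so there is an `m`-measurable `ρ` with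
`u₃ ∘ S = ρ u₃` a.e. With `F = g∘π * α`: by `relInd_prod`
`∫ ‖E[F u | cl m]‖² = ∫ F (z 0) conj (F (z 1)) u (z 0) conj (u (z 1)) ∂(relInd (cl m) ν (Fin 2))` and the
same for `u₃`; they differ by at most `B² sqrt ε`, and the first one is `≥ ‖∫ F u‖² ≥ c₀²`. So
`E[F u₃ | m] ≠ 0`, and as `α` is `m`-measurable `E[g∘π u₃ | m] ≠ 0`. Then there is a bounded
`m`-measurable `β` with `∫ u₃ (g∘π β) ≠ 0`; `g∘π β` has order `k + 1` (`Zalg_fmap`,
`TowAlg.le_Zalg`, `Zalg_mono`) so `E[u₃ | Zalg (k+1)] ≠ 0`, `gn (k+2) u₃ ≠ 0` and by `phase_Z` (for the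
σ-algebra `cl m ν ≤ Zalg ν S (k+1)`: `Zalg_congr`) `u₃` has order `k + 1`. So `u₃` is a step over `m`,
and `m' = m ⊔ comap u₃` is a tower algebra of order `k + 1` (`TowAlg.mono`, `TowAlg.step`). If
`E[g∘π | m'] = 0` then `E[g∘π u₃|m'] = 0` and `E[g∘π u₃|m] = 0`, a contradiction. Finally
`E[f∘π | m'] = E[E[f∘π|Zalg (k+1)] | m'] = E[g∘π|m'] ≠ 0` (`condExp_Zalg_fmap`). -/
theorem st_succ {k : ℕ} (hAP : AP k) : ST (k + 1) := by
  intro X _ _ μ _ T hT f hf hg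
  have hTm := hT.toMeasurePreserving
  obtain ⟨g, hg1, hg2, hg3, hg4⟩ := ZD_version μ T hTm (k + 1) hf
  have hgne : gn μ T (k + 1 + 1) g ≠ 0 := by
    intro h0
    have h1 := (gn_eq_zero_iff μ T hTm (k + 1) hg2).1 h0
    have h2 : μ[g | Zalg μ T (k + 1)] = g :=
      condExp_of_stronglyMeasurable (Zalg_le μ T (k + 1)) hg1.1.stronglyMeasurable
        (hg2.integrable μ)
    rw [h2] at h1
    exact hg ((gn_eq_zero_iff μ T hTm (k + 1) hf).2 (hg3.trans h1))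
  obtain ⟨c₀, hc₀, H⟩ := mi_approx hAP μ T hT hg2 (AEM.of_meas hg1.1) hgne
  obtain ⟨C, hC⟩ := hg2.2
  set B : ℝ := |C| + 1 with hB
  have hB0 : 0 < B := by positivity
  have hgB : ∀ x, ‖g x‖ ≤ B := fun x => (hC x).trans ((le_abs_self C).trans (by linarith))
  set ε : ℝ := (c₀ ^ 2 / 2) ^ 2 / B ^ 4 with hε
  have hε0 : 0 < ε := by positivity
  obtain ⟨δ, hδ, hstab⟩ := stability (k + 1) hε0
  obtain ⟨Q, m, mQ, hQ, ν, S, π, u, α, hext, hu, hu1, hα, hα1, hc, hd1, hd2⟩ := H δ hδ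
  have hP : IsProbabilityMeasure ν := hext.prob
  have hS : Ergodic S ν := hext.erg
  have hSm := hS.toMeasurePreserving
  have hmQ : m ≤ mQ := TowAlg.le m ν S hext.tow
  have hInv : TInv (cl m ν) S := TowAlg.cl_TInv m ν S hSm hext.tow
  have huB : BM u := ⟨hu, 1, fun q => (hu1 q).le⟩
  have hcB : BM (fun q => u (S q) * conj (u q)) :=
    BMs.mul (BMs.comp huB S.measurable) (BMs.conj huB)
  obtain ⟨u₃, hu3, hu31, hu3c, hu3d⟩ := hstab Q (cl m ν) ν (cl_le m ν) S hS hInv u hu hu1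
    (by
      refine le_trans (le_of_eq ?_) hd1
      refine integral_congr_ae ?_
      filter_upwards [condExp_cl m ν hmQ hcB] with q hq
      rw [hq])
    (by
      refine le_trans (le_of_eq ?_) hd2
      refine integral_congr_ae ?_
      filter_upwards [aem_pw_cl m ν S hmQ (k + 1 + 1) (dd_bm (k + 1 + 1) huB)] with q hq
      rw [hq])
  have hu3B : BM u₃ := ⟨hu3, 1, fun q => (hu31 q).le⟩
  have hgπ : BM (fun q => g (π q)) := BMs.comp hg2 hext.fm.mp.measurable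
  have hαB : BM α := BMs.mono hmQ hα
  have hFBM : BM (fun q => g (π q) * α q) := BMs.mul hgπ hαB
  have hFB : ∀ q, ‖g (π q) * α q‖ ≤ B := by
    intro q
    rw [norm_mul]
    calc ‖g (π q)‖ * ‖α q‖ ≤ B * 1 :=
          mul_le_mul (hgB _) (hα1 q) (norm_nonneg _) hB0.le
      _ = B := mul_one B
  have h1 := mi_close (cl m ν) ν (cl_le m ν) hFBM huB hu3B hB0.le hFB (η := c₀ ^ 2 / 2)
    (by positivity) (ε := ε) (by rw [hε, mul_div_cancel₀]; positivity) hu3d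
  have h2 := mi_jensen (cl m ν) ν (cl_le m ν) (BMs.mul hFBM huB)
  have h3 : c₀ ^ 2 ≤ ‖∫ q, g (π q) * α q * u q ∂ν‖ ^ 2 := by
    refine pow_le_pow_left₀ hc₀.le ?_ 2
    refine hc.trans (le_of_eq ?_)
    congr 1
    refine integral_congr_ae (Eventually.of_forall fun q => ?_)
    show g (π q) * u q * α q = g (π q) * α q * u q
    ring
  have h4 : 0 < ∫ q, ‖(ν[fun q => g (π q) * α q * u₃ q | cl m ν]) q‖ ^ 2 ∂ν := by
    have h5 : 0 < c₀ ^ 2 := by positivity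
    linarith
  have h5 : ∃ β : Q → ℂ, BMs m β ∧ ∫ q, β q * (g (π q) * u₃ q) ∂ν ≠ 0 := by
    by_contra hcon
    push Not at hcon
    have h6 : ν[fun q => g (π q) * α q * u₃ q | m] =ᵐ[ν] 0 := by
      refine (condExp_eq_zero_iff m ν hmQ (BMs.mul hFBM hu3B)).2 fun β hβ => ?_
      rw [← hcon (fun q => β q * α q) (hβ.mul hα)]
      refine integral_congr_ae (Eventually.of_forall fun q => ?_)
      show β q * (g (π q) * α q * u₃ q) = β q * α q * (g (π q) * u₃ q)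
      ring
    have h7 := condExp_cl m ν hmQ (BMs.mul hFBM hu3B)
    have h8 : ∫ q, ‖(ν[fun q => g (π q) * α q * u₃ q | cl m ν]) q‖ ^ 2 ∂ν = 0 := by
      rw [← integral_zero Q ℝ (μ := ν)]
      refine integral_congr_ae ?_
      filter_upwards [h6, h7] with q h9 h10
      rw [h10, h9]
      simp
    exact h4.ne' h8
  obtain ⟨β, hβ, hne⟩ := h5
  obtain ⟨m', he', hf'⟩ := mi_last μ T hT hf hg1 hg3 m ν S π hext hu3 hu31 hu3c hβ hne
  exact ⟨Q, m', mQ, hQ, ν, S, π, he', hf'⟩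

/-- **MI3.** Order `0`: `Q = X`, `m = ⊥`, `gn 1 f = ‖∫ f‖² ≠ 0` and `E[f | ⊥] = ∫ f`. -/
theorem st_zero : ST 0 := by
  intro X _ _ μ _ T hT f hf hg
  have h1 := gn_one μ T hT hf
  have h2 : ∫ x, f x ∂μ ≠ 0 := by
    intro h0
    refine hg ?_
    show gn μ T 1 f = 0
    rw [h1, h0]
    simp
  refine ⟨X, ⊥, inferInstance, inferInstance, μ, T, id, ⟨inferInstance, hT,
    ⟨MeasurePreserving.id μ, Eventually.of_forall fun x => rfl⟩, TowAlg.bot μ T 0⟩, fun h0 => ?_⟩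
  have h3 : μ[fun q => f (id q) | ⊥] = fun _ => ∫ x, f x ∂μ := condExp_bot f
  rw [h3] at h0
  obtain ⟨x, hx⟩ := h0.exists
  exact h2 hx

/-- **MI4.** The structure theorem in terms of towers. -/
theorem structure_theorem (s : ℕ) : ST s := by
  induction s with
  | zero => exact st_zero
  | succ k ih => exact st_succ (ap_of_st ih)

theorem approximation_theorem (s : ℕ) : AP s := ap_of_st (structure_theorem s)

end Pool.Agent.HK820

end

/-! ### Part `MN` -/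

section

open MeasureTheory ProbabilityTheory Filter Topology
open scoped ComplexConjugate ENNReal

namespace Pool.Agent.HK820

/-! ### The trivial model -/

/-- the trivial group datum -/
noncomputable def mn_zeroND : ND where
  V := Fin 0 → ℝ
  mul x _ := x
  inv x := x
  phi := Equiv.refl _
  assoc _ _ _ := rfl
  zero_mul _ := Subsingleton.elim _ _
  mul_zero _ := rfl
  inv_mul _ := Subsingleton.elim _ _
  phi_mul _ _ := rfl
  smooth_mul := contDiff_fst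
  smooth_inv := contDiff_id
  smooth_phi := contDiff_id
  smooth_phi' := contDiff_id

instance mn_zeroND_subsingleton : Subsingleton mn_zeroND.V :=
  inferInstanceAs (Subsingleton (Fin 0 → ℝ))

theorem mn_zero_comm (g h : GG mn_zeroND) : g * h = h * g := by
  refine Prod.ext (Subsingleton.elim _ _) ?_
  exact add_comm g.2 h.2

theorem mn_zero_discrete : DiscreteTopology (GG mn_zeroND) :=
  inferInstanceAs (DiscreteTopology ((Fin 0 → ℝ) × ℤ))

instance mn_zero_kk : Subsingleton (KK mn_zeroND (⊤ : Subgroup (GG mn_zeroND))) :=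
  QuotientGroup.subsingleton_quotient_top

/-- **MN1.** The trivial model: `V` is a point, `Γ = ⊤`. -/
theorem model_zero {Q : Type} [MeasurableSpace Q] [StandardBorelSpace Q] (ν : Measure Q)
    [IsProbabilityMeasure ν] (S : Q ≃ᵐ Q) (hS : Ergodic S ν) (s : ℕ) :
    ∃ (d : ND) (Γ : Subgroup (GG d)) (Θ : Q → KK d Γ), Model d Γ ν S s Θ := by
  have hd := mn_zero_discrete
  refine ⟨mn_zeroND, ⊤, fun _ => KK.proj _ _ 1, ⟨inferInstance, ?_, ⟨1, ?_⟩, ?_,
    measurable_const, Eventually.of_forall fun q => Subsingleton.elim _ _, ?_, ?_⟩⟩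
  · exact Finite.compactSpace
  · rw [Subgroup.lowerCentralSeries_succ, Subgroup.lowerCentralSeries_zero, eq_bot_iff,
      Subgroup.commutator_le]
    intro g _ h _
    rw [Subgroup.mem_bot, commutatorElement_eq_one_iff_mul_comm]
    exact mn_zero_comm g h
  · refine ⟨0, Fin.elim0, Homeomorph.refl _, fun i => i.elim0, fun i => i.elim0, fun t => ?_⟩
    exact Subsingleton.elim (α := mn_zeroND.V) _ _
  · intro g
    have h1 : (fun y : KK mn_zeroND (⊤ : Subgroup (GG mn_zeroND)) => g • y) = id :=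
      funext fun y => Subsingleton.elim _ _
    rw [h1, Measure.map_id]
  · rw [MeasurableSpace.comap_const]
    exact bot_le

/-- **MN2.** One step. Proof: `u ∘ S = ρ' u` with `ρ'` `m'`-measurable, `m' ≤ cl (comap Θ)`, so
`ρ' = ρ ∘ Θ` a.e. with `ρ` measurable, unimodular (change it where `|ρ| ≠ 1`; `AEM` + factorisation of
`comap Θ`-measurable functions). `fn_reduce` (with `μ = ν.map Θ`, `Model.fmap`) gives `k`, `r`, `ρ₁`, `w`;
`w = u conj (r ∘ Θ)` is of order `s` (`Model.ord`, `IsStep.ord`); `model_LData`; `mk_step` gives `Θ₂`; and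
`u = w (r ∘ Θ)` a.e. is measurable for `cl (comap Θ₂)`. -/
theorem model_step {Q : Type} (m' : MeasurableSpace Q) [mQ : MeasurableSpace Q]
    [StandardBorelSpace Q] {ν : Measure Q} [IsProbabilityMeasure ν] {S : Q ≃ᵐ Q}
    (hS : Ergodic S ν) {s : ℕ} {d : ND} {Γ : Subgroup (GG d)} {Θ : Q → KK d Γ}
    (h : Model d Γ ν S s Θ) (hm : m' ≤ cl (MeasurableSpace.comap Θ inferInstance) ν) {u : Q → ℂ}
    (hu : IsStep m' ν S s u) :
    ∃ (d₂ : ND) (Γ₂ : Subgroup (GG d₂)) (Θ₂ : Q → KK d₂ Γ₂), Model d₂ Γ₂ ν S s Θ₂ ∧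
      MeasurableSpace.comap Θ inferInstance ≤ cl (MeasurableSpace.comap Θ₂ inferInstance) ν ∧
      MeasurableSpace.comap u inferInstance ≤ cl (MeasurableSpace.comap Θ₂ inferInstance) ν := by
  have i1 := h.prob
  have i2 := kk_std d Γ h.disc h.cocpt
  have hΘm : MeasurableSpace.comap Θ inferInstance ≤ mQ := h.meas.comap_le
  obtain ⟨ρ', hρ', hρe⟩ := hu.coc
  have h1 : AEM (MeasurableSpace.comap Θ inferInstance) ν ρ' :=
    (aem_cl_iff _ ν hΘm).1 (AEM.of_meas (hρ'.mono hm le_rfl))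
  have h2 : ∀ᵐ q ∂ν, ‖ρ' q‖ = 1 := by
    filter_upwards [hρe] with q hq
    have h3 := congrArg norm hq
    rw [norm_mul, hu.norm, hu.norm, mul_one] at h3
    exact h3.symm
  obtain ⟨g, hg1, hg2, hg3⟩ := h1.unimodular h2
  obtain ⟨ρ₀, hρ₀, hg4⟩ := hg1.exists_eq_measurable_comp
  classical
  have hN : MeasurableSet {y : KK d Γ | ‖ρ₀ y‖ = 1} :=
    measurableSet_eq_fun hρ₀.norm measurable_const
  set ρ : KK d Γ → ℂ := fun y => if ‖ρ₀ y‖ = 1 then ρ₀ y else 1 with hρdef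
  have hρ : Measurable ρ := Measurable.ite hN hρ₀ measurable_const
  have hρ1 : ∀ y, ‖ρ y‖ = 1 := by
    intro y
    rw [hρdef]
    by_cases hy : ‖ρ₀ y‖ = 1
    · simp only [hy, if_true]
    · simp only [hy, if_false, norm_one]
  have hρΘ : ∀ q, ρ (Θ q) = g q := by
    intro q
    have h3 : g q = ρ₀ (Θ q) := congrFun hg4 q
    have h4 : ‖ρ₀ (Θ q)‖ = 1 := by rw [← h3]; exact hg2 q
    rw [hρdef]
    simp only [h4, if_true]
    exact h3.symm
  have hc : ∀ᵐ q ∂ν, u (S q) = ρ (Θ q) * u q := by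
    filter_upwards [hρe, hg3] with q h3 h4
    rw [h3, hρΘ, h4]
  obtain ⟨k, r, ρ₁, w, hr, hr1, hρ₁, hρ₁c, hw, hwc, hwe, hwu, hfree⟩ :=
    fn_reduce ν S hS (ν.map Θ) (KK.tauE d Γ) (h.mp (GG.tau d)) h.fmap hu.meas hu.norm hρ hρ1 hc
  have hrm : Measurable[MeasurableSpace.comap Θ inferInstance] (fun q => r (Θ q)) :=
    hr.comp (comap_measurable Θ)
  have how : AEM (Zalg ν S s) ν w := by
    have h3 : AEM (Zalg ν S s) ν (fun q => r (Θ q)) := AEM.of_meas (hrm.mono h.ord le_rfl)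
    exact (hu.ord.mul h3.conj).congr (hwu.mono fun q hq => hq.symm)
  obtain ⟨F, c, b, hL⟩ := model_LData h hS hw hwc hρ₁ hρ₁c hwe how
  obtain ⟨d₂, Γ₂, Θ₂, hM, hle, hlw⟩ := mk_step h hS hw hwc hρ₁ hρ₁c hwe how hfree hL
  refine ⟨d₂, Γ₂, Θ₂, hM, hle, ?_⟩
  have hΘ₂m : MeasurableSpace.comap Θ₂ inferInstance ≤ mQ := hM.meas.comap_le
  have h5 : AEM (cl (MeasurableSpace.comap Θ₂ inferInstance) ν) ν w :=
    AEM.of_meas ((comap_measurable w).mono hlw le_rfl)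
  have h6 : AEM (cl (MeasurableSpace.comap Θ₂ inferInstance) ν) ν (fun q => r (Θ q)) :=
    AEM.of_meas (hrm.mono hle le_rfl)
  have h7 : AEM (cl (MeasurableSpace.comap Θ₂ inferInstance) ν) ν u := by
    refine (h5.mul h6).congr ?_
    filter_upwards [hwu] with q hq
    have h8 : conj (r (Θ q)) * r (Θ q) = 1 := by
      rw [Complex.conj_mul', hr1]
      simp
    rw [hq, mul_assoc, h8, mul_one]
  exact (meas_cl _ ν hu.meas ((aem_cl_iff _ ν hΘ₂m).1 h7)).comap_le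

/-- the completion is idempotent -/
theorem mn_cl_cl {X : Type} (m m' : MeasurableSpace X) [mX : MeasurableSpace X] (μ : Measure X)
    (h : m' ≤ cl m μ) : cl m' μ ≤ cl m μ := by
  rintro s ⟨h1, t, ht, hst⟩
  obtain ⟨-, t', ht', htt⟩ := h t ht
  exact ⟨h1, t', ht', hst.trans htt⟩

theorem mn_tower_aux {Q : Type} [mQ : MeasurableSpace Q] [hQ : StandardBorelSpace Q]
    {ν : Measure Q} [IsProbabilityMeasure ν] {S : Q ≃ᵐ Q} (hS : Ergodic S ν) {s : ℕ} (n : ℕ) :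
    ∀ m : MeasurableSpace Q, @TowN Q mQ hQ ν S s n m →
    ∃ (d : ND) (Γ : Subgroup (GG d)) (Θ : Q → KK d Γ), @Model d Γ Q mQ hQ ν S s Θ ∧
      m ≤ @cl Q (MeasurableSpace.comap Θ inferInstance) mQ ν := by
  induction n with
  | zero =>
    obtain ⟨d, Γ, Θ, h⟩ := model_zero ν S hS s
    intro m hm
    refine ⟨d, Γ, Θ, h, ?_⟩
    rw [show m = ⊥ from hm]
    exact bot_le
  | succ n ih =>
    rintro m ⟨m', u, hm', hu, rfl⟩
    obtain ⟨d, Γ, Θ, h, hle⟩ := ih m' hm'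
    obtain ⟨d₂, Γ₂, Θ₂, h₂, h3, h4⟩ :=
      @model_step Q m' mQ hQ ν _ S hS s d Γ Θ h hle u hu
    exact ⟨d₂, Γ₂, Θ₂, h₂,
      sup_le (hle.trans (@mn_cl_cl Q _ _ mQ ν h3)) h4⟩

/-- **MN3.** Every tower algebra is contained in the completion of the σ-algebra of a model
(induction on the tower). -/
theorem model_tower {Q : Type} (m : MeasurableSpace Q) [mQ : MeasurableSpace Q]
    [StandardBorelSpace Q] {ν : Measure Q} [IsProbabilityMeasure ν] {S : Q ≃ᵐ Q}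
    (hS : Ergodic S ν) {s : ℕ} (h : TowAlg m ν S s) :
    ∃ (d : ND) (Γ : Subgroup (GG d)) (Θ : Q → KK d Γ), Model d Γ ν S s Θ ∧
      m ≤ cl (MeasurableSpace.comap Θ inferInstance) ν := by
  obtain ⟨n, hn⟩ := h
  exact mn_tower_aux hS n m hn

/-- approximation of a bounded Borel function by a continuous function -/
theorem mn_approx {K Q : Type} [TopologicalSpace K] [CompactSpace K] [T2Space K]
    [SecondCountableTopology K] [MeasurableSpace K] [BorelSpace K] [MeasurableSpace Q]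
    (ν : Measure Q) [IsProbabilityMeasure ν] {Θ : Q → K} (hΘ : Measurable Θ) {f : Q → ℂ}
    (hf : BM f) {G : K → ℂ} (hG : BM G) (hne : ∫ q, f q * G (Θ q) ∂ν ≠ 0) :
    ∃ F : C(K, ℂ), ∫ q, f q * F (Θ q) ∂ν ≠ 0 := by
  have i1 : IsProbabilityMeasure (ν.map Θ) :=
    Measure.isProbabilityMeasure_map hΘ.aemeasurable
  obtain ⟨C, hC⟩ := hf.2
  have hC0 : 0 ≤ |C| := abs_nonneg C
  have hδ : 0 < ‖∫ q, f q * G (Θ q) ∂ν‖ := norm_pos_iff.2 hne
  have hGi : Integrable G (ν.map Θ) := hG.integrable _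
  obtain ⟨F, hF1, hF2⟩ := hGi.exists_boundedContinuous_integral_sub_le
    (ε := ‖∫ q, f q * G (Θ q) ∂ν‖ / (2 * (|C| + 1))) (by positivity)
  refine ⟨F.toContinuousMap, fun h0 => ?_⟩
  have h0' : ∫ q, f q * F (Θ q) ∂ν = 0 := h0
  have hFm : Measurable F := F.continuous.measurable
  have hFB : BM (fun y => F y) := ⟨hFm, ‖F‖, fun y => F.norm_coe_le_norm y⟩
  have b1 : BM (fun q => f q * G (Θ q)) := BMs.mul hf (BMs.comp hG hΘ)
  have b2 : BM (fun q => f q * F (Θ q)) := BMs.mul hf (BMs.comp hFB hΘ)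
  have b3 : BM (fun y => G y - F y) := BMs.sub hG hFB
  have h1 : ∫ q, f q * G (Θ q) ∂ν = ∫ q, f q * (G (Θ q) - F (Θ q)) ∂ν := by
    have h2 : ∫ q, f q * (G (Θ q) - F (Θ q)) ∂ν =
        ∫ q, f q * G (Θ q) ∂ν - ∫ q, f q * F (Θ q) ∂ν := by
      rw [← integral_sub (b1.integrable ν) (b2.integrable ν)]
      refine integral_congr_ae (Eventually.of_forall fun q => ?_)
      show f q * (G (Θ q) - F (Θ q)) = f q * G (Θ q) - f q * F (Θ q)
      ring
    rw [h2, h0', sub_zero]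
  have h2 : ‖∫ q, f q * G (Θ q) ∂ν‖ ≤ |C| * ∫ y, ‖G y - F y‖ ∂(ν.map Θ) := by
    rw [h1]
    have h3 : ∫ y, ‖G y - F y‖ ∂(ν.map Θ) = ∫ q, ‖G (Θ q) - F (Θ q)‖ ∂ν :=
      integral_map hΘ.aemeasurable (b3.1.norm.aestronglyMeasurable)
    rw [h3, ← integral_const_mul]
    have b4 : BM (fun q => G (Θ q) - F (Θ q)) := BMs.comp b3 hΘ
    refine norm_integral_le_of_norm_le ((BM.integrable b4 ν).norm.const_mul _)
      (Eventually.of_forall fun q => ?_)
    rw [norm_mul]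
    exact mul_le_mul_of_nonneg_right ((hC q).trans (le_abs_self C)) (norm_nonneg _)
  have h3 : |C| * ∫ y, ‖G y - F y‖ ∂(ν.map Θ) ≤
      |C| * (‖∫ q, f q * G (Θ q) ∂ν‖ / (2 * (|C| + 1))) :=
    mul_le_mul_of_nonneg_left hF1 hC0
  have h4 : |C| * (‖∫ q, f q * G (Θ q) ∂ν‖ / (2 * (|C| + 1))) <
      ‖∫ q, f q * G (Θ q) ∂ν‖ := by
    rw [mul_div_assoc', div_lt_iff₀ (by positivity)]
    nlinarith
  linarith

/-- **MN4.** Inverse theorem: a function with nonzero seminorm of order `s + 1` correlates, on an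
ergodic extension, with a continuous function on a nilmanifold of class at most `s`.

Proof. `structure_theorem s` gives the extension `Q` and a tower algebra `m` with
`E[f ∘ π | m] ≠ 0`. `model_tower`: `E[f ∘ π | comap Θ] ≠ 0` (otherwise the conditional expectation on
`cl (comap Θ)` vanishes, `condExp_cl`, and then the one on `m`). So `∫ f ∘ π * g ∘ Θ ≠ 0` for a bounded
Borel `g` on `KK d Γ`; approximate `g` in `L²(ν.map Θ)` by a continuous function (compact metrizable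
space: `kk_t2`, `Model.cocpt`). The class: `Model.class_le`. -/
theorem nil_structure (s : ℕ) (hs : 1 ≤ s) {X : Type} [MeasurableSpace X] [StandardBorelSpace X]
    (μ : Measure X) [IsProbabilityMeasure μ] (T : X ≃ᵐ X) (hT : Ergodic T μ) {f : X → ℂ}
    (hf : BM f) (hg : gn μ T (s + 1) f ≠ 0) :
    ∃ (Q : Type) (_ : MeasurableSpace Q) (_ : StandardBorelSpace Q) (ν : Measure Q)
      (S : Q ≃ᵐ Q) (π : Q → X) (d : ND) (Γ : Subgroup (GG d)) (Θ : Q → KK d Γ)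
      (F : C(KK d Γ, ℂ)), IsProbabilityMeasure ν ∧ Ergodic S ν ∧ FMap ν S μ T π ∧
      Model d Γ ν S s Θ ∧ (⊤ : Subgroup (GG d)).lowerCentralSeries s = ⊥ ∧
      ∫ q, f (π q) * F (Θ q) ∂ν ≠ 0 := by
  obtain ⟨Q, m, mQ, hQ, ν, S, π, hext, hne⟩ := structure_theorem s X μ T hT f hf hg
  have hP : IsProbabilityMeasure ν := hext.prob
  have hS : Ergodic S ν := hext.erg
  obtain ⟨d, Γ, Θ, hM, hle⟩ := model_tower m hS hext.tow
  have hmQ : m ≤ mQ := TowAlg.le m ν S hext.tow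
  have i2 := hM.cocpt
  have i3 := kk_t2 d Γ hM.disc
  have hΘm : MeasurableSpace.comap Θ inferInstance ≤ mQ := hM.meas.comap_le
  have hfπ : BM (fun q => f (π q)) := BMs.comp hf hext.fm.mp.measurable
  have h1 : ∃ g : Q → ℂ, BMs (MeasurableSpace.comap Θ inferInstance) g ∧
      ∫ q, g q * f (π q) ∂ν ≠ 0 := by
    by_contra hcon
    push Not at hcon
    have h2 := (condExp_eq_zero_iff (MeasurableSpace.comap Θ inferInstance) ν hΘm hfπ).2 hcon
    have h3 := condExp_cl (MeasurableSpace.comap Θ inferInstance) ν hΘm hfπ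
    have h4 := (condExp_eq_zero_iff (cl (MeasurableSpace.comap Θ inferInstance) ν) ν
      (cl_le _ ν) hfπ).1 (h3.trans h2)
    exact hne ((condExp_eq_zero_iff m ν hmQ hfπ).2 fun g hg => h4 g (hg.mono hle))
  obtain ⟨g, ⟨hg1, C, hC⟩, hg2⟩ := h1
  obtain ⟨G₀, hG₀, hG₁⟩ := hg1.exists_eq_measurable_comp
  classical
  have hN : MeasurableSet {y : KK d Γ | ‖G₀ y‖ ≤ C} := measurableSet_le hG₀.norm measurable_const
  have hG : BM (fun y => if ‖G₀ y‖ ≤ C then G₀ y else 0) := by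
    refine ⟨Measurable.ite hN hG₀ measurable_const, |C|, fun y => ?_⟩
    by_cases hy : ‖G₀ y‖ ≤ C
    · simp only [hy, if_true]
      exact hy.trans (le_abs_self C)
    · simp only [hy, if_false, norm_zero]
      exact abs_nonneg C
  have hGΘ : ∀ q, (if ‖G₀ (Θ q)‖ ≤ C then G₀ (Θ q) else 0) = g q := by
    intro q
    have h3 : g q = G₀ (Θ q) := congrFun hG₁ q
    have h4 : ‖G₀ (Θ q)‖ ≤ C := by rw [← h3]; exact hC q
    rw [if_pos h4, h3]
  have hne' : ∫ q, f (π q) * (if ‖G₀ (Θ q)‖ ≤ C then G₀ (Θ q) else 0) ∂ν ≠ 0 := by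
    intro h0
    refine hg2 ?_
    rw [← h0]
    refine integral_congr_ae (Eventually.of_forall fun q => ?_)
    show g q * f (π q) = f (π q) * (if ‖G₀ (Θ q)‖ ≤ C then G₀ (Θ q) else 0)
    rw [hGΘ, mul_comm]
  obtain ⟨F, hF⟩ := mn_approx ν hM.meas hfπ hG hne'
  exact ⟨Q, mQ, hQ, ν, S, π, d, Γ, Θ, F, hP, hS, hext.fm, hM, hM.class_le hs hS, hF⟩

end Pool.Agent.HK820

end

/-! ### Part `Fin820` -/

section

/-! # The structure theorem in the form used by Part 0 -/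

open scoped ComplexConjugate Topology ENNReal
open MeasureTheory Filter

namespace Pool.Agent.Nil820

open Pool.Agent.HK820

theorem strThm_zero : StrThm 0 := by
  intro X _ _ μ _ T hT f hf hf1 hpos
  have h1 : (fun _ : ℤ => (1 : ℂ)) ∈ {ψ | Nilseq 0 ψ} := (nilseq_seqAlg 0).const 1
  obtain ⟨φ, hφ, -⟩ := h1 1 one_pos
  obtain ⟨V, i1, i2, i3, G, i4, i5, i6, i7, i8, i9, Γ, g, x, F, n1, n2, n3, -⟩ := hφ
  have hG : ∀ a : G, a = 1 := by
    intro a
    have h2 : a ∈ (⊤ : Subgroup G) := Subgroup.mem_top a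
    rw [Subgroup.lowerCentralSeries_zero] at n1
    rw [n1] at h2
    exact Subgroup.mem_bot.1 h2
  refine ⟨X, inferInstance, μ, inferInstance, T, id, hT, MeasurePreserving.id μ,
    Eventually.of_forall fun q => rfl, V, i1, i2, i3, G, i4, i5, i6, i7, i8, i9, Γ, g,
    fun _ => x, ⟨fun _ => 1, continuous_const⟩, n1, n2, n3, fun F' => measurable_const,
    Eventually.of_forall fun q => ?_, ?_⟩
  · rw [hG g, one_smul]
  · have h3 : hkq μ T 0 f = ‖∫ x, f x ∂μ‖ ^ 2 := rfl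
    rw [h3] at hpos
    have h4 : ∫ x, f x ∂μ ≠ 0 := by
      intro h0
      rw [h0] at hpos
      simp at hpos
    simpa using h4

theorem strThm_pos {s : ℕ} (hs : 1 ≤ s) : StrThm s := by
  intro X _ _ μ _ T hT f hf hf1 hpos
  have hb : BM f := ⟨hf, 1, hf1⟩
  have hg : gn μ T (s + 1) f ≠ 0 := by
    intro h0
    rw [hkq_eq_gn μ T hT s hb, h0] at hpos
    simp at hpos
  obtain ⟨Q, i1, i2, ν, S, π, d, Γ, Θ, F, h1, h2, h3, h4, h5, h6⟩ :=
    nil_structure s hs μ T hT hb hg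
  obtain ⟨c1, c2⟩ := exists_lieGroup d
  refine ⟨Q, i1, ν, h1, S, π, h2, h3.mp, h3.eqv, d.V, inferInstance, inferInstance,
    inferInstance, GG d, inferInstance, inferInstance, inferInstance, inferInstance, c1, c2, Γ,
    GG.tau d, Θ, F, h5, h4.disc, h4.cocpt, fun F' => ?_, h4.eqv, h6⟩
  have h7 : ∀ F₁ : C(KK d Γ, ℂ), Measurable fun q => F₁ (Θ q) := fun F₁ =>
    F₁.continuous.measurable.comp h4.meas
  exact h7 F'

/-- **The structure theorem.** -/
theorem strThm (s : ℕ) : StrThm s := by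
  rcases Nat.eq_zero_or_pos s with rfl | h
  · exact strThm_zero
  · exact strThm_pos h

end Pool.Agent.Nil820

end
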